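import Pool.Agent.Helper35.TD.Defs

/-! Project TD. The curve `C : u^n = v^a (1 - v)^b` over `Ω`, its product with `K`, its
automorphisms over `Ω` and its endomorphisms over the automorphisms of `Ω` and over Frobenius
(after helper99, Helper75/QC/Curve.lean). -/

set_option autoImplicit false

namespace Pool.Agent.Helper35.TD

namespace CurveAB

open IntermediateField

/-- the polynomial over the rational functions -/
noncomputable def pol (a b n : ℕ) (F : Type) [Field F] : Polynomial (RatFunc F) :=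
  Polynomial.X ^ n - Polynomial.C (RatFunc.X ^ a * (1 - RatFunc.X) ^ b)

/-- Eisenstein at a linear polynomial `P`: `X ^ n - P * Q ^ b` -/
lemma irr_eis {n b : ℕ} (hn : 0 < n) (F : Type) [Field F] (P Q : Polynomial F) (hP : Prime P)
    (hPQ : ¬ P ∣ Q) :
    Irreducible (Polynomial.X ^ n - Polynomial.C (algebraMap (Polynomial F) (RatFunc F)
      (P * Q ^ b))) := by
  have hmonic : (Polynomial.X ^ n - Polynomial.C (P * Q ^ b) : Polynomial (Polynomial F)).Monic :=
    Polynomial.monic_X_pow_sub_C _ hn.ne'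
  have hdeg : (Polynomial.X ^ n - Polynomial.C (P * Q ^ b) : Polynomial (Polynomial F)).degree = n :=
    Polynomial.degree_X_pow_sub_C hn _
  have h1 : Irreducible (Polynomial.X ^ n - Polynomial.C (P * Q ^ b) : Polynomial (Polynomial F)) := by
    refine Polynomial.irreducible_of_eisenstein_criterion (P := Ideal.span {P}) ?_ ?_ ?_ ?_ ?_
      hmonic.isPrimitive
    · rw [Ideal.span_singleton_prime hP.ne_zero]
      exact hP
    · rw [hmonic.leadingCoeff, Ideal.mem_span_singleton]
      intro h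
      exact hP.not_isUnit (isUnit_of_dvd_one h)
    · intro m hm
      rw [hdeg, Nat.cast_lt] at hm
      rw [Ideal.mem_span_singleton]
      rw [Polynomial.coeff_sub, Polynomial.coeff_X_pow, if_neg hm.ne, zero_sub, dvd_neg,
        Polynomial.coeff_C]
      split_ifs
      · exact Dvd.intro _ rfl
      · exact dvd_zero _
    · rw [hdeg]
      exact_mod_cast hn
    · rw [Polynomial.coeff_sub, Polynomial.coeff_X_pow, if_neg hn.ne, zero_sub,
        Polynomial.coeff_C_zero, Ideal.span_singleton_pow, Ideal.mem_span_singleton, dvd_neg, sq]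
      intro h
      have h2 := (mul_dvd_mul_iff_left hP.ne_zero).1 h
      exact hPQ (hP.dvd_of_dvd_pow h2)
  have h2 := (hmonic.isPrimitive.irreducible_iff_irreducible_map_fraction_map (K := RatFunc F)).1 h1
  have h3 : (Polynomial.X ^ n - Polynomial.C (P * Q ^ b) : Polynomial (Polynomial F)).map
      (algebraMap (Polynomial F) (RatFunc F)) =
      Polynomial.X ^ n - Polynomial.C (algebraMap (Polynomial F) (RatFunc F) (P * Q ^ b)) := by
    rw [Polynomial.map_sub, Polynomial.map_pow, Polynomial.map_X, Polynomial.map_C]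
  rwa [h3] at h2

/-- the degree of an `m`-th root of `p ^ a * q ^ b` if `a` is prime to `m` and
`X ^ m - p * q ^ c` is always irreducible -/
lemma deg_dvd {M E : Type} [Field M] [Field E] [Algebra M E] {m a b : ℕ} (hm : 0 < m)
    (hab : a.Coprime m) (p q : M) (hp : p ≠ 0)
    (hirr : ∀ c : ℕ, Irreducible (Polynomial.X ^ m - Polynomial.C (p * q ^ c))) (w : E)
    (hw : w ^ m = algebraMap M E (p ^ a * q ^ b)) : m ∣ Module.finrank M M⟮w⟯ := by
  rcases Nat.lt_or_ge 1 m with hm1 | hm1
  swap
  · have h1 : m = 1 := by omega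
    rw [h1]
    exact one_dvd _
  obtain ⟨c, d, hcd⟩ : ∃ c d : ℕ, c * a = 1 + m * d := by
    obtain ⟨c, -, hc⟩ := Nat.exists_mul_mod_eq_one_of_coprime hab hm1
    refine ⟨c, a * c / m, ?_⟩
    have h1 := Nat.mod_add_div (a * c) m
    rw [hc] at h1
    rw [mul_comm c a]
    exact h1.symm
  set w' : E := w ^ c * (algebraMap M E p)⁻¹ ^ d with hw'
  have hp' : algebraMap M E p ≠ 0 := by simpa using hp
  have h1 : w' ^ m = algebraMap M E (p * q ^ (b * c)) := by
    rw [hw', mul_pow, ← pow_mul, mul_comm c m, pow_mul, hw, ← pow_mul, map_mul, map_pow, map_pow,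
      map_mul, map_pow, mul_pow, ← pow_mul, ← pow_mul, mul_comm a c, hcd, pow_add, pow_one,
      mul_comm m d, inv_pow]
    field_simp
  have h2 : Module.finrank M M⟮w'⟯ = m := by
    have h3 : Polynomial.aeval w' (Polynomial.X ^ m - Polynomial.C (p * q ^ (b * c)) : Polynomial M) = 0 := by
      rw [map_sub, map_pow, Polynomial.aeval_X, Polynomial.aeval_C, h1, sub_self]
    have h4 := minpoly.eq_of_irreducible_of_monic (hirr (b * c)) h3
      (Polynomial.monic_X_pow_sub_C _ hm.ne')
    have h5 : IsIntegral M w' := ⟨_, Polynomial.monic_X_pow_sub_C _ hm.ne', h3⟩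
    rw [IntermediateField.adjoin.finrank h5, ← h4, Polynomial.natDegree_X_pow_sub_C]
  have h6 : M⟮w'⟯ ≤ M⟮w⟯ := by
    rw [IntermediateField.adjoin_simple_le_iff, hw']
    refine mul_mem (pow_mem (mem_adjoin_simple_self M w) c) (pow_mem (inv_mem ?_) d)
    exact IntermediateField.algebraMap_mem _ p
  rw [← h2]
  exact IntermediateField.finrank_dvd_of_le_right h6

lemma irr {a b n : ℕ} (hn : 0 < n) (hab : (a.gcd b).Coprime n) (F : Type) [Field F] :
    Irreducible (pol a b n F) := by
  have hmonic : (pol a b n F).Monic := Polynomial.monic_X_pow_sub_C _ hn.ne'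
  have hX : (RatFunc.X : RatFunc F) ≠ 0 := RatFunc.X_ne_zero
  have hX1 : (1 - RatFunc.X : RatFunc F) ≠ 0 := by
    intro h
    have h1 : algebraMap (Polynomial F) (RatFunc F) (1 - Polynomial.X) = 0 := by
      rw [map_sub, map_one, RatFunc.algebraMap_X, h]
    have h2 : (1 - Polynomial.X : Polynomial F) = 0 :=
      (RatFunc.algebraMap_injective F) (by rw [h1, map_zero])
    have h3 := congrArg (Polynomial.eval 0) h2
    simp at h3
  have hpr0 : Prime (Polynomial.X : Polynomial F) := Polynomial.prime_X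
  have hpr1 : Prime (1 - Polynomial.X : Polynomial F) := by
    have h1 : Prime (Polynomial.X - Polynomial.C 1 : Polynomial F) := Polynomial.prime_X_sub_C 1
    have h2 : (1 - Polynomial.X : Polynomial F) = -(Polynomial.X - Polynomial.C 1) := by
      rw [Polynomial.C_1]; ring
    rw [h2]
    exact h1.neg
  have hnd0 : ¬ (Polynomial.X : Polynomial F) ∣ 1 - Polynomial.X := by
    intro h
    have := Polynomial.X_dvd_iff.1 h
    simp at this
  have hnd1 : ¬ (1 - Polynomial.X : Polynomial F) ∣ Polynomial.X := by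
    rintro ⟨r, hr⟩
    have := congrArg (Polynomial.eval 1) hr
    simp at this
  let E := AlgebraicClosure (RatFunc F)
  obtain ⟨w, hw⟩ := IsAlgClosed.exists_pow_nat_eq
    (algebraMap (RatFunc F) E (RatFunc.X ^ a * (1 - RatFunc.X) ^ b)) hn
  have hdvd : n ∣ Module.finrank (RatFunc F) (RatFunc F)⟮w⟯ := by
    rw [Nat.dvd_iff_prime_pow_dvd_dvd]
    intro p k hp hk
    rcases Nat.eq_zero_or_pos k with hk0 | hk0
    · rw [hk0, pow_zero]
      exact one_dvd _
    have hpn : p ∣ n := (dvd_pow_self p hk0.ne').trans hk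
    have hm : 0 < p ^ k := pow_pos hp.pos k
    obtain ⟨r, hr⟩ := hk
    have hwr : (w ^ r) ^ p ^ k = algebraMap (RatFunc F) E (RatFunc.X ^ a * (1 - RatFunc.X) ^ b) := by
      rw [← pow_mul, mul_comm r, ← hr, hw]
    have h1 : p ^ k ∣ Module.finrank (RatFunc F) (RatFunc F)⟮w ^ r⟯ := by
      by_cases hpa : p ∣ a
      · have hpb : ¬ p ∣ b := by
          intro hpb
          have h2 : p ∣ (a.gcd b).gcd n := Nat.dvd_gcd (Nat.dvd_gcd hpa hpb) hpn
          rw [hab] at h2
          exact hp.one_lt.ne' (Nat.dvd_one.1 h2)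
        have hcop : b.Coprime (p ^ k) :=
          Nat.Coprime.pow_right _ ((Nat.Prime.coprime_iff_not_dvd hp).2 hpb).symm
        refine deg_dvd (b := a) hm hcop (1 - RatFunc.X) RatFunc.X hX1 (fun c => ?_) (w ^ r) ?_
        · have h3 := irr_eis (b := c) hm F _ _ hpr1 hnd1
          rw [map_mul, map_pow, map_sub, map_one, RatFunc.algebraMap_X] at h3
          exact h3
        · rw [hwr, mul_comm]
      · have hcop : a.Coprime (p ^ k) :=
          Nat.Coprime.pow_right _ ((Nat.Prime.coprime_iff_not_dvd hp).2 hpa).symm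
        refine deg_dvd hm hcop RatFunc.X (1 - RatFunc.X) hX (fun c => ?_) (w ^ r) hwr
        have h3 := irr_eis (b := c) hm F _ _ hpr0 hnd0
        rw [map_mul, map_pow, map_sub, map_one, RatFunc.algebraMap_X] at h3
        exact h3
    refine h1.trans (IntermediateField.finrank_dvd_of_le_right ?_)
    rw [IntermediateField.adjoin_simple_le_iff]
    exact pow_mem (mem_adjoin_simple_self _ w) r
  have hroot : Polynomial.aeval w (pol a b n F) = 0 := by
    unfold pol
    rw [map_sub, map_pow, Polynomial.aeval_X, Polynomial.aeval_C, hw, sub_self]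
  have hint : IsIntegral (RatFunc F) w := ⟨_, hmonic, hroot⟩
  have hfr := IntermediateField.adjoin.finrank hint
  have hle : n ≤ (minpoly (RatFunc F) w).natDegree := by
    rw [← hfr]
    refine Nat.le_of_dvd ?_ hdvd
    rw [hfr]
    exact minpoly.natDegree_pos hint
  have hmin : pol a b n F = minpoly (RatFunc F) w := by
    refine Polynomial.eq_of_monic_of_dvd_of_natDegree_le (minpoly.monic hint) hmonic
      (minpoly.dvd _ _ hroot) ?_
    unfold pol
    rw [Polynomial.natDegree_X_pow_sub_C]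
    exact hle
  rw [hmin]
  exact minpoly.irreducible hint

instance irrI {α β n : ℕ} [NeZero n] [h : Fact ((α.gcd β).Coprime n)] (F : Type) [Field F] :
    Fact (Irreducible (pol α β n F)) :=
  ⟨irr (Nat.pos_of_ne_zero (NeZero.ne n)) h.out F⟩

/-- homomorphisms out of the function field of the curve -/
lemma hom99 {Ω : Type} [Field Ω] {α β n : ℕ} [NeZero n] [Fact ((α.gcd β).Coprime n)] {E : Type} [Field E] [Algebra Ω E] (t w : E)
    (ht : Transcendental Ω t) (h : w ^ n = t ^ α * (1 - t) ^ β) :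
    ∃ b : AdjoinRoot (pol α β n Ω) →ₐ[Ω] E, b (AdjoinRoot.of _ RatFunc.X) = t ∧ b (AdjoinRoot.root _) = w := by
  have hinj : Function.Injective (Polynomial.aeval t : Polynomial Ω →ₐ[Ω] E) :=
    transcendental_iff_injective.1 ht
  let i : RatFunc Ω →ₐ[Ω] E := RatFunc.liftAlgHom (Polynomial.aeval t)
    (nonZeroDivisors_le_comap_nonZeroDivisors_of_injective _ hinj)
  have hi : i RatFunc.X = t := by
    have h1 := RatFunc.liftAlgHom_apply_div (Polynomial.aeval t : Polynomial Ω →ₐ[Ω] E)
      (nonZeroDivisors_le_comap_nonZeroDivisors_of_injective _ hinj) Polynomial.X 1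
    rw [map_one, map_one, div_one, div_one, RatFunc.algebraMap_X, Polynomial.aeval_X] at h1
    exact h1
  have hP : (pol α β n Ω).eval₂ (i : RatFunc Ω →+* E) w = 0 := by
    unfold pol
    rw [Polynomial.eval₂_sub, Polynomial.eval₂_pow, Polynomial.eval₂_X, Polynomial.eval₂_C, h]
    have : (i : RatFunc Ω →+* E) (RatFunc.X ^ α * (1 - RatFunc.X) ^ β) =
        t ^ α * (1 - t) ^ β := by
      rw [map_mul, map_pow, map_pow, map_sub, map_one]
      show i RatFunc.X ^ α * (1 - i RatFunc.X) ^ β = _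
      rw [hi]
    rw [this, sub_self]
  refine ⟨AdjoinRoot.liftAlgHom _ i w hP, ?_, ?_⟩
  · rw [AdjoinRoot.liftAlgHom_of, hi]
  · rw [AdjoinRoot.liftAlgHom_root]

/-- homomorphisms out of the function field of the curve, over a homomorphism of constants -/
lemma hom99s {Ω : Type} [Field Ω] {α β n : ℕ} [NeZero n] [Fact ((α.gcd β).Coprime n)] {E : Type} [Field E] (i : Ω →+* E)
    (t w : E) (ht : ∀ P : Polynomial Ω, P.eval₂ i t = 0 → P = 0) (h : w ^ n = t ^ α * (1 - t) ^ β) :
    ∃ b : AdjoinRoot (pol α β n Ω) →+* E, (∀ a : Ω, b (algebraMap Ω _ a) = i a) ∧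
      b (AdjoinRoot.of _ RatFunc.X) = t ∧ b (AdjoinRoot.root _) = w := by
  let al : Algebra Ω E := i.toAlgebra
  have h1 : Transcendental Ω t := by
    rintro ⟨P, hP0, hP⟩
    exact hP0 (ht P hP)
  obtain ⟨b, hb1, hb2⟩ := hom99 (Ω := Ω) (n := n) (α := α) (β := β) t w h1 h
  exact ⟨b, fun a => b.commutes a, hb1, hb2⟩

/-- generation -/
lemma gen99 {Ω : Type} [Field Ω] {α β n : ℕ} [NeZero n] [Fact ((α.gcd β).Coprime n)] (F : Type) [Field F] [Algebra Ω F]
    (S : IntermediateField Ω (AdjoinRoot (pol α β n F)))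
    (h1 : ∀ k : F, AdjoinRoot.of (pol α β n F) (algebraMap F (RatFunc F) k) ∈ S)
    (h2 : AdjoinRoot.of (pol α β n F) RatFunc.X ∈ S) (h3 : AdjoinRoot.root (pol α β n F) ∈ S) : S = ⊤ := by
  have h4 : ∀ P : Polynomial F, AdjoinRoot.of (pol α β n F) (algebraMap (Polynomial F) (RatFunc F) P) ∈ S := by
    intro P
    induction P using Polynomial.induction_on' with
    | add p q hp hq => rw [map_add, map_add]; exact add_mem hp hq
    | monomial m c =>
      rw [← Polynomial.C_mul_X_pow_eq_monomial, map_mul, map_pow, RatFunc.algebraMap_X, RatFunc.algebraMap_C,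
        map_mul, map_pow]
      exact mul_mem (h1 c) (pow_mem h2 m)
  have h5 : ∀ r : RatFunc F, AdjoinRoot.of (pol α β n F) r ∈ S := by
    intro r
    rw [← RatFunc.num_div_denom r, map_div₀]
    exact div_mem (h4 _) (h4 _)
  rw [eq_top_iff]
  intro x _
  obtain ⟨g, rfl⟩ := AdjoinRoot.mk_surjective x
  induction g using Polynomial.induction_on' with
  | add p q hp hq => rw [map_add]; exact add_mem (hp trivial) (hq trivial)
  | monomial m c =>
    rw [← Polynomial.C_mul_X_pow_eq_monomial, map_mul, map_pow, AdjoinRoot.mk_C, AdjoinRoot.mk_X]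
    exact mul_mem (h5 c) (pow_mem h3 m)

lemma root99 {α β n : ℕ} [NeZero n] [Fact ((α.gcd β).Coprime n)] (F : Type) [Field F] :
    AdjoinRoot.root (pol α β n F) ^ n =
      AdjoinRoot.of (pol α β n F) RatFunc.X ^ α *
        (1 - AdjoinRoot.of (pol α β n F) RatFunc.X) ^ β := by
  have h := AdjoinRoot.eval₂_root (pol α β n F)
  conv at h =>
    lhs
    arg 3
    unfold pol
  rw [Polynomial.eval₂_sub, Polynomial.eval₂_pow, Polynomial.eval₂_X, Polynomial.eval₂_C, map_mul, map_pow,
    map_pow, map_sub, map_one] at h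
  exact sub_eq_zero.1 h

end CurveAB

open CurveAB IntermediateField

/-- The curve `C : u^n = v^α (1 - v)^β`, its product with a variety with function field `K`, the
universal property of its function field, its automorphisms over `Ω`, the Frobenius and the
endomorphisms over the automorphisms of `Ω`. -/
theorem exists_curve_ab {Ω : Type} [Field Ω] {n α β : ℕ} (hn : 0 < n)
    (hαβ : (α.gcd β).Coprime n) (K : Type) [Field K] [Algebra Ω K] :
    ∃ (C N : Type) (_ : Field C) (_ : Algebra Ω C) (_ : Field N) (_ : Algebra Ω N)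
      (v u : C) (a : K →ₐ[Ω] N) (b : C →ₐ[Ω] N),
      Transcendental Ω v ∧ u ^ n = v ^ α * (1 - v) ^ β ∧ adjoin Ω {v, u} = ⊤ ∧
      Transcendental a.fieldRange (b v) ∧
      adjoin Ω (Set.range a ∪ {b v, b u}) = ⊤ ∧
      (∀ ζ : Ω, ζ ^ n = 1 → ∃ σ : C →ₐ[Ω] C, σ v = v ∧ σ u = algebraMap Ω C ζ * u) ∧
      (∀ p : ℕ, p.Prime → CharP Ω p → ∀ e : ℕ,
        ∃ ψ : C →ₐ[Ω] C, ψ v = v ^ p ^ e ∧ ψ u = u ^ p ^ e) ∧
      (∀ τ : Ω ≃+* Ω, ∃ γ : C →+* C, IsOver τ γ ∧ γ v = v ∧ γ u = u) := by
  have hne : NeZero n := ⟨hn.ne'⟩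
  have hfact : Fact ((α.gcd β).Coprime n) := ⟨hαβ⟩
  have htr : ∀ (F : Type) [Field F] (P : Polynomial F),
      P.eval₂ ((AdjoinRoot.of (pol α β n F)).comp (algebraMap F (RatFunc F)))
        (AdjoinRoot.of (pol α β n F) RatFunc.X) = 0 → P = 0 := by
    intro F _ P hP
    rw [← Polynomial.hom_eval₂] at hP
    have h1 : P.eval₂ (algebraMap F (RatFunc F)) RatFunc.X = 0 :=
      (AdjoinRoot.of (pol α β n F)).injective (by rw [hP, map_zero])
    by_contra h0
    exact RatFunc.transcendental_X (K := F) ⟨P, h0, h1⟩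
  have hvt : Transcendental Ω (AdjoinRoot.of (pol α β n Ω) RatFunc.X) := by
    rintro ⟨P, hP0, hP⟩
    exact hP0 (htr Ω P hP)
  let a : K →ₐ[Ω] AdjoinRoot (pol α β n K) :=
    { (AdjoinRoot.of (pol α β n K)).comp (algebraMap K (RatFunc K)) with
      commutes' := fun r => by
        show AdjoinRoot.of (pol α β n K) (algebraMap K (RatFunc K) (algebraMap Ω K r)) = _
        rw [← IsScalarTower.algebraMap_apply Ω K (RatFunc K)]
        rfl }
  have htrK : Transcendental Ω (AdjoinRoot.of (pol α β n K) RatFunc.X) := by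
    rintro ⟨P, hP0, hP⟩
    apply hP0
    have h1 : P.map (algebraMap Ω K) = 0 := by
      apply htr K
      have h4 : ((AdjoinRoot.of (pol α β n K)).comp (algebraMap K (RatFunc K))).comp
          (algebraMap Ω K) = algebraMap Ω (AdjoinRoot (pol α β n K)) := a.comp_algebraMap
      rw [Polynomial.eval₂_map, h4]
      exact hP
    exact (Polynomial.map_eq_zero _).1 h1
  obtain ⟨b, hb1, hb2⟩ := hom99 (Ω := Ω) (n := n) (α := α) (β := β) _ _ htrK (root99 K)
  refine ⟨AdjoinRoot (pol α β n Ω), AdjoinRoot (pol α β n K), inferInstance, inferInstance, inferInstance,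
    inferInstance, AdjoinRoot.of _ RatFunc.X, AdjoinRoot.root _, a, b, hvt, root99 Ω, ?_, ?_, ?_, ?_, ?_, ?_⟩
  · refine gen99 Ω _ (fun k => ?_) (subset_adjoin Ω _ (by simp)) (subset_adjoin Ω _ (by simp))
    exact IntermediateField.algebraMap_mem _ k
  · rw [hb1]
    rintro ⟨P, hP0, hP⟩
    apply hP0
    let e : K ≃+* a.fieldRange := (AlgEquiv.ofInjectiveField a).toRingEquiv
    have h1 : P.map (e.symm : a.fieldRange →+* K) = 0 := by
      apply htr K
      have h4 : ((AdjoinRoot.of (pol α β n K)).comp (algebraMap K (RatFunc K))).comp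
          (e.symm : a.fieldRange →+* K) = algebraMap a.fieldRange (AdjoinRoot (pol α β n K)) := by
        ext x
        have h2 : ∀ k : K, ((e k : a.fieldRange) : AdjoinRoot (pol α β n K)) = a k := fun k => rfl
        have h3 := h2 (e.symm x)
        rw [RingEquiv.apply_symm_apply] at h3
        exact h3.symm
      rw [Polynomial.eval₂_map, h4]
      exact hP
    exact (Polynomial.map_eq_zero _).1 h1
  · rw [hb1, hb2]
    refine gen99 K _ (fun k => subset_adjoin Ω _ (Or.inl ⟨k, rfl⟩)) (subset_adjoin Ω _ (by simp))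
      (subset_adjoin Ω _ (by simp))
  · intro ζ hζ
    refine hom99 (Ω := Ω) (n := n) (α := α) (β := β) (AdjoinRoot.of (pol α β n Ω) RatFunc.X)
      (algebraMap Ω _ ζ * AdjoinRoot.root (pol α β n Ω)) hvt ?_
    rw [mul_pow, ← map_pow, hζ, map_one, one_mul, root99]
  · intro p hp hchar e
    have hpf : Fact p.Prime := ⟨hp⟩
    have hchar : CharP (AdjoinRoot (pol α β n Ω)) p :=
      charP_of_injective_algebraMap (algebraMap Ω (AdjoinRoot (pol α β n Ω))).injective p
    refine hom99 (Ω := Ω) (n := n) (α := α) (β := β) (AdjoinRoot.of (pol α β n Ω) RatFunc.X ^ p ^ e)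
      (AdjoinRoot.root (pol α β n Ω) ^ p ^ e) (hvt.pow (pow_pos hp.pos e)) ?_
    rw [← pow_mul, mul_comm, pow_mul, root99, mul_pow, ← pow_mul, ← pow_mul, mul_comm α,
      mul_comm β, pow_mul, pow_mul, sub_pow_char_pow, one_pow]
  · intro τ
    obtain ⟨b', hb0', hb1', hb2'⟩ := hom99s (n := n) (α := α) (β := β)
      ((algebraMap Ω (AdjoinRoot (pol α β n Ω))).comp (τ : Ω →+* Ω))
      (AdjoinRoot.of _ RatFunc.X) (AdjoinRoot.root _) (fun P hP => by
        by_contra h0
        have h3 : P.map (τ : Ω →+* Ω) ≠ 0 := (Polynomial.map_ne_zero_iff τ.injective).2 h0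
        refine hvt ⟨P.map (τ : Ω →+* Ω), h3, ?_⟩
        rw [Polynomial.aeval_def, Polynomial.eval₂_map]
        exact hP) (root99 Ω)
    exact ⟨b', hb0', hb1', hb2'⟩

end Pool.Agent.Helper35.TD
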