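import Pool.Agent.Helper75.TC.Red1
import Pool.Agent.Helper48.TC.Red

/-! Cyclic covers of the plane branched along two curves: reduction to normal forms (after helper75
and helper48), without Frobenius. The new generator is in the field generated over the prime field
by `x, y, w` and the values of the polynomials. -/

set_option autoImplicit false

namespace Pool.Agent.Helper35.TD

open IntermediateField Pool.Agent.Helper75.QC Pool.Agent.Helper75.TC

/-- The normal forms of `w`; `S` is the set of the generators. -/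
inductive Form {Ω K : Type} [Field Ω] [Field K] [Algebra Ω K] (S : Set K) (n : ℕ) (x y w : K) : Prop
  /-- a quartic and a line -/
  | A (f l : MvPolynomial (Fin 2) Ω) (hf : f.totalDegree ≤ 4) (hl : l.totalDegree ≤ 1)
      (hlS : val l x y ∈ Subfield.closure S) (hl0 : val l x y ≠ 0)
      (hw : w ^ n * val l x y ^ 4 = val f x y)
  /-- a cubic and a conic -/
  | B (f g : MvPolynomial (Fin 2) Ω) (hf : f.totalDegree ≤ 3) (hg : g.totalDegree ≤ 2)
      (hg0 : val g x y ≠ 0) (hw : w ^ n * val g x y ^ 3 = val f x y ^ 2)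
  /-- a quintic -/
  | C (hn : n = 5) (f : MvPolynomial (Fin 2) Ω) (hf : f.totalDegree ≤ 5)
      (hw : w ^ n = val f x y)
  /-- a pencil of conics -/
  | D (f g : MvPolynomial (Fin 2) Ω) (hf : f.totalDegree ≤ 2) (hg : g.totalDegree ≤ 2)
      (hg0 : val g x y ≠ 0) (hw : w ^ n * val g x y = val f x y)
  /-- a net of conics -/
  | N (f g h : MvPolynomial (Fin 2) Ω) (a b c : ℕ) (hf : f.totalDegree ≤ 2)
      (hg : g.totalDegree ≤ 2) (hh : h.totalDegree ≤ 2) (hf0 : val f x y ≠ 0)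
      (hg0 : val g x y ≠ 0) (hh0 : val h x y ≠ 0) (hn : n ∣ a + b + c)
      (hw : w ^ n = val f x y ^ a * val g x y ^ b * val h x y ^ c)

theorem val_one' {Ω K : Type} [Field Ω] [Field K] [Algebra Ω K] (x y : K) :
    val (1 : MvPolynomial (Fin 2) Ω) x y = 1 := by
  unfold Pool.Agent.Helper75.TC.val
  exact map_one _

/-- replace a polynomial with exponent zero by one -/
theorem repl' {Ω K : Type} [Field Ω] [Field K] [Algebra Ω K]
    (f : MvPolynomial (Fin 2) Ω) (x y : K) (a : ℕ) (h : val f x y ^ a ≠ 0) (S : Set K)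
    (hS : val f x y ∈ S) :
    ∃ f' : MvPolynomial (Fin 2) Ω, f'.totalDegree ≤ f.totalDegree ∧
      val f' x y ∈ Subfield.closure S ∧ val f' x y ≠ 0 ∧ val f' x y ^ a = val f x y ^ a := by
  rcases Nat.eq_zero_or_pos a with ha | ha
  · refine ⟨1, by rw [MvPolynomial.totalDegree_one]; exact Nat.zero_le _, ?_, ?_, ?_⟩
    · rw [val_one']
      exact one_mem _
    · rw [val_one']
      exact one_ne_zero
    · rw [ha, pow_zero, pow_zero]
  · refine ⟨f, le_rfl, Subfield.subset_closure hS, ?_, rfl⟩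
    intro h0
    exact h (by rw [h0, zero_pow ha.ne'])

theorem val_mul' {Ω K : Type} [Field Ω] [Field K] [Algebra Ω K] (f g : MvPolynomial (Fin 2) Ω)
    (x y : K) : val (f * g) x y = val f x y * val g x y := by
  unfold Pool.Agent.Helper75.TC.val
  exact map_mul _ _ _

theorem val_pow' {Ω K : Type} [Field Ω] [Field K] [Algebra Ω K] (f : MvPolynomial (Fin 2) Ω)
    (k : ℕ) (x y : K) : val (f ^ k) x y = val f x y ^ k := by
  unfold Pool.Agent.Helper75.TC.val
  exact map_pow _ _ _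

theorem val_C' {Ω K : Type} [Field Ω] [Field K] [Algebra Ω K] (c : Ω) (x y : K) :
    val (MvPolynomial.C c) x y = algebraMap Ω K c := by
  unfold Pool.Agent.Helper75.TC.val
  exact MvPolynomial.aeval_C _ _

/-- one curve: `w ^ n = f ^ a γ`, `γ` a constant -/
theorem red_one {Ω K : Type} [Field Ω] [IsAlgClosed Ω] [Field K] [Algebra Ω K] {n : ℕ}
    (hn : 1 < n) (x y w : K) (hK : adjoin Ω {x, y, w} = ⊤)
    (hdeg : Module.finrank (adjoin Ω {x, y}) K = n) (hw0 : w ≠ 0) (S : Set K)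
    (hwS : w ∈ Subfield.closure S) (f : MvPolynomial (Fin 2) Ω) (hf0 : val f x y ≠ 0)
    (hfS : val f x y ∈ Subfield.closure S) (γ : Ω) (d a : ℕ) (h1 : f.totalDegree ≤ d)
    (hd : d ≤ 5) (ha : n ∣ a * d) (hw : w ^ n = val f x y ^ a * algebraMap Ω K γ) :
    ∃ w' ∈ Subfield.closure S, w' ≠ 0 ∧ adjoin Ω {x, y, w'} = ⊤ ∧ Form (Ω := Ω) S n x y w' := by
  have hx : x ∈ adjoin Ω {x, y} := subset_adjoin _ _ (by simp)
  have hy : y ∈ adjoin Ω {x, y} := subset_adjoin _ _ (by simp)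
  have hFm : val f x y ∈ adjoin Ω {x, y} := val_mem f _ hx hy
  have hwF : w ^ n ∈ adjoin Ω {x, y} := by
    rw [hw]
    exact mul_mem (pow_mem hFm _) (IntermediateField.algebraMap_mem _ _)
  have hco : Nat.Coprime a n := by
    obtain ⟨δ, hδ⟩ := IsAlgClosed.exists_pow_nat_eq γ
      (n := Nat.gcd a n) (Nat.gcd_pos_of_pos_right _ (by omega))
    obtain ⟨a', ha'⟩ := Nat.gcd_dvd_left a n
    refine coprime_of (by omega) x y w hK hdeg (Nat.gcd_dvd_right a n)
      (val f x y ^ a' * algebraMap Ω K δ) (mul_mem (pow_mem hFm _)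
        (IntermediateField.algebraMap_mem _ _)) hw0 ?_
    rw [hw, mul_pow, ← pow_mul, ← map_pow, hδ, mul_comm a', ← ha']
  obtain ⟨k, hk⟩ := Nat.exists_mul_mod_eq_one_of_coprime hco hn
  have hk1 : a * k ≡ 1 [MOD n] := by
    rw [Nat.ModEq, hk.2, Nat.mod_eq_of_lt hn]
  obtain ⟨t, ht⟩ : ∃ t : ℕ, a * k = 1 + n * t := by
    have h4 : 1 ≤ a * k := by
      rcases Nat.eq_zero_or_pos (a * k) with h5 | h5
      · rw [h5, Nat.zero_mod] at hk
        exact absurd hk.2 zero_ne_one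
      · exact h5
    have h6 : n ∣ a * k - 1 := (Nat.modEq_iff_dvd' h4).1 hk1.symm
    obtain ⟨t, ht⟩ := h6
    exact ⟨t, by omega⟩
  have hA0 : (val f x y ^ t)⁻¹ ≠ 0 := inv_ne_zero (pow_ne_zero _ hf0)
  have hC : Cover 1 n x y w (AlgHom.id Ω K) :=
    ⟨hK, hdeg, (pow_one _).symm, (pow_one _).symm, (pow_one _).symm⟩
  have hC' := change (q := 1) (c := k) (c' := a) hn (by rw [mul_comm]; exact hk1) x y w
    ((val f x y ^ t)⁻¹) (AlgHom.id Ω K) hC hwF hw0 (inv_mem (pow_mem hFm _)) hA0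
    (pow_one _).symm
  have hw' : (w ^ k * (val f x y ^ t)⁻¹) ^ n =
      val f x y * algebraMap Ω K (γ ^ k) := by
    have h4 : (w ^ k) ^ n = val f x y * (val f x y ^ t) ^ n * algebraMap Ω K (γ ^ k) := by
      rw [← pow_mul, mul_comm k, pow_mul, hw, mul_pow, ← pow_mul, ht, ← pow_mul, ← map_pow,
        pow_add, pow_one, mul_comm n t]
    rw [mul_pow, h4, inv_pow]
    have h5 : (val f x y ^ t) ^ n ≠ 0 := pow_ne_zero _ (pow_ne_zero _ hf0)
    field_simp
  refine ⟨w ^ k * (val f x y ^ t)⁻¹, mul_mem (pow_mem hwS _) (inv_mem (pow_mem hfS _)),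
    mul_ne_zero (pow_ne_zero _ hw0) hA0, hC'.gen, ?_⟩
  have hval : val (f * MvPolynomial.C (γ ^ k)) x y = val f x y * algebraMap Ω K (γ ^ k) := by
    rw [val_mul', val_C']
  have hdeg' : (f * MvPolynomial.C (γ ^ k)).totalDegree ≤ d := by
    refine (MvPolynomial.totalDegree_mul _ _).trans ?_
    rw [MvPolynomial.totalDegree_C, add_zero]
    exact h1
  rcases Nat.lt_or_ge d 5 with h5 | h5
  · refine Form.A (f * MvPolynomial.C (γ ^ k)) 1 (by omega)
      (by rw [MvPolynomial.totalDegree_one]; exact Nat.zero_le _) ?_ ?_ ?_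
    · rw [val_one']
      exact one_mem _
    · rw [val_one']
      exact one_ne_zero
    · rw [val_one', one_pow, mul_one, hw', hval]
  · have h6 : d = 5 := by omega
    subst h6
    have h7 : n ∣ 5 := by
      have h8 : n ∣ 5 * a := by rw [mul_comm]; exact ha
      exact hco.symm.dvd_of_dvd_mul_right h8
    have h8 : n = 5 := by
      rcases (Nat.dvd_prime (by norm_num : Nat.Prime 5)).1 h7 with h9 | h9
      · omega
      · exact h9
    exact Form.C h8 (f * MvPolynomial.C (γ ^ k)) hdeg' (by rw [hw', hval])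

/-- two curves, the degree of the first one is not smaller -/
theorem red_aux {Ω K : Type} [Field Ω] [IsAlgClosed Ω] [Field K] [Algebra Ω K] {n : ℕ}
    (hn : 1 < n) (x y w : K) (hK : adjoin Ω {x, y, w} = ⊤)
    (hdeg : Module.finrank (adjoin Ω {x, y}) K = n) (hw0 : w ≠ 0) (S : Set K)
    (hwS : w ∈ Subfield.closure S) (f g : MvPolynomial (Fin 2) Ω) (hf0 : val f x y ≠ 0)
    (hg0 : val g x y ≠ 0) (hfS : val f x y ∈ Subfield.closure S)
    (hgS : val g x y ∈ Subfield.closure S) (d1 d2 a1 a2 : ℕ)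
    (h1 : f.totalDegree ≤ d1) (h2 : g.totalDegree ≤ d2) (hd : d1 + d2 ≤ 5) (hle : d2 ≤ d1)
    (ha : n ∣ a1 * d1 + a2 * d2) (hw : w ^ n = val f x y ^ a1 * val g x y ^ a2) :
    ∃ w' ∈ Subfield.closure S, w' ≠ 0 ∧ adjoin Ω {x, y, w'} = ⊤ ∧ Form (Ω := Ω) S n x y w' := by
  have hx : x ∈ adjoin Ω {x, y} := subset_adjoin _ _ (by simp)
  have hy : y ∈ adjoin Ω {x, y} := subset_adjoin _ _ (by simp)
  have hFm : val f x y ∈ adjoin Ω {x, y} := val_mem f _ hx hy
  have hGm : val g x y ∈ adjoin Ω {x, y} := val_mem g _ hx hy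
  have hn0 : 0 < n := by omega
  -- the general step
  have step : ∀ e1 e2 : ℕ, Nat.Coprime e1 e2 → n ∣ a1 * e1 + a2 * e2 →
      ∃ w' ∈ Subfield.closure S, w' ≠ 0 ∧ adjoin Ω {x, y, w'} = ⊤ ∧
        w' ^ n * val g x y ^ e1 = val f x y ^ e2 := by
    intro e1 e2 he hde
    obtain ⟨w', h3, h4, e, k1, k2, h5⟩ := Pool.Agent.Helper48.TC.exists_red_field hK hn0 hdeg
      hFm hGm hf0 hg0 hw he hde
    refine ⟨w', ?_, ?_, h4, h3⟩
    · rw [h5]
      exact mul_mem (zpow_mem hwS _) (mul_mem (zpow_mem hfS _) (zpow_mem hgS _))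
    · rw [h5]
      exact mul_ne_zero (zpow_ne_zero _ hw0) (mul_ne_zero (zpow_ne_zero _ hf0)
        (zpow_ne_zero _ hg0))
  rcases Nat.lt_or_ge d2 1 with hd2 | hd2
  · -- one curve
    have hd2' : d2 = 0 := by omega
    subst hd2'
    have hgc : g.totalDegree = 0 := by omega
    rw [MvPolynomial.totalDegree_eq_zero_iff_eq_C] at hgc
    have hG : val g x y = algebraMap Ω K (g.coeff 0) := by
      conv_lhs => rw [hgc]
      exact val_C' _ _ _
    refine red_one hn x y w hK hdeg hw0 S hwS f hf0 hfS (g.coeff 0 ^ a2) d1 a1 h1 (by omega)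
      (by simpa using ha) ?_
    rw [hw, hG, map_pow]
  rcases Nat.lt_or_ge d2 2 with hd2' | hd2'
  · -- a line
    have h3 : d2 = 1 := by omega
    subst h3
    obtain ⟨w', hw'S, hw'0, hK', hw'⟩ := step d1 1 (Nat.coprime_one_right _) ha
    refine ⟨w', hw'S, hw'0, hK', Form.A (f * g ^ (4 - d1)) g ?_ h2 hgS hg0 ?_⟩
    · refine (MvPolynomial.totalDegree_mul _ _).trans ?_
      have h4 := MvPolynomial.totalDegree_pow g (4 - d1)
      have h5 : (4 - d1) * g.totalDegree ≤ 4 - d1 := by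
        calc (4 - d1) * g.totalDegree ≤ (4 - d1) * 1 := Nat.mul_le_mul_left _ h2
          _ = 4 - d1 := mul_one _
      omega
    · have h4 : 4 = d1 + (4 - d1) := by omega
      rw [val_mul', val_pow', ← pow_one (val f x y), ← hw']
      conv_lhs => rw [h4, pow_add]
      ring
  have h3 : d2 = 2 := by omega
  subst h3
  rcases Nat.lt_or_ge d1 3 with hd1 | hd1
  · -- two conics
    have h4 : d1 = 2 := by omega
    subst h4
    by_cases hdv : n ∣ a1 + a2
    · obtain ⟨w', hw'S, hw'0, hK', hw'⟩ := step 1 1 (Nat.coprime_one_right _)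
        (by simpa using hdv)
      exact ⟨w', hw'S, hw'0, hK', Form.D f g h1 h2 hg0 (by simpa using hw')⟩
    · obtain ⟨m, hm⟩ : ∃ m, n ∣ a1 + a2 + m := by
        refine ⟨(n - 1) * (a1 + a2), ?_⟩
        have h5 : a1 + a2 + (n - 1) * (a1 + a2) = n * (a1 + a2) := by
          have h6 : n = (n - 1) + 1 := by omega
          conv_rhs => rw [h6]
          ring
        rw [h5]
        exact Dvd.intro _ rfl
      refine ⟨w, hwS, hw0, hK, Form.N f g 1 a1 a2 m h1 h2
        (by rw [MvPolynomial.totalDegree_one]; exact Nat.zero_le _) hf0 hg0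
        (by rw [val_one']; exact one_ne_zero) hm ?_⟩
      rw [hw, val_one', one_pow, mul_one]
  · -- a cubic and a conic
    have h4 : d1 = 3 := by omega
    subst h4
    obtain ⟨w', hw'S, hw'0, hK', hw'⟩ := step 3 2 (by norm_num) ha
    exact ⟨w', hw'S, hw'0, hK', Form.B f g h1 h2 hg0 hw'⟩

/-- **Two curves** of total degree at most five. -/
theorem red_two {Ω K : Type} [Field Ω] [IsAlgClosed Ω] [Field K] [Algebra Ω K] {n : ℕ}
    (hn : 1 < n) (x y w : K) (hK : adjoin Ω {x, y, w} = ⊤)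
    (hdeg : Module.finrank (adjoin Ω {x, y}) K = n) (hw0 : w ≠ 0) (S : Set K)
    (hwS : w ∈ S) (f g : MvPolynomial (Fin 2) Ω) (hfS : val f x y ∈ S) (hgS : val g x y ∈ S)
    (d1 d2 a1 a2 : ℕ) (h1 : f.totalDegree ≤ d1) (h2 : g.totalDegree ≤ d2) (hd : d1 + d2 ≤ 5)
    (ha : n ∣ a1 * d1 + a2 * d2) (hw : w ^ n = val f x y ^ a1 * val g x y ^ a2) :
    ∃ w' ∈ Subfield.closure S, w' ≠ 0 ∧ adjoin Ω {x, y, w'} = ⊤ ∧ Form (Ω := Ω) S n x y w' := by
  have hne : val f x y ^ a1 * val g x y ^ a2 ≠ 0 := by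
    rw [← hw]
    exact pow_ne_zero _ hw0
  obtain ⟨f', hf1, hfS', hf0, hfa⟩ := repl' f x y a1 (left_ne_zero_of_mul hne) S hfS
  obtain ⟨g', hg1, hgS', hg0, hga⟩ := repl' g x y a2 (right_ne_zero_of_mul hne) S hgS
  rw [← hfa, ← hga] at hw
  rcases le_total d2 d1 with hle | hle
  · exact red_aux hn x y w hK hdeg hw0 S (Subfield.subset_closure hwS) f' g' hf0 hg0 hfS' hgS'
      d1 d2 a1 a2 (hf1.trans h1) (hg1.trans h2) hd hle ha hw
  · exact red_aux hn x y w hK hdeg hw0 S (Subfield.subset_closure hwS) g' f' hg0 hf0 hgS' hfS'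
      d2 d1 a2 a1 (hg1.trans h2) (hf1.trans h1) (by omega) hle (by rw [add_comm]; exact ha)
      (by rw [hw, mul_comm])

/-- **Three conics.** -/
theorem red_three {Ω K : Type} [Field Ω] [Field K] [Algebra Ω K] {n : ℕ}
    (x y w : K) (hw0 : w ≠ 0) (S : Set K) (f g h : MvPolynomial (Fin 2) Ω)
    (a b c : ℕ) (h1 : f.totalDegree ≤ 2) (h2 : g.totalDegree ≤ 2) (h3 : h.totalDegree ≤ 2)
    (ha : n ∣ a + b + c) (hw : w ^ n = val f x y ^ a * val g x y ^ b * val h x y ^ c) :
    Form (Ω := Ω) S n x y w := by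
  have hne : val f x y ^ a * val g x y ^ b * val h x y ^ c ≠ 0 := by
    rw [← hw]
    exact pow_ne_zero _ hw0
  obtain ⟨f', hf1, -, hf0, hfa⟩ := repl' f x y a (left_ne_zero_of_mul (left_ne_zero_of_mul hne))
    {val f x y} rfl
  obtain ⟨g', hg1, -, hg0, hga⟩ := repl' g x y b (right_ne_zero_of_mul (left_ne_zero_of_mul hne))
    {val g x y} rfl
  obtain ⟨h', hh1, -, hh0, hha⟩ := repl' h x y c (right_ne_zero_of_mul hne) {val h x y} rfl
  rw [← hfa, ← hga, ← hha] at hw
  exact Form.N f' g' h' a b c (hf1.trans h1) (hg1.trans h2) (hh1.trans h3) hf0 hg0 hh0 ha hw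

end Pool.Agent.Helper35.TD
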