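import Pool.Agent.Helper35.TD.Input
import Pool.Agent.Helper35.TD.Red
import Pool.Agent.Helper35.TD.FormA
import Pool.Agent.Helper40.SD.Inp
import Pool.Agent.Helper75.TC.Conic2

/-! The cyclic covers of the plane branched along two curves of total degree at most five or along
three conics satisfy the criterion (`Input`), assembled from the blocks of helper40, helper48,
helper75, helper12, helper33, helper34. -/

set_option autoImplicit false

namespace Pool.Agent.Helper35.TD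

open IntermediateField Pool.Agent.Helper75.QC Pool.Agent.Helper75.TC Pool.Agent.Helper40.SD

/-- `w ^ n = f ^ a * g ^ b * h ^ c` is a cyclic cover of the plane branched along two curves of total
degree at most five, or along three conics. -/
def Branch {Ω : Type} [Field Ω] (n : ℕ) (f g h : MvPolynomial (Fin 2) Ω) (a b c : ℕ) : Prop :=
  (h = 1 ∧ ∃ d d' : ℕ, f.totalDegree ≤ d ∧ g.totalDegree ≤ d' ∧ d + d' ≤ 5 ∧
    n ∣ a * d + b * d') ∨
  (f.totalDegree ≤ 2 ∧ g.totalDegree ≤ 2 ∧ h.totalDegree ≤ 2 ∧ n ∣ a + b + c)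

theorem Branch.of_dvd {Ω : Type} [Field Ω] {n m : ℕ} {f g h : MvPolynomial (Fin 2) Ω}
    {a b c : ℕ} (H : Branch n f g h a b c) (hm : m ∣ n) : Branch m f g h a b c := by
  rcases H with ⟨h1, d, d', h2, h3, h4, h5⟩ | ⟨h1, h2, h3, h4⟩
  · exact Or.inl ⟨h1, d, d', h2, h3, h4, hm.trans h5⟩
  · exact Or.inr ⟨h1, h2, h3, hm.trans h4⟩

/-- a quartic -/
theorem input_quartic {Ω L : Type} [Field Ω] [IsAlgClosed Ω] [Field L] (T : BaseTheory Ω L)
    {n : ℕ} (hn : 0 < n) (hn' : (n : Ω) ≠ 0) {K : Type} [Field K] [Algebra Ω K] (x y w : K)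
    (hK : adjoin Ω {x, y, w} = ⊤) (hdeg : Module.finrank (adjoin Ω {x, y}) K = n) (hw0 : w ≠ 0)
    (f : MvPolynomial (Fin 2) Ω) (hf : f.totalDegree ≤ 4)
    (hw : w ^ n = MvPolynomial.aeval ![x, y] f) : Input T n x y w := by
  obtain ⟨c, hc⟩ := exists_Fv f hf
  refine ⟨hK, hdeg, by rw [hw]; exact aeval_mem75 x y f, Or.inr ⟨hw0, 1, 1, by simp, ?_, ?_⟩⟩
  · intro N _ _ g v s hv hs
    refine uni_field c hn (g x) (g y) v s ?_ ?_
    · intro h
      exact hv (h.tower_top _)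
    · have h1 := map_aeval75 g x y f
      rw [hc N (g x) (g y)] at h1
      rw [pow_one, pow_one, ← map_pow, hw, h1] at hs
      exact hs
  · intro ζ σ hζ h1 h2 h3 ξ t _ hξ ht
    have hξ2 : ξ ^ 2 = 1 := by
      rcases hξ with h | h | h
      · rw [pow_one] at h
        rw [h, one_pow]
      · rw [pow_one] at h
        rw [h, one_pow]
      · exact h
    refine eigen_zero T f hf hn hn' hζ x y w hK hw0 hw σ ⟨h1, h2, h3⟩ t ?_
    rw [ht, map_smul, ht, smul_smul, ← pow_two, hξ2, one_smul]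

/-- from the normal forms to the input -/
theorem input_of_form {Ω L : Type} [Field Ω] [IsAlgClosed Ω] [Field L] (T : BaseTheory Ω L)
    {n : ℕ} (hn : 0 < n) (hn' : (n : Ω) ≠ 0) {K : Type} [Field K] [Algebra Ω K] (S : Set K)
    (x y w : K) (hxS : x ∈ Subfield.closure S) (hyS : y ∈ Subfield.closure S)
    (hK : adjoin Ω {x, y, w} = ⊤) (hdeg : Module.finrank (adjoin Ω {x, y}) K = n) (hw0 : w ≠ 0)
    (h : Form (Ω := Ω) S n x y w) :
    ∃ x' ∈ Subfield.closure S, ∃ y' ∈ Subfield.closure S, Input T n x' y' w := by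
  have hx : x ∈ adjoin Ω {x, y} := subset_adjoin _ _ (by simp)
  have hy : y ∈ adjoin Ω {x, y} := subset_adjoin _ _ (by simp)
  rcases h with ⟨f, l, hf, hl, hlS, hl0, hw⟩ | ⟨f, g, hf, hg, hg0, hw⟩ | ⟨h5, f, hf, hw⟩ |
    ⟨f, g, hf, hg, hg0, hw⟩ | ⟨f, g, h, a, b, c, hf, hg, hh, hf0, hg0, hh0, hd, hw⟩
  · obtain ⟨x', hx', y', hy', hM, g, hg, hw'⟩ := change_line f l hf hl x y w S hxS hyS hlS hl0 hw
    have h1 : adjoin Ω {x', y'} = adjoin Ω {x, y} := by
      have hmem : ∀ (M : IntermediateField Ω K) (a b : K),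
          adjoin Ω {a, b} ≤ M ↔ (a ∈ M ∧ b ∈ M) := by
        intro M a b
        rw [adjoin_le_iff, Set.insert_subset_iff, Set.singleton_subset_iff]
        rfl
      apply le_antisymm
      · rw [hmem, hM]
        exact ⟨hx, hy⟩
      · rw [hmem, ← hM]
        exact ⟨subset_adjoin _ _ (by simp), subset_adjoin _ _ (by simp)⟩
    have h2 : adjoin Ω {x', y', w} = ⊤ := by
      have h3 := (hM (adjoin Ω {x', y', w})).1
        ⟨subset_adjoin _ _ (by simp), subset_adjoin _ _ (by simp)⟩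
      rw [eq_top_iff, ← hK, adjoin_le_iff]
      rintro s (rfl | rfl | rfl)
      · exact h3.1
      · exact h3.2
      · exact subset_adjoin _ _ (by simp)
    exact ⟨x', hx', y', hy', input_quartic T hn hn' x' y' w h2 (by rw [h1]; exact hdeg) hw0 g hg
      hw'⟩
  · refine ⟨x, hxS, y, hyS, hK, hdeg, ?_, Or.inr ⟨hw0, 1, 2, by simp, ?_, ?_⟩⟩
    · have h1 : w ^ n = val f x y ^ 2 * (val g x y ^ 3)⁻¹ := by
        rw [← hw]
        field_simp
      rw [h1]
      exact mul_mem (pow_mem (val_mem f _ hx hy) _) (inv_mem (pow_mem (val_mem g _ hx hy) _))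
    · exact fun N _ _ ι v s hv hs => huni_B f g hf hg hn x y w hw0 hg0 hw N ι v s hv hs
    · exact fun ζ σ hζ h1 h2 h3 ξ t hξ hξ' ht => hexc_B T f g hf hg hn hn' x y w hK hw0 hg0 hw
        ζ σ hζ h1 h2 h3 ξ t hξ hξ' ht
  · subst h5
    have hwF : w ^ 5 ∈ adjoin Ω {x, y} := by
      rw [hw]
      exact val_mem f _ hx hy
    refine ⟨x, hxS, y, hyS, hK, hdeg, hwF, Or.inr ⟨hw0, 1, 1, by simp, ?_, ?_⟩⟩
    · exact fun N _ _ ι v s hv hs => huni_C f hf x y w hw N ι v s hv hs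
    · exact fun ζ σ hζ h1 h2 h3 ξ t hξ hξ' ht => hexc_C T hn (by norm_num) hn' x y w hK hw0 hwF
        ζ σ hζ h1 h2 h3 ξ t hξ hξ' ht
  · refine ⟨x, hxS, y, hyS, hK, hdeg, ?_, Or.inl ?_⟩
    · have h1 : w ^ n = val f x y * (val g x y)⁻¹ := by
        rw [← hw]
        field_simp
      rw [h1]
      exact mul_mem (val_mem f _ hx hy) (inv_mem (val_mem g _ hx hy))
    · exact uniruled_of_gen hK (uni_pencil f g hf hg hn x y w hg0 hw)
  · have hwF : w ^ n ∈ adjoin Ω {x, y} := by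
      rw [hw]
      exact mul_mem (mul_mem (pow_mem (val_mem f _ hx hy) _) (pow_mem (val_mem g _ hx hy) _))
        (pow_mem (val_mem h _ hx hy) _)
    have hco : (a.gcd b).Coprime n := by
      have hda : (a.gcd b).gcd n ∣ a := (Nat.gcd_dvd_left _ _).trans (Nat.gcd_dvd_left _ _)
      have hdb : (a.gcd b).gcd n ∣ b := (Nat.gcd_dvd_left _ _).trans (Nat.gcd_dvd_right _ _)
      have hdn : (a.gcd b).gcd n ∣ n := Nat.gcd_dvd_right _ _
      have hdc : (a.gcd b).gcd n ∣ c :=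
        (Nat.dvd_add_right (dvd_add hda hdb)).1 (hdn.trans hd)
      obtain ⟨a', ha'⟩ := hda
      obtain ⟨b', hb'⟩ := hdb
      obtain ⟨c', hc'⟩ := hdc
      refine coprime_of hn x y w hK hdeg hdn (val f x y ^ a' * val g x y ^ b' * val h x y ^ c')
        (mul_mem (mul_mem (pow_mem (val_mem f _ hx hy) _) (pow_mem (val_mem g _ hx hy) _))
        (pow_mem (val_mem h _ hx hy) _)) hw0 ?_
      rw [hw, mul_pow, mul_pow, ← pow_mul, ← pow_mul, ← pow_mul, mul_comm a', mul_comm b',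
        mul_comm c', ← ha', ← hb', ← hc']
    refine ⟨x, hxS, y, hyS, hK, hdeg, hwF, Or.inr ⟨hw0, a, b, hco, ?_, ?_⟩⟩
    · exact fun N _ _ ι v s hv hs => huni_N f g h hf hg hh hn hd x y w hf0 hg0 hh0 hw N ι v s hv hs
    · exact fun ζ σ hζ h1 h2 h3 ξ t hξ hξ' ht => hexc_N T f g h hf hg hh hn hn' hd x y w hK
        hf0 hg0 hh0 hw ζ σ hζ h1 h2 h3 ξ t hξ hξ' ht

/-- **The target.** The criterion holds for new generators in the field generated over the prime
field by `x, y, w` and the values of the polynomials. -/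
theorem target {Ω L : Type} [Field Ω] [IsAlgClosed Ω] [Field L] (T : BaseTheory Ω L)
    {n : ℕ} (hn : 0 < n) (hn' : (n : Ω) ≠ 0) {K : Type} [Field K] [Algebra Ω K]
    (x y w : K) (hK : adjoin Ω {x, y, w} = ⊤)
    (hdeg : Module.finrank (adjoin Ω {x, y}) K = n) (f g h : MvPolynomial (Fin 2) Ω)
    (a b c : ℕ) (H : Branch n f g h a b c)
    (hw : w ^ n = val f x y ^ a * val g x y ^ b * val h x y ^ c) (S : Set K)
    (hxS : x ∈ S) (hyS : y ∈ S) (hwS : w ∈ S) (hfS : val f x y ∈ S) (hgS : val g x y ∈ S) :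
    ∃ x' ∈ Subfield.closure S, ∃ y' ∈ Subfield.closure S, ∃ w' ∈ Subfield.closure S,
      Input T n x' y' w' := by
  have hx : x ∈ adjoin Ω {x, y} := subset_adjoin _ _ (by simp)
  have hy : y ∈ adjoin Ω {x, y} := subset_adjoin _ _ (by simp)
  have cxS := Subfield.subset_closure hxS
  have cyS := Subfield.subset_closure hyS
  have cwS := Subfield.subset_closure hwS
  have hwF : w ^ n ∈ adjoin Ω {x, y} := by
    rw [hw]
    exact mul_mem (mul_mem (pow_mem (val_mem f _ hx hy) _) (pow_mem (val_mem g _ hx hy) _))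
      (pow_mem (val_mem h _ hx hy) _)
  by_cases hw0 : w = 0
  · refine ⟨x, cxS, y, cyS, w, cwS, hK, hdeg, hwF, Or.inl (uniruled_of_gen hK ?_)⟩
    refine uni_plane75 x y w ?_
    rw [hw0]
    exact zero_mem _
  rcases Nat.lt_or_ge 1 n with h1n | h1n
  · rcases H with ⟨h1, d, d', h2, h3, h4, h5⟩ | ⟨h1, h2, h3, h4⟩
    · rw [h1, val_one', one_pow, mul_one] at hw
      obtain ⟨w', hw'S, hw', hK', hN⟩ := red_two h1n x y w hK hdeg hw0 S hwS f g hfS hgS d d' a b
        h2 h3 h4 h5 hw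
      obtain ⟨x', hx', y', hy', hI⟩ := input_of_form T hn hn' S x y w' cxS cyS hK' hdeg hw' hN
      exact ⟨x', hx', y', hy', w', hw'S, hI⟩
    · obtain ⟨x', hx', y', hy', hI⟩ := input_of_form T hn hn' S x y w cxS cyS hK hdeg hw0
        (red_three x y w hw0 S f g h a b c h1 h2 h3 h4 hw)
      exact ⟨x', hx', y', hy', w, cwS, hI⟩
  · have h1' : n = 1 := by omega
    refine ⟨x, cxS, y, cyS, w, cwS, hK, hdeg, hwF, Or.inl (uniruled_of_gen hK ?_)⟩
    refine uni_plane75 x y w ?_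
    rw [h1', pow_one] at hwF
    exact hwF

end Pool.Agent.Helper35.TD
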