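import Pool.Agent.Helper35.TD.Tame
import Pool.Agent.Helper35.TD.Insep
import Pool.Agent.Helper75.TC.Data

/-! The interface of the three projects TC (MP_1fe969_ag, Frobenius), TD (MP_8abef2_ag, Tate
classes), QM (MP_b8862a_ag, motivic group): the geometric input of the criterion for a cyclic cover
`w ^ n ∈ Ω(x, y)`, without Frobenius, without a Galois action, in every characteristic.

The generators `x, y, w` may be replaced by others in the field generated over the prime field by
`x, y, w` and the values of the polynomials: a ring homomorphism which raises the first ones to the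
power `q` (`q = p ^ e`, or `q = 1`) raises the new ones to the power `q` (`pow_closure`). -/

set_option autoImplicit false

namespace Pool.Agent.Helper35.TD

open IntermediateField Pool.Agent.Helper75.QC

/-- The geometric input of the criterion. -/
structure Input {Ω L : Type} [Field Ω] [Field L] (T : BaseTheory Ω L) (n : ℕ) {K : Type}
    [Field K] [Algebra Ω K] (x y w : K) : Prop where
  gen : adjoin Ω {x, y, w} = ⊤
  deg : Module.finrank (adjoin Ω {x, y}) K = n
  mem : w ^ n ∈ adjoin Ω {x, y}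
  main : Uniruled Ω K 2 ∨ (w ≠ 0 ∧ ∃ α β : ℕ, (α.gcd β).Coprime n ∧
    (∀ (N : Type) [Field N] [Algebra Ω N] (g : K →ₐ[Ω] N) (v s : N),
      Transcendental g.fieldRange v → v ^ α * (1 - v) ^ β = s ^ n * g w ^ n →
      Uniruled Ω (adjoin Ω {g x, g y, v, s} : IntermediateField Ω N) 3) ∧
    (∀ (ζ : Ω) (σ : K →ₐ[Ω] K), IsPrimitiveRoot ζ n → σ x = x → σ y = y →
      σ w = algebraMap Ω K ζ * w → ∀ (ξ : L) (t : T.H 2 K), ξ ^ n = 1 →
      (ξ ^ α = 1 ∨ ξ ^ β = 1 ∨ ξ ^ (α + β) = 1) → T.map 2 σ t = ξ • t → t = 0))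

/-- The elements which are raised to the power `q` by a ring homomorphism form a field. -/
theorem pow_closure {K : Type} [Field K] {q : ℕ} (hq : 0 < q)
    (hadd : ∀ a b : K, (a + b) ^ q = a ^ q + b ^ q) (γ : K →+* K) (S : Set K)
    (hS : ∀ s ∈ S, γ s = s ^ q) : ∀ s ∈ Subfield.closure S, γ s = s ^ q := by
  have hneg : ∀ a : K, (-a) ^ q = -(a ^ q) := by
    intro a
    have h := hadd a (-a)
    rw [add_neg_cancel, zero_pow hq.ne'] at h
    exact (neg_eq_of_add_eq_zero_right h.symm).symm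
  let M : Subfield K :=
    { carrier := {s | γ s = s ^ q}
      mul_mem' := fun {a b} ha hb => by
        change γ (a * b) = (a * b) ^ q
        rw [map_mul, mul_pow, show γ a = a ^ q from ha, show γ b = b ^ q from hb]
      one_mem' := by change γ 1 = 1 ^ q; rw [map_one, one_pow]
      add_mem' := fun {a b} ha hb => by
        change γ (a + b) = (a + b) ^ q
        rw [map_add, hadd, show γ a = a ^ q from ha, show γ b = b ^ q from hb]
      zero_mem' := by change γ 0 = 0 ^ q; rw [map_zero, zero_pow hq.ne']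
      neg_mem' := fun {a} ha => by
        change γ (-a) = (-a) ^ q
        rw [map_neg, hneg, show γ a = a ^ q from ha]
      inv_mem' := fun a ha => by
        change γ a⁻¹ = a⁻¹ ^ q
        rw [map_inv₀, inv_pow, show γ a = a ^ q from ha] }
  exact fun s hs => (Subfield.closure_le (t := M)).2 hS hs

/-- the elements which are fixed -/
theorem fix_closure {K : Type} [Field K] (γ : K →+* K) (S : Set K) (hS : ∀ s ∈ S, γ s = s) :
    ∀ s ∈ Subfield.closure S, γ s = s := by
  intro s hs
  have h := pow_closure (q := 1) one_pos (fun a b => by rw [pow_one, pow_one, pow_one]) γ S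
    (fun s hs => by rw [hS s hs, pow_one]) s hs
  rw [h, pow_one]

/-- the elements which are raised to the power `p ^ e` -/
theorem frob_closure {p e : ℕ} [Fact p.Prime] {Ω K : Type} [Field Ω] [CharP Ω p] [Field K]
    [Algebra Ω K] (φ : K →ₐ[Ω] K) (S : Set K) (hS : ∀ s ∈ S, φ s = s ^ p ^ e) :
    ∀ s ∈ Subfield.closure S, φ s = s ^ p ^ e := by
  have hK : CharP K p := charP_of_injective_algebraMap (algebraMap Ω K).injective p
  exact pow_closure (pow_pos (Fact.out : p.Prime).pos e) (fun a b => add_pow_char_pow a b p e)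
    (φ : K →+* K) S hS

/-- **Consumer for the Tate classes** (exponent prime to the characteristic) -/
theorem Input.tate {F Ω L : Type} [Field F] [Field Ω] [Algebra F Ω] [IsAlgClosed Ω] [Field L]
    [CharZero L] [IsAlgClosed L] {T : GaloisTheory F Ω L} {n : ℕ} {K : Type} [Field K]
    [Algebra Ω K] {x y w : K} (h : Input T.toBaseTheory n x y w) (hn : 0 < n)
    (hn' : (n : Ω) ≠ 0) (U : Subgroup (Ω ≃ₐ[F] Ω)) (hU : IsOpen (U : Set (Ω ≃ₐ[F] Ω)))
    (γ : (Ω ≃ₐ[F] Ω) → (K →+* K)) (hγ : ∀ τ ∈ U, IsOver (τ : Ω ≃+* Ω) (γ τ))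
    (hfix : ∀ τ ∈ U, γ τ x = x ∧ γ τ y = y ∧ γ τ w = w) (t : T.H 2 K)
    (ht : ∀ τ ∈ U, T.act 2 (γ τ) t = ((T.cyc τ)⁻¹ : Lˣ) • t) : t = 0 := by
  rcases h.main with h1 | ⟨hw0, α, β, h0, h1, h2⟩
  · exact T.uniruled 2 K h1 t
  · exact tame_gen T α β hn hn' h0 x y w h.gen hw0 h.mem h.deg h1 h2 U hU γ hγ hfix t ht

/-- **Consumer for Frobenius** (exponent prime to the characteristic) -/
theorem Input.frob {p : ℕ} [Fact p.Prime] {Ω L : Type} [Field Ω] [CharP Ω p] [IsAlgClosed Ω]
    [Field L] [CharZero L] [IsAlgClosed L] {T : Theory p Ω L} {n e : ℕ} {K : Type} [Field K]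
    [Algebra Ω K] {x y w : K} (h : Input T.toBaseTheory n x y w) (hn : 0 < n)
    (hn' : (n : Ω) ≠ 0) (φ : K →ₐ[Ω] K)
    (hφ : φ x = x ^ p ^ e ∧ φ y = y ^ p ^ e ∧ φ w = w ^ p ^ e) :
    Module.End.IsSemisimple (T.map 2 φ) := by
  rcases h.main with h1 | ⟨hw0, α, β, h0, h1, h2⟩
  · exact Pool.Agent.Helper75.TC.semisimple_of_uniruled T h1 φ
  · exact Pool.Agent.Helper75.QC.tame_gen T α β hn hn' h0 x y w h.gen hw0 h.mem h.deg h1 h2 φ hφ

end Pool.Agent.Helper35.TD
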