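import Pool.Agent.Helper35.TD.Red

/-! Cyclic covers of the plane: the table of the branch curves and the reduction to normal forms
(after helper75 and helper48), without Frobenius. The new generator is in the field generated over
the prime field by `x, y, w` and the values of the polynomials. -/

set_option autoImplicit false

namespace Pool.Agent.Helper35.TD

open IntermediateField Pool.Agent.Helper75.QC Pool.Agent.Helper75.TC

/-- **The table.** `w ^ n = f ^ a * g ^ b * h ^ c` is a cyclic cover of the plane branched along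

* a quartic and a conic (`n ∣ 2 a + b`),
* a cubic and a conic (`n ∣ 3 a + 2 b`),
* three conics (`n ∣ a + b + c`),
* a quintic (`n ∣ 5 a`), or
* a sextic (`n ∣ 3 a`). -/
def Table {Ω : Type} [Field Ω] (n : ℕ) (f g h : MvPolynomial (Fin 2) Ω) (a b c : ℕ) : Prop :=
  (f.totalDegree ≤ 4 ∧ g.totalDegree ≤ 2 ∧ h = 1 ∧ n ∣ 2 * a + b) ∨
  (f.totalDegree ≤ 3 ∧ g.totalDegree ≤ 2 ∧ h = 1 ∧ n ∣ 3 * a + 2 * b) ∨
  (f.totalDegree ≤ 2 ∧ g.totalDegree ≤ 2 ∧ h.totalDegree ≤ 2 ∧ n ∣ a + b + c) ∨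
  (f.totalDegree ≤ 5 ∧ g = 1 ∧ h = 1 ∧ n ∣ 5 * a) ∨
  (f.totalDegree ≤ 6 ∧ g = 1 ∧ h = 1 ∧ n ∣ 3 * a)

theorem Table.of_dvd {Ω : Type} [Field Ω] {n m : ℕ} {f g h : MvPolynomial (Fin 2) Ω}
    {a b c : ℕ} (H : Table n f g h a b c) (hm : m ∣ n) : Table m f g h a b c := by
  rcases H with ⟨h1, h2, h3, h4⟩ | ⟨h1, h2, h3, h4⟩ | ⟨h1, h2, h3, h4⟩ | ⟨h1, h2, h3, h4⟩ |
    ⟨h1, h2, h3, h4⟩
  · exact Or.inl ⟨h1, h2, h3, hm.trans h4⟩
  · exact Or.inr (Or.inl ⟨h1, h2, h3, hm.trans h4⟩)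
  · exact Or.inr (Or.inr (Or.inl ⟨h1, h2, h3, hm.trans h4⟩))
  · exact Or.inr (Or.inr (Or.inr (Or.inl ⟨h1, h2, h3, hm.trans h4⟩)))
  · exact Or.inr (Or.inr (Or.inr (Or.inr ⟨h1, h2, h3, hm.trans h4⟩)))

theorem Table.map {Ω : Type} [Field Ω] {n : ℕ} {f g h : MvPolynomial (Fin 2) Ω} {a b c : ℕ}
    (H : Table n f g h a b c) (φ : Ω →+* Ω) : Table n (f.map φ) (g.map φ) (h.map φ) a b c := by
  have hd : ∀ f : MvPolynomial (Fin 2) Ω, (f.map φ).totalDegree ≤ f.totalDegree := by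
    intro f
    rw [MvPolynomial.totalDegree, MvPolynomial.totalDegree]
    exact Finset.sup_mono (MvPolynomial.support_map_subset _ _)
  rcases H with ⟨h1, h2, h3, h4⟩ | ⟨h1, h2, h3, h4⟩ | ⟨h1, h2, h3, h4⟩ | ⟨h1, h2, h3, h4⟩ |
    ⟨h1, h2, h3, h4⟩
  · exact Or.inl ⟨(hd f).trans h1, (hd g).trans h2, by rw [h3, map_one], h4⟩
  · exact Or.inr (Or.inl ⟨(hd f).trans h1, (hd g).trans h2, by rw [h3, map_one], h4⟩)
  · exact Or.inr (Or.inr (Or.inl ⟨(hd f).trans h1, (hd g).trans h2, (hd h).trans h3, h4⟩))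
  · exact Or.inr (Or.inr (Or.inr (Or.inl ⟨(hd f).trans h1, by rw [h2, map_one],
      by rw [h3, map_one], h4⟩)))
  · exact Or.inr (Or.inr (Or.inr (Or.inr ⟨(hd f).trans h1, by rw [h2, map_one],
      by rw [h3, map_one], h4⟩)))

/-- The normal forms of `w`. -/
inductive NForm {Ω K : Type} [Field Ω] [Field K] [Algebra Ω K] (n : ℕ) (x y w : K) : Prop
  /-- a quartic and a conic -/
  | A (f g : MvPolynomial (Fin 2) Ω) (hf : f.totalDegree ≤ 4) (hg : g.totalDegree ≤ 2)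
      (hg0 : val g x y ≠ 0) (hw : w ^ n * val g x y ^ 2 = val f x y)
  /-- a cubic and a conic -/
  | B (f g : MvPolynomial (Fin 2) Ω) (hf : f.totalDegree ≤ 3) (hg : g.totalDegree ≤ 2)
      (hg0 : val g x y ≠ 0) (hw : w ^ n * val g x y ^ 3 = val f x y ^ 2)
  /-- three conics -/
  | N (f g h : MvPolynomial (Fin 2) Ω) (a b c : ℕ) (hf : f.totalDegree ≤ 2)
      (hg : g.totalDegree ≤ 2) (hh : h.totalDegree ≤ 2) (hf0 : val f x y ≠ 0)
      (hg0 : val g x y ≠ 0) (hh0 : val h x y ≠ 0) (hn : n ∣ a + b + c)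
      (hw : w ^ n = val f x y ^ a * val g x y ^ b * val h x y ^ c)
  /-- a quintic -/
  | C (hn : n = 5) (f : MvPolynomial (Fin 2) Ω) (hf : f.totalDegree ≤ 5)
      (hw : w ^ n = val f x y)
  /-- a sextic -/
  | D (hn : n = 3) (f : MvPolynomial (Fin 2) Ω) (hf : f.totalDegree ≤ 6)
      (hw : w ^ n = val f x y)

/-- one curve: `w ^ n = f ^ a`, `n ∣ p a`, `p` prime -/
theorem red_prime {Ω K : Type} [Field Ω] [IsAlgClosed Ω] [Field K] [Algebra Ω K] {n : ℕ}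
    (hn : 1 < n) (x y w : K) (hK : adjoin Ω {x, y, w} = ⊤)
    (hdeg : Module.finrank (adjoin Ω {x, y}) K = n) (hw0 : w ≠ 0) (S : Set K)
    (hwS : w ∈ Subfield.closure S) (f : MvPolynomial (Fin 2) Ω) (hf0 : val f x y ≠ 0)
    (hfS : val f x y ∈ Subfield.closure S) (p a : ℕ) (hp : p.Prime)
    (ha : n ∣ p * a) (hw : w ^ n = val f x y ^ a) :
    n = p ∧ ∃ w' ∈ Subfield.closure S, w' ≠ 0 ∧ adjoin Ω {x, y, w'} = ⊤ ∧ w' ^ n = val f x y := by
  have hx : x ∈ adjoin Ω {x, y} := subset_adjoin _ _ (by simp)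
  have hy : y ∈ adjoin Ω {x, y} := subset_adjoin _ _ (by simp)
  have hFm : val f x y ∈ adjoin Ω {x, y} := val_mem f _ hx hy
  have hwF : w ^ n ∈ adjoin Ω {x, y} := by
    rw [hw]
    exact pow_mem hFm _
  have hco : Nat.Coprime a n := by
    obtain ⟨a', ha'⟩ := Nat.gcd_dvd_left a n
    refine coprime_of (by omega) x y w hK hdeg (Nat.gcd_dvd_right a n)
      (val f x y ^ a') (pow_mem hFm _) hw0 ?_
    rw [hw, ← pow_mul, mul_comm a', ← ha']
  obtain ⟨k, hk⟩ := Nat.exists_mul_mod_eq_one_of_coprime hco hn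
  have hk1 : a * k ≡ 1 [MOD n] := by
    rw [Nat.ModEq, hk.2, Nat.mod_eq_of_lt hn]
  obtain ⟨t, ht⟩ : ∃ t : ℕ, a * k = 1 + n * t := by
    have h4 : 1 ≤ a * k := by
      rcases Nat.eq_zero_or_pos (a * k) with h5 | h5
      · rw [h5, Nat.zero_mod] at hk
        exact absurd hk.2 zero_ne_one
      · exact h5
    have h6 : n ∣ a * k - 1 := (Nat.modEq_iff_dvd' h4).1 hk1.symm
    obtain ⟨t, ht⟩ := h6
    exact ⟨t, by omega⟩
  have hA0 : (val f x y ^ t)⁻¹ ≠ 0 := inv_ne_zero (pow_ne_zero _ hf0)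
  have hC : Cover 1 n x y w (AlgHom.id Ω K) :=
    ⟨hK, hdeg, (pow_one _).symm, (pow_one _).symm, (pow_one _).symm⟩
  have hC' := change (q := 1) (c := k) (c' := a) hn (by rw [mul_comm]; exact hk1) x y w
    ((val f x y ^ t)⁻¹) (AlgHom.id Ω K) hC hwF hw0 (inv_mem (pow_mem hFm _)) hA0
    (pow_one _).symm
  have hw' : (w ^ k * (val f x y ^ t)⁻¹) ^ n = val f x y := by
    have h4 : (w ^ k) ^ n = val f x y * (val f x y ^ t) ^ n := by
      rw [← pow_mul, mul_comm k, pow_mul, hw, ← pow_mul, ht, ← pow_mul,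
        pow_add, pow_one, mul_comm n t]
    rw [mul_pow, h4, inv_pow]
    have h5 : (val f x y ^ t) ^ n ≠ 0 := pow_ne_zero _ (pow_ne_zero _ hf0)
    field_simp
  refine ⟨?_, w ^ k * (val f x y ^ t)⁻¹, mul_mem (pow_mem hwS _) (inv_mem (pow_mem hfS _)),
    mul_ne_zero (pow_ne_zero _ hw0) hA0, hC'.gen, hw'⟩
  have h7 : n ∣ p := hco.symm.dvd_of_dvd_mul_right ha
  rcases (Nat.dvd_prime hp).1 h7 with h9 | h9
  · omega
  · exact h9

/-- **The reduction.** -/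
theorem red_table {Ω K : Type} [Field Ω] [IsAlgClosed Ω] [Field K] [Algebra Ω K] {n : ℕ}
    (hn : 1 < n) (x y w : K) (hK : adjoin Ω {x, y, w} = ⊤)
    (hdeg : Module.finrank (adjoin Ω {x, y}) K = n) (hw0 : w ≠ 0) (S : Set K)
    (hwS : w ∈ S) (f g h : MvPolynomial (Fin 2) Ω) (hfS : val f x y ∈ S) (hgS : val g x y ∈ S)
    (a b c : ℕ) (H : Table n f g h a b c)
    (hw : w ^ n = val f x y ^ a * val g x y ^ b * val h x y ^ c) :
    ∃ w' ∈ Subfield.closure S, w' ≠ 0 ∧ adjoin Ω {x, y, w'} = ⊤ ∧ NForm (Ω := Ω) n x y w' := by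
  have hx : x ∈ adjoin Ω {x, y} := subset_adjoin _ _ (by simp)
  have hy : y ∈ adjoin Ω {x, y} := subset_adjoin _ _ (by simp)
  have hn0 : 0 < n := by omega
  have cwS : w ∈ Subfield.closure S := Subfield.subset_closure hwS
  have hne : val f x y ^ a * val g x y ^ b * val h x y ^ c ≠ 0 := by
    rw [← hw]
    exact pow_ne_zero _ hw0
  obtain ⟨f', hf1, hfS', hf0, hfa⟩ := repl' f x y a (left_ne_zero_of_mul (left_ne_zero_of_mul hne))
    S hfS
  obtain ⟨g', hg1, hgS', hg0, hga⟩ := repl' g x y b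
    (right_ne_zero_of_mul (left_ne_zero_of_mul hne)) S hgS
  obtain ⟨h', hh1, -, hh0, hha⟩ := repl' h x y c (right_ne_zero_of_mul hne) {val h x y} rfl
  have hFm : val f' x y ∈ adjoin Ω {x, y} := val_mem f' _ hx hy
  have hGm : val g' x y ∈ adjoin Ω {x, y} := val_mem g' _ hx hy
  -- the general step
  have step : ∀ e1 e2 : ℕ, h = 1 → Nat.Coprime e1 e2 → n ∣ a * e1 + b * e2 →
      ∃ w' ∈ Subfield.closure S, w' ≠ 0 ∧ adjoin Ω {x, y, w'} = ⊤ ∧
        w' ^ n * val g' x y ^ e1 = val f' x y ^ e2 := by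
    intro e1 e2 hh he hde
    have hw1 : w ^ n = val f' x y ^ a * val g' x y ^ b := by
      rw [hw, hfa, hga, hh, val_one', one_pow, mul_one]
    obtain ⟨w', h3, h4, e, k1, k2, h5⟩ := Pool.Agent.Helper48.TC.exists_red_field hK hn0 hdeg
      hFm hGm hf0 hg0 hw1 he hde
    refine ⟨w', ?_, ?_, h4, h3⟩
    · rw [h5]
      exact mul_mem (zpow_mem cwS _) (mul_mem (zpow_mem hfS' _) (zpow_mem hgS' _))
    · rw [h5]
      exact mul_ne_zero (zpow_ne_zero _ hw0) (mul_ne_zero (zpow_ne_zero _ hf0)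
        (zpow_ne_zero _ hg0))
  rcases H with ⟨h1, h2, h3, h4⟩ | ⟨h1, h2, h3, h4⟩ | ⟨h1, h2, h3, h4⟩ | ⟨h1, h2, h3, h4⟩ |
    ⟨h1, h2, h3, h4⟩
  · obtain ⟨w', hw'S, hw'0, hK', hw'⟩ := step 2 1 h3 (by norm_num) (by
      rw [mul_comm a, mul_one]; exact h4)
    exact ⟨w', hw'S, hw'0, hK', NForm.A f' g' (hf1.trans h1) (hg1.trans h2) hg0
      (by rw [hw', pow_one])⟩
  · obtain ⟨w', hw'S, hw'0, hK', hw'⟩ := step 3 2 h3 (by norm_num) (by
      rw [mul_comm a, mul_comm b]; exact h4)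
    exact ⟨w', hw'S, hw'0, hK', NForm.B f' g' (hf1.trans h1) (hg1.trans h2) hg0 hw'⟩
  · exact ⟨w, cwS, hw0, hK, NForm.N f' g' h' a b c (hf1.trans h1) (hg1.trans h2) (hh1.trans h3)
      hf0 hg0 hh0 h4 (by rw [hfa, hga, hha, hw])⟩
  · have hw1 : w ^ n = val f' x y ^ a := by
      rw [hw, hfa, h2, h3, val_one', one_pow, one_pow, mul_one, mul_one]
    obtain ⟨h5, w', hw'S, hw'0, hK', hw'⟩ := red_prime hn x y w hK hdeg hw0 S cwS f' hf0 hfS' 5 a
      (by norm_num) h4 hw1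
    exact ⟨w', hw'S, hw'0, hK', NForm.C h5 f' (hf1.trans h1) hw'⟩
  · have hw1 : w ^ n = val f' x y ^ a := by
      rw [hw, hfa, h2, h3, val_one', one_pow, one_pow, mul_one, mul_one]
    obtain ⟨h5, w', hw'S, hw'0, hK', hw'⟩ := red_prime hn x y w hK hdeg hw0 S cwS f' hf0 hfS' 3 a
      (by norm_num) h4 hw1
    exact ⟨w', hw'S, hw'0, hK', NForm.D h5 f' (hf1.trans h1) hw'⟩

end Pool.Agent.Helper35.TD
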