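import Pool.Agent.Helper35.TD.Input
import Pool.Agent.Helper35.TD.Red2
import Pool.Agent.Helper40.SD.Inp
import Pool.Agent.Helper40.SD.PairUni
import Pool.Agent.Helper15.QM.Pencil

/-! The cyclic covers of the plane in the table satisfy the criterion (`Input`), assembled from the
blocks of helper40, helper48, helper75, helper15, helper33. -/

set_option autoImplicit false

namespace Pool.Agent.Helper35.TD

open IntermediateField Pool.Agent.Helper75.QC Pool.Agent.Helper75.TC Pool.Agent.Helper40.SD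

theorem uniruled_surface {Ω K : Type} [Field Ω] [Field K] [Algebra Ω K] {n : ℕ} (x y w : K)
    (hK : adjoin Ω {x, y, w} = ⊤) (hw : w ∈ adjoin Ω {x, y}) : Uniruled Ω K 2 :=
  uniruled_of_gen hK (uni_plane75 x y w hw)

/-- from the normal forms to the input -/
theorem input_of_nform {Ω L : Type} [Field Ω] [IsAlgClosed Ω] [Field L] (T : BaseTheory Ω L)
    {n : ℕ} (hn : 0 < n) (hn' : (n : Ω) ≠ 0) {K : Type} [Field K] [Algebra Ω K]
    (x y w : K) (hK : adjoin Ω {x, y, w} = ⊤) (hdeg : Module.finrank (adjoin Ω {x, y}) K = n)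
    (hw0 : w ≠ 0) (h : NForm (Ω := Ω) n x y w) : Input T n x y w := by
  have hx : x ∈ adjoin Ω {x, y} := subset_adjoin _ _ (by simp)
  have hy : y ∈ adjoin Ω {x, y} := subset_adjoin _ _ (by simp)
  rcases h with ⟨f, g, hf, hg, hg0, hw⟩ | ⟨f, g, hf, hg, hg0, hw⟩ |
    ⟨f, g, h, a, b, c, hf, hg, hh, hf0, hg0, hh0, hd, hw⟩ | ⟨h5, f, hf, hw⟩ | ⟨h3, f, hf, hw⟩
  · by_cases h2 : (2 : Ω) = 0
    · refine ⟨hK, hdeg, ?_, Or.inr ⟨hw0, 1, 1, by simp, ?_, ?_⟩⟩
      · have h1 : w ^ n = val f x y * (val g x y ^ 2)⁻¹ := by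
          rw [← hw]
          field_simp
        rw [h1]
        exact mul_mem (val_mem f _ hx hy) (inv_mem (pow_mem (val_mem g _ hx hy) _))
      · exact fun N _ _ ι v s _ hs => huni_R1 h2 f g hf hg x y w hg0 hw N ι v s hs
      · exact fun ζ σ hζ h1 h3 h4 ξ t hξ hξ' ht => hexc_R1 T h2 f g hn hn' x y w hK hw0 hg0 hw
          ζ σ hζ h1 h3 h4 ξ t hξ hξ' ht
    · exact Pool.Agent.Helper15.QM.input_pair T h2 f g (Or.inl ⟨hf, hg⟩) hn hn' x y w hK hdeg hg0 hw
  · refine ⟨hK, hdeg, ?_, Or.inr ⟨hw0, 1, 2, by simp, ?_, ?_⟩⟩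
    · have h1 : w ^ n = val f x y ^ 2 * (val g x y ^ 3)⁻¹ := by
        rw [← hw]
        field_simp
      rw [h1]
      exact mul_mem (pow_mem (val_mem f _ hx hy) _) (inv_mem (pow_mem (val_mem g _ hx hy) _))
    · exact fun N _ _ ι v s hv hs => huni_B f g hf hg hn x y w hw0 hg0 hw N ι v s hv hs
    · exact fun ζ σ hζ h1 h2 h3 ξ t hξ hξ' ht => hexc_B T f g hf hg hn hn' x y w hK hw0 hg0 hw
        ζ σ hζ h1 h2 h3 ξ t hξ hξ' ht
  · have hwF : w ^ n ∈ adjoin Ω {x, y} := by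
      rw [hw]
      exact mul_mem (mul_mem (pow_mem (val_mem f _ hx hy) _) (pow_mem (val_mem g _ hx hy) _))
        (pow_mem (val_mem h _ hx hy) _)
    have hco : (a.gcd b).Coprime n := by
      have hda : (a.gcd b).gcd n ∣ a := (Nat.gcd_dvd_left _ _).trans (Nat.gcd_dvd_left _ _)
      have hdb : (a.gcd b).gcd n ∣ b := (Nat.gcd_dvd_left _ _).trans (Nat.gcd_dvd_right _ _)
      have hdn : (a.gcd b).gcd n ∣ n := Nat.gcd_dvd_right _ _
      have hdc : (a.gcd b).gcd n ∣ c :=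
        (Nat.dvd_add_right (dvd_add hda hdb)).1 (hdn.trans hd)
      obtain ⟨a', ha'⟩ := hda
      obtain ⟨b', hb'⟩ := hdb
      obtain ⟨c', hc'⟩ := hdc
      refine coprime_of hn x y w hK hdeg hdn (val f x y ^ a' * val g x y ^ b' * val h x y ^ c')
        (mul_mem (mul_mem (pow_mem (val_mem f _ hx hy) _) (pow_mem (val_mem g _ hx hy) _))
        (pow_mem (val_mem h _ hx hy) _)) hw0 ?_
      rw [hw, mul_pow, mul_pow, ← pow_mul, ← pow_mul, ← pow_mul, mul_comm a', mul_comm b',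
        mul_comm c', ← ha', ← hb', ← hc']
    refine ⟨hK, hdeg, hwF, Or.inr ⟨hw0, a, b, hco, ?_, ?_⟩⟩
    · exact fun N _ _ ι v s hv hs => huni_N f g h hf hg hh hn hd x y w hf0 hg0 hh0 hw N ι v s hv hs
    · exact fun ζ σ hζ h1 h2 h3 ξ t hξ hξ' ht => hexc_N T f g h hf hg hh hn hn' hd x y w hK
        hf0 hg0 hh0 hw ζ σ hζ h1 h2 h3 ξ t hξ hξ' ht
  · subst h5
    have hwF : w ^ 5 ∈ adjoin Ω {x, y} := by
      rw [hw]
      exact val_mem f _ hx hy
    refine ⟨hK, hdeg, hwF, Or.inr ⟨hw0, 1, 1, by simp, ?_, ?_⟩⟩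
    · exact fun N _ _ ι v s hv hs => huni_C f hf x y w hw N ι v s hv hs
    · exact fun ζ σ hζ h1 h2 h3 ξ t hξ hξ' ht => hexc_C T hn (by norm_num) hn' x y w hK hw0 hwF
        ζ σ hζ h1 h2 h3 ξ t hξ hξ' ht
  · subst h3
    have hwF : w ^ 3 ∈ adjoin Ω {x, y} := by
      rw [hw]
      exact val_mem f _ hx hy
    refine ⟨hK, hdeg, hwF, Or.inr ⟨hw0, 1, 1, by simp, ?_, ?_⟩⟩
    · exact fun N _ _ ι v s hv hs => huni_D f hf x y w hw N ι v s hv hs
    · exact fun ζ σ hζ h1 h2 h3 ξ t hξ hξ' ht => hexc_C T hn (by norm_num) hn' x y w hK hw0 hwF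
        ζ σ hζ h1 h2 h3 ξ t hξ hξ' ht

/-- **The target.** The criterion holds for a new generator in the field generated over the prime
field by `x, y, w` and the values of the polynomials. -/
theorem target2 {Ω L : Type} [Field Ω] [IsAlgClosed Ω] [Field L] (T : BaseTheory Ω L)
    {n : ℕ} (hn : 0 < n) (hn' : (n : Ω) ≠ 0) {K : Type} [Field K] [Algebra Ω K]
    (x y w : K) (hK : adjoin Ω {x, y, w} = ⊤)
    (hdeg : Module.finrank (adjoin Ω {x, y}) K = n) (f g h : MvPolynomial (Fin 2) Ω)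
    (a b c : ℕ) (H : Table n f g h a b c)
    (hw : w ^ n = val f x y ^ a * val g x y ^ b * val h x y ^ c) (S : Set K)
    (hwS : w ∈ S) (hfS : val f x y ∈ S) (hgS : val g x y ∈ S) :
    ∃ w' ∈ Subfield.closure S, Input T n x y w' := by
  have hx : x ∈ adjoin Ω {x, y} := subset_adjoin _ _ (by simp)
  have hy : y ∈ adjoin Ω {x, y} := subset_adjoin _ _ (by simp)
  have hwF : w ^ n ∈ adjoin Ω {x, y} := by
    rw [hw]
    exact mul_mem (mul_mem (pow_mem (val_mem f _ hx hy) _) (pow_mem (val_mem g _ hx hy) _))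
      (pow_mem (val_mem h _ hx hy) _)
  by_cases hw0 : w = 0
  · exact ⟨w, Subfield.subset_closure hwS, hK, hdeg, hwF,
      Or.inl (uniruled_surface (n := n) x y w hK (by rw [hw0]; exact zero_mem _))⟩
  rcases Nat.lt_or_ge 1 n with h1n | h1n
  · obtain ⟨w', hw'S, hw', hK', hN⟩ := red_table h1n x y w hK hdeg hw0 S hwS f g h hfS hgS a b c H hw
    exact ⟨w', hw'S, input_of_nform T hn hn' x y w' hK' hdeg hw' hN⟩
  · have h1' : n = 1 := by omega
    refine ⟨w, Subfield.subset_closure hwS, hK, hdeg, hwF,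
      Or.inl (uniruled_surface (n := n) x y w hK ?_)⟩
    rw [h1', pow_one] at hwF
    exact hwF

end Pool.Agent.Helper35.TD
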