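import Pool.Agent.Helper35.TD.Generic
import Pool.Agent.Helper35.TD.Target2

/-! Project TD: no Tate classes at the generic point of the cyclic covers of the plane in the
table. -/

set_option autoImplicit false

namespace Pool.Agent.Helper35.TD

open IntermediateField Pool.Agent.Helper75.QC Pool.Agent.Helper75.TC

/-- `K` is the function field of a cyclic cover of the plane in the table. -/
def IsTableCover (Ω K : Type) [Field Ω] [Field K] [Algebra Ω K] : Prop :=
  ∃ (n : ℕ) (f g h : MvPolynomial (Fin 2) Ω) (a b c : ℕ) (x y w : K), 0 < n ∧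
    Table n f g h a b c ∧ adjoin Ω {x, y, w} = ⊤ ∧
    Module.finrank (adjoin Ω {x, y}) K = n ∧
    w ^ n = MvPolynomial.aeval ![x, y] f ^ a * MvPolynomial.aeval ![x, y] g ^ b *
      MvPolynomial.aeval ![x, y] h ^ c

theorem IsTableCover.fg {Ω K : Type} [Field Ω] [Field K] [Algebra Ω K] (h : IsTableCover Ω K) :
    (⊤ : IntermediateField Ω K).FG := by
  obtain ⟨n, f, g, h, a, b, c, x, y, w, -, -, hK, -⟩ := h
  rw [← hK]
  exact fg_adjoin_of_finite (Set.toFinite _)

theorem IsTower.fg {Ω K : Type} [Field Ω] [Field K] [Algebra Ω K] (h : IsTower Ω K) :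
    (⊤ : IntermediateField Ω K).FG := by
  obtain ⟨n, h, x, y, w, -, -, hK, -⟩ := h
  rw [← hK]
  exact fg_adjoin_of_finite (Set.toFinite _)

theorem IsPairCover.fg {Ω K : Type} [Field Ω] [Field K] [Algebra Ω K] (h : IsPairCover Ω K) :
    (⊤ : IntermediateField Ω K).FG := by
  obtain ⟨n, f, q, x, y, w, -, -, hK, -⟩ := h
  rw [← hK]
  exact fg_adjoin_of_finite (Set.toFinite _)

/-- **No Tate classes at the generic point.** -/
theorem noTate_table {F Ω L : Type} [Field F] [Field Ω] [Algebra F Ω] [Algebra.IsAlgebraic F Ω]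
    [IsAlgClosed Ω] [Field L] [CharZero L] [IsAlgClosed L] (T : GaloisTheory F Ω L) {K : Type}
    [Field K] [Algebra Ω K] (hc : IsTableCover Ω K) : NoTate T K := by
  classical
  intro U hU γ hγ t ht
  obtain ⟨n, f, g, h, a, b, c, x, y, w, hn, H, hK, hdeg, hw⟩ := hc
  obtain ⟨V, hVU, hV, hfix⟩ := fixed_open_set {a : K | ∀ τ ∈ U, γ τ a = a} U hU γ hγ.1
    (fun τ hτ s hs => hs τ hτ) {x, y, w, val f x y, val g x y} (fun k _ => by
      rw [hγ.2]; exact mem_top)
  simp only [Finset.mem_insert, Finset.mem_singleton, forall_eq_or_imp, forall_eq] at hfix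
  have hx : x ∈ adjoin Ω {x, y} := subset_adjoin _ _ (by simp)
  have hy : y ∈ adjoin Ω {x, y} := subset_adjoin _ _ (by simp)
  have hw' : w ^ n = val f x y ^ a * val g x y ^ b * val h x y ^ c := hw
  have hwF : w ^ n ∈ adjoin Ω {x, y} := by
    rw [hw']
    exact mul_mem (mul_mem (pow_mem (val_mem f _ hx hy) _) (pow_mem (val_mem g _ hx hy) _))
      (pow_mem (val_mem h _ hx hy) _)
  refine insep_gen T hn x y w hK hwF hdeg V γ (fun τ hτ => hγ.1 τ (hVU hτ))
    (fun τ hτ => ⟨(hfix τ hτ).1, (hfix τ hτ).2.1, (hfix τ hτ).2.2.1⟩) t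
    (fun τ hτ => ht τ (hVU hτ)) ?_
  intro φ q n' hnn hn0 hcast K1 _ _ j hj x1 y1 w1 hx1 hy1 hw1 htop hdeg1 γ1 hover hcomp t1 ht1
  have hval : ∀ f : MvPolynomial (Fin 2) Ω,
      j (val (f.map (φ.symm : Ω →+* Ω)) x1 y1) = val f x y := by
    intro f
    show j (MvPolynomial.aeval ![x1, y1] _) = MvPolynomial.aeval ![x, y] f
    rw [hom_aeval φ j hj, hx1, hy1]
  have hw2 : w1 ^ n' = val (f.map (φ.symm : Ω →+* Ω)) x1 y1 ^ a *
      val (g.map (φ.symm : Ω →+* Ω)) x1 y1 ^ b * val (h.map (φ.symm : Ω →+* Ω)) x1 y1 ^ c := by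
    apply j.injective
    rw [map_mul, map_mul, map_pow, map_pow, map_pow, map_pow, hval, hval, hval, hw1, ← pow_mul,
      ← hnn, hw']
  obtain ⟨w', hw'', hI⟩ := target2 T.toBaseTheory hn0 hcast x1 y1 w1 htop hdeg1
    (f.map (φ.symm : Ω →+* Ω)) (g.map (φ.symm : Ω →+* Ω)) (h.map (φ.symm : Ω →+* Ω)) a b c
    ((H.of_dvd (Dvd.intro_left q hnn.symm)).map (φ.symm : Ω →+* Ω)) hw2
    {w1, val (f.map (φ.symm : Ω →+* Ω)) x1 y1, val (g.map (φ.symm : Ω →+* Ω)) x1 y1}
    (by simp) (by simp) (by simp)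
  refine hI.tate hn0 hcast V hV γ1 hover (fun τ hτ => ?_) t1 ht1
  obtain ⟨e1, e2, e3, e4, e5⟩ := hfix τ hτ
  refine ⟨?_, ?_, fix_closure (γ1 τ) _ ?_ w' hw''⟩
  · apply j.injective
    rw [hcomp τ hτ, hx1, e1]
  · apply j.injective
    rw [hcomp τ hτ, hy1, e2]
  · intro s hs
    apply j.injective
    rw [hcomp τ hτ s]
    simp only [Set.mem_insert_iff, Set.mem_singleton_iff] at hs
    rcases hs with rfl | rfl | rfl
    · rw [hw1, map_pow, e3]
    · rw [hval, e4]
    · rw [hval, e5]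

end Pool.Agent.Helper35.TD
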