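import Pool.Agent.Helper35.TD.Key

/-! Project TD: the Galois action commutes with the automorphisms of the covering. -/

set_option autoImplicit false

namespace Pool.Agent.Helper35.TD

open IntermediateField Module Pool.Agent.Helper75.QC

/-- two homomorphisms which agree on the constants and on generators are equal -/
theorem ringHom_ext {Ω K K' : Type} [Field Ω] [Field K] [Algebra Ω K] [Field K'] (S : Set K)
    (hS : adjoin Ω S = ⊤) (g h : K →+* K')
    (h0 : ∀ a : Ω, g (algebraMap Ω K a) = h (algebraMap Ω K a)) (H : ∀ s ∈ S, g s = h s) :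
    g = h := by
  let E : IntermediateField Ω K :=
    { carrier := {k | g k = h k}
      mul_mem' := fun {a b} ha hb => by
        change g (a * b) = h (a * b)
        rw [map_mul, map_mul, show g a = h a from ha, show g b = h b from hb]
      one_mem' := by change g 1 = h 1; rw [map_one, map_one]
      add_mem' := fun {a b} ha hb => by
        change g (a + b) = h (a + b)
        rw [map_add, map_add, show g a = h a from ha, show g b = h b from hb]
      zero_mem' := by change g 0 = h 0; rw [map_zero, map_zero]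
      algebraMap_mem' := h0
      inv_mem' := fun a ha => by
        change g a⁻¹ = h a⁻¹
        rw [map_inv₀, map_inv₀, show g a = h a from ha] }
  have h1 : (⊤ : IntermediateField Ω K) ≤ E := by
    rw [← hS, adjoin_le_iff]
    exact H
  exact RingHom.ext fun k => h1 (mem_top (x := k))

/-- a form from generators which are fixed -/
theorem isForm_of_gens {F Ω K : Type} [Field F] [Field Ω] [Algebra F Ω] [Field K] [Algebra Ω K]
    {U : Subgroup (Ω ≃ₐ[F] Ω)} {γ : (Ω ≃ₐ[F] Ω) → (K →+* K)}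
    (h : ∀ τ ∈ U, IsOver (τ : Ω ≃+* Ω) (γ τ)) (S : Set K) (hS : adjoin Ω S = ⊤)
    (hf : ∀ τ ∈ U, ∀ s ∈ S, γ τ s = s) : IsForm U γ := by
  refine ⟨h, ?_⟩
  rw [eq_top_iff, ← hS]
  exact adjoin.mono _ _ _ fun s hs τ hτ => hf τ hτ s hs

/-- the Galois action commutes with the automorphisms of the covering -/
theorem GaloisTheory.act_comm {F Ω L : Type} [Field F] [Field Ω] [Algebra F Ω] [Field L]
    (T : GaloisTheory F Ω L) (i : ℕ) {K : Type} [Field K] [Algebra Ω K] (S : Set K)
    (hS : adjoin Ω S = ⊤) (τ : Ω ≃+* Ω) (γ : K →+* K) (hγ : IsOver τ γ) (σ : K →ₐ[Ω] K)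
    (h : ∀ s ∈ S, γ (σ s) = σ (γ s)) (t : T.H i K) :
    T.act i γ (T.map i σ t) = T.map i σ (T.act i γ t) := by
  have hσ : IsOver (RingEquiv.refl Ω) (σ : K →+* K) := fun a => σ.commutes a
  have h1 : γ.comp (σ : K →+* K) = (σ : K →+* K).comp γ := by
    refine ringHom_ext S hS _ _ (fun a => ?_) h
    change γ (σ (algebraMap Ω K a)) = σ (γ (algebraMap Ω K a))
    rw [σ.commutes, hγ, σ.commutes]
  have h2 := LinearMap.congr_fun (T.act_comp i τ (RingEquiv.refl Ω) γ (σ : K →+* K) hγ hσ) t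
  have h3 := LinearMap.congr_fun (T.act_comp i (RingEquiv.refl Ω) τ (σ : K →+* K) γ hσ hγ) t
  rw [h1, h3, LinearMap.comp_apply, LinearMap.comp_apply, T.act_map] at h2
  exact h2.symm

/-- an open subgroup fixes a given algebraic element -/
theorem exists_open {F Ω : Type} [Field F] [Field Ω] [Algebra F Ω] (U : Subgroup (Ω ≃ₐ[F] Ω))
    (hU : IsOpen (U : Set (Ω ≃ₐ[F] Ω))) (ζ : Ω) (hζ : IsIntegral F ζ) :
    ∃ V : Subgroup (Ω ≃ₐ[F] Ω), V ≤ U ∧ IsOpen (V : Set (Ω ≃ₐ[F] Ω)) ∧ ∀ τ ∈ V, τ ζ = ζ := by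
  have : FiniteDimensional F F⟮ζ⟯ := adjoin.finiteDimensional hζ
  have h1 : IsOpen ((F⟮ζ⟯).fixingSubgroup : Set (Ω ≃ₐ[F] Ω)) := fixingSubgroup_isOpen _
  refine ⟨U ⊓ (F⟮ζ⟯).fixingSubgroup, inf_le_left, hU.inter h1, fun τ hτ => ?_⟩
  exact (mem_fixingSubgroup_iff _ _).1 hτ.2 ζ (mem_adjoin_simple_self F ζ)

/-- a common eigenvector: if there is a nonzero Tate class, then there is one which is an
eigenvector of `σ` -/
theorem exists_eigen {L V I : Type} [Field L] [IsAlgClosed L] [AddCommGroup V] [Module L V]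
    [FiniteDimensional L V] (a : I → V →ₗ[L] V) (c : I → L) (σ : V →ₗ[L] V)
    (h : ∀ i t, a i (σ t) = σ (a i t)) (t : V) (ht : ∀ i, a i t = c i • t) (h0 : t ≠ 0) :
    ∃ (s : V) (ξ : L), s ≠ 0 ∧ (∀ i, a i s = c i • s) ∧ σ s = ξ • s := by
  let P : Submodule L V :=
    { carrier := {t | ∀ i, a i t = c i • t}
      add_mem' := fun {x y} hx hy i => by rw [map_add, hx i, hy i, smul_add]
      zero_mem' := fun i => by rw [map_zero, smul_zero]
      smul_mem' := fun r x hx i => by rw [map_smul, hx i, smul_comm] }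
  have hP : ∀ x ∈ P, σ x ∈ P := fun x hx i => by rw [h, hx i, map_smul]
  have : Nontrivial P := ⟨⟨⟨t, ht⟩, 0, fun h => h0 (congrArg Subtype.val h)⟩⟩
  obtain ⟨ξ, hξ⟩ := Module.End.exists_eigenvalue (K := L) (V := P) (σ.restrict hP)
  obtain ⟨s, hs⟩ := hξ.exists_hasEigenvector
  refine ⟨s, ξ, fun h => hs.2 (Subtype.ext h), s.2, ?_⟩
  exact congrArg Subtype.val hs.apply_eq_smul

end Pool.Agent.Helper35.TD
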