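import Pool.Agent.Helper35.TD.Tame

/-! Project TD: the Tate conjecture for divisors on the surfaces `w ^ n = f(x, y)`, `deg f ≤ 4`. -/

set_option autoImplicit false

namespace Pool.Agent.Helper35.TD

open IntermediateField Pool.Agent.Helper75.QC

/-- `V` is the second cohomology of a smooth projective surface `X` over the field of the elements
of `Ω` fixed by `U`, and `K` is the function field of `X` over `Ω`: `ρ` is the Galois action on `V`,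
`r` the restriction to the generic point, and `NS` the span of the classes of the curves, that is
the kernel of `r`. -/
structure IsH2 {F Ω L : Type} [Field F] [Field Ω] [Algebra F Ω] [Field L] (T : GaloisTheory F Ω L)
    {K : Type} [Field K] [Algebra Ω K] (U : Subgroup (Ω ≃ₐ[F] Ω)) (γ : (Ω ≃ₐ[F] Ω) → (K →+* K))
    {V : Type} [AddCommGroup V] [Module L V] (ρ : (Ω ≃ₐ[F] Ω) → Module.End L V)
    (r : V →ₗ[L] T.H 2 K) (NS : Submodule L V) : Prop where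
  comm : ∀ τ ∈ U, ∀ v, r (ρ τ v) = T.act 2 (γ τ) (r v)
  ker : LinearMap.ker r = NS

/-- `v` is a Tate class: an open subgroup acts on `v` by the inverse of the cyclotomic character -/
def IsTateClass {F Ω L : Type} [Field F] [Field Ω] [Algebra F Ω] [Field L]
    (T : GaloisTheory F Ω L) {V : Type} [AddCommGroup V] [Module L V]
    (ρ : (Ω ≃ₐ[F] Ω) → Module.End L V) (v : V) : Prop :=
  ∃ U : Subgroup (Ω ≃ₐ[F] Ω), IsOpen (U : Set (Ω ≃ₐ[F] Ω)) ∧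
    ∀ τ ∈ U, ρ τ v = ((T.cyc τ)⁻¹ : Lˣ) • v

/-- A class which vanishes on a surface which dominates the given one -/
theorem dominated {F Ω L : Type} [Field F] [Field Ω] [Algebra F Ω] [Field L]
    (T : GaloisTheory F Ω L) {K K₀ : Type} [Field K] [Algebra Ω K] [Field K₀] [Algebra Ω K₀]
    (h : K₀ →ₐ[Ω] K) (halg : ∀ a : K, IsAlgebraic h.fieldRange a) (U : Subgroup (Ω ≃ₐ[F] Ω))
    (hU : IsOpen (U : Set (Ω ≃ₐ[F] Ω))) (γ : (Ω ≃ₐ[F] Ω) → (K →+* K))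
    (hγ : ∀ τ ∈ U, IsOver (τ : Ω ≃+* Ω) (γ τ)) (γ₀ : (Ω ≃ₐ[F] Ω) → (K₀ →+* K₀))
    (hγ₀ : ∀ τ ∈ U, ∀ k, h (γ₀ τ k) = γ τ (h k))
    (H : ∀ U' : Subgroup (Ω ≃ₐ[F] Ω), U' ≤ U → IsOpen (U' : Set (Ω ≃ₐ[F] Ω)) →
      ∀ t : T.H 2 K, (∀ τ ∈ U', T.act 2 (γ τ) t = ((T.cyc τ)⁻¹ : Lˣ) • t) → t = 0)
    {V : Type} [AddCommGroup V] [Module L V] (ρ : (Ω ≃ₐ[F] Ω) → Module.End L V)
    (r : V →ₗ[L] T.H 2 K₀) (NS : Submodule L V) (hV : IsH2 T U γ₀ ρ r NS) (v : V)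
    (hv : IsTateClass T ρ v) : v ∈ NS := by
  obtain ⟨U', hU', hv'⟩ := hv
  rw [← hV.ker, LinearMap.mem_ker]
  apply T.inj 2 h halg
  rw [map_zero]
  refine H (U ⊓ U') inf_le_left (hU.inter hU') _ fun τ hτ => ?_
  have hover : IsOver (τ : Ω ≃+* Ω) (γ₀ τ) := by
    intro a
    apply (h : K₀ →+* K).injective
    show h (γ₀ τ (algebraMap Ω K₀ a)) = h (algebraMap Ω K₀ (τ a))
    rw [hγ₀ τ hτ.1, h.commutes, h.commutes]
    exact hγ τ hτ.1 a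
  have hid : IsOver (RingEquiv.refl Ω) (h : K₀ →+* K) := fun a => h.commutes a
  have h1 : (γ τ).comp (h : K₀ →+* K) = (h : K₀ →+* K).comp (γ₀ τ) :=
    RingHom.ext fun k => (hγ₀ τ hτ.1 k).symm
  have h2 := LinearMap.congr_fun (T.act_comp 2 (τ : Ω ≃+* Ω) (RingEquiv.refl Ω) (γ τ)
    (h : K₀ →+* K) (hγ τ hτ.1) hid) (r v)
  have h3 := LinearMap.congr_fun (T.act_comp 2 (RingEquiv.refl Ω) (τ : Ω ≃+* Ω)
    (h : K₀ →+* K) (γ₀ τ) hid hover) (r v)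
  rw [h1, h3, LinearMap.comp_apply, LinearMap.comp_apply, T.act_map, ← hV.comm τ hτ.1 v,
    hv' τ hτ.2, Units.smul_def, map_smul, map_smul] at h2
  exact h2.symm

/-- **Main theorem.** -/
theorem main {F Ω L : Type} [Field F] [Field Ω] [Algebra F Ω] [IsAlgClosed Ω] [Field L]
    [CharZero L] [IsAlgClosed L] (T : GaloisTheory F Ω L) (f : MvPolynomial (Fin 2) Ω)
    (hf : f.totalDegree ≤ 4) {n : ℕ} (hn : 0 < n) {K : Type}
    [Field K] [Algebra Ω K] (x y w : K) (hK : adjoin Ω {x, y, w} = ⊤)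
    (hw : w ^ n = MvPolynomial.aeval ![x, y] f)
    (hdeg : Module.finrank (adjoin Ω {x, y}) K = n) (U : Subgroup (Ω ≃ₐ[F] Ω))
    (hU : IsOpen (U : Set (Ω ≃ₐ[F] Ω))) (γ : (Ω ≃ₐ[F] Ω) → (K →+* K))
    (hγ : ∀ τ ∈ U, IsOver (τ : Ω ≃+* Ω) (γ τ) ∧ γ τ x = x ∧ γ τ y = y ∧ γ τ w = w)
    {K₀ : Type} [Field K₀] [Algebra Ω K₀] (h : K₀ →ₐ[Ω] K)
    (halg : ∀ a : K, IsAlgebraic h.fieldRange a) (γ₀ : (Ω ≃ₐ[F] Ω) → (K₀ →+* K₀))
    (hγ₀ : ∀ τ ∈ U, ∀ k, h (γ₀ τ k) = γ τ (h k))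
    {V : Type} [AddCommGroup V] [Module L V] (ρ : (Ω ≃ₐ[F] Ω) → Module.End L V)
    (r : V →ₗ[L] T.H 2 K₀) (NS : Submodule L V) (hV : IsH2 T U γ₀ ρ r NS) (v : V)
    (hv : IsTateClass T ρ v) : v ∈ NS :=
  dominated T h halg U hU γ (fun τ hτ => (hγ τ hτ).1) γ₀ hγ₀ (fun U' hle hU' t ht =>
    no_tate T f hf hn x y w hK hw hdeg U' hU' γ (fun τ hτ => (hγ τ (hle hτ)).1)
      (fun τ hτ => (hγ τ (hle hτ)).2) t ht) ρ r NS hV v hv

end Pool.Agent.Helper35.TD
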