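import Pool.Agent.Helper35.TD.CurveAB

/-! Project TD. The curve `C : u^n = v (1 - v)^β` over `Ω`, its product with `K`, and the
endomorphisms of its function field over the automorphisms of `Ω`. -/

set_option autoImplicit false

namespace Pool.Agent.Helper35.TD

open IntermediateField

theorem exists_curve {Ω : Type} [Field Ω] (β : ℕ) {n : ℕ} (hn : 0 < n) (K : Type) [Field K]
    [Algebra Ω K] :
    ∃ (C N : Type) (_ : Field C) (_ : Algebra Ω C) (_ : Field N) (_ : Algebra Ω N)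
      (v u : C) (a : K →ₐ[Ω] N) (b : C →ₐ[Ω] N),
      Transcendental Ω v ∧ u ^ n = v * (1 - v) ^ β ∧ adjoin Ω {v, u} = ⊤ ∧
      Transcendental a.fieldRange (b v) ∧
      adjoin Ω (Set.range a ∪ {b v, b u}) = ⊤ ∧
      (∀ ζ : Ω, ζ ^ n = 1 → ∃ σ : C →ₐ[Ω] C, σ v = v ∧ σ u = algebraMap Ω C ζ * u) ∧
      (∀ τ : Ω ≃+* Ω, ∃ γ : C →+* C, IsOver τ γ ∧ γ v = v ∧ γ u = u) := by
  obtain ⟨C, N, hC1, hC2, hN1, hN2, v, u, a, b, h1, h2, h3, h4, h5, h6, -, h7⟩ :=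
    exists_curve_ab (Ω := Ω) (n := n) (α := 1) (β := β) hn (by simp) K
  exact ⟨C, N, hC1, hC2, hN1, hN2, v, u, a, b, h1, by rw [h2, pow_one], h3, h4, h5, h6, h7⟩

end Pool.Agent.Helper35.TD
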