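import Pool.Agent.Helper75.QC.Defs

/-! Project TD (MP_8abef2_ag): the Tate conjecture for divisors on the surfaces `w^n = f(x, y)`,
`deg f ≤ 4`. Definitions: Galois action and algebraic homomorphisms. -/

set_option autoImplicit false

namespace Pool.Agent.Helper35.TD

open IntermediateField TensorProduct Pool.Agent.Helper75.QC

/-- `γ` is a homomorphism of extension fields of `Ω` over the automorphism `τ` of `Ω` -/
def IsOver {Ω K K' : Type} [Field Ω] [Field K] [Algebra Ω K] [Field K'] [Algebra Ω K']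
    (τ : Ω ≃+* Ω) (γ : K →+* K') : Prop :=
  ∀ a : Ω, γ (algebraMap Ω K a) = algebraMap Ω K' (τ a)

/-- `γ` is the action of the subgroup `U` of the Galois group `Gal(Ω/F)` on the field
`K = K₀ ⊗ Ω`, where `K₀` is the field of the elements fixed by `U`; so `K` is the function field of
a variety which is defined over the field of the elements of `Ω` fixed by `U`. -/
def IsForm {F Ω K : Type} [Field F] [Field Ω] [Algebra F Ω] [Field K] [Algebra Ω K]
    (U : Subgroup (Ω ≃ₐ[F] Ω)) (γ : (Ω ≃ₐ[F] Ω) → (K →+* K)) : Prop :=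
  (∀ τ ∈ U, IsOver (τ : Ω ≃+* Ω) (γ τ)) ∧ adjoin Ω {a : K | ∀ τ ∈ U, γ τ a = a} = ⊤

/-- The cohomology of the generic points of varieties over `Ω` with the action of the Galois group
of `Ω` over `F` (a number field or a finite field; `Ω` is an algebraic closure of `F`). -/
structure GaloisTheory (F Ω L : Type) [Field F] [Field Ω] [Algebra F Ω] [Field L] extends
    BaseTheory Ω L where
  /-- functoriality for homomorphisms over automorphisms of `Ω` -/
  act : ∀ (i : ℕ) {K K' : Type} [Field K] [Algebra Ω K] [Field K'] [Algebra Ω K'],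
    (K →+* K') → (H i K →ₗ[L] H i K')
  act_map : ∀ (i : ℕ) {K K' : Type} [Field K] [Algebra Ω K] [Field K'] [Algebra Ω K']
    (g : K →ₐ[Ω] K'), act i (g : K →+* K') = map i g
  act_comp : ∀ (i : ℕ) {K K' K'' : Type} [Field K] [Algebra Ω K] [Field K'] [Algebra Ω K']
    [Field K''] [Algebra Ω K''] (σ τ : Ω ≃+* Ω) (γ : K' →+* K'') (δ : K →+* K'),
    IsOver σ γ → IsOver τ δ → act i (γ.comp δ) = act i γ ∘ₗ act i δ
  /-- the cyclotomic character -/
  cyc : (Ω ≃ₐ[F] Ω) →* Lˣ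
  /-- the linear combinations of homomorphisms given by correspondences -/
  alg : ∀ (K K' : Type) [Field K] [Algebra Ω K] [Field K'] [Algebra Ω K'],
    Submodule L (H 1 K →ₗ[L] H 1 K')
  /-- `H 1` is a semisimple representation (Weil, Faltings) -/
  semisimple : ∀ (K : Type) [Field K] [Algebra Ω K] (U : Subgroup (Ω ≃ₐ[F] Ω))
    (γ : (Ω ≃ₐ[F] Ω) → (K →+* K)), (⊤ : IntermediateField Ω K).FG →
    IsOpen (U : Set (Ω ≃ₐ[F] Ω)) → IsForm U γ →
    ∀ P : Submodule L (H 1 K), (∀ τ ∈ U, ∀ t ∈ P, act 1 (γ τ) t ∈ P) →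
      ∃ Q : Submodule L (H 1 K), (∀ τ ∈ U, ∀ t ∈ Q, act 1 (γ τ) t ∈ Q) ∧ IsCompl P Q
  /-- equivariant homomorphisms are linear combinations of algebraic ones (Tate, Faltings) -/
  tate : ∀ (K K' : Type) [Field K] [Algebra Ω K] [Field K'] [Algebra Ω K']
    (U : Subgroup (Ω ≃ₐ[F] Ω)) (γ : (Ω ≃ₐ[F] Ω) → (K →+* K)) (γ' : (Ω ≃ₐ[F] Ω) → (K' →+* K')),
    (⊤ : IntermediateField Ω K).FG → (⊤ : IntermediateField Ω K').FG →
    IsOpen (U : Set (Ω ≃ₐ[F] Ω)) → IsForm U γ → IsForm U γ' →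
    ∀ A : H 1 K →ₗ[L] H 1 K', (∀ τ ∈ U, ∀ t, A (act 1 (γ τ) t) = act 1 (γ' τ) (A t)) →
      A ∈ alg K K'
  /-- Let `X` be a surface and `C` a curve. The classes in `H 2 (X) ⊗ H 1 (C)` which vanish at the
  generic point of `X × C` are the image of the first cohomology of a curve `D` under a
  correspondence `g`. If `A` is a linear combination of correspondences from `C` to `D`, the
  contraction of `g ∘ A` over `C` is the class of a linear combination of divisors of `X`, which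
  vanishes at the generic point of `X`. -/
  gysin : ∀ {K C N : Type} [Field K] [Algebra Ω K] [Field C] [Algebra Ω C] [Field N]
    [Algebra Ω N] (a : K →ₐ[Ω] N) (b : C →ₐ[Ω] N) (x y : K) (v : C)
    (U : Subgroup (Ω ≃ₐ[F] Ω)) (γ : (Ω ≃ₐ[F] Ω) → (K →+* K)) (γ' : (Ω ≃ₐ[F] Ω) → (C →+* C)),
    (⊤ : IntermediateField Ω K).FG → (⊤ : IntermediateField Ω C).FG →
    (∀ k : K, k ∈ Acl Ω {x, y}) → (∀ k : C, k ∈ Acl Ω {v}) →
    Transcendental a.fieldRange (b v) →
    IsOpen (U : Set (Ω ≃ₐ[F] Ω)) → IsForm U γ → IsForm U γ' →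
    ∃ (V : Subgroup (Ω ≃ₐ[F] Ω)) (D : Type) (_ : Field D) (_ : Algebra Ω D)
      (δ : (Ω ≃ₐ[F] Ω) → (D →+* D)) (g : H 1 D →ₗ[L] H 2 K ⊗[L] H 1 C),
      V ≤ U ∧ IsOpen (V : Set (Ω ≃ₐ[F] Ω)) ∧ (⊤ : IntermediateField Ω D).FG ∧ IsForm V δ ∧
      (∀ τ ∈ V, ∀ s, TensorProduct.map (act 2 (γ τ)) (act 1 (γ' τ)) (g s) =
        ((cyc τ)⁻¹ : Lˣ) • g (act 1 (δ τ) s)) ∧
      (∀ t, TensorProduct.lift ((cup N).compl₁₂ (map 2 a) (map 1 b)) t = 0 ↔
        t ∈ LinearMap.range g) ∧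
      ∀ A ∈ alg C D, ∀ ξ : H 2 K →ₗ[L] L,
        LinearMap.trace L (H 1 C) (TensorProduct.lid L (H 1 C) ∘ₗ ξ.rTensor (H 1 C) ∘ₗ g ∘ₗ A) = 0

end Pool.Agent.Helper35.TD
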