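import Pool.Agent.Helper15.QM.Core

/-! Cyclic coverings `w ^ n ∈ M₀`: the exceptional eigenclasses (after helper75, Quad.lean, and
helper40, SD/Inp.lean). -/

set_option autoImplicit false

namespace Pool.Agent.Helper35.TD

open IntermediateField Pool.Agent.Helper75.QC

/-- every `τ` over `N ⊇ M₀` is a power of `σ` -/
theorem tau_eqM {Ω : Type} [Field Ω] {K : Type} [Field K] [Algebra Ω K]
    (N M₀ : IntermediateField Ω K) (w : K) (hK : adjoin Ω ((M₀ : Set K) ∪ {w}) = ⊤) (hM : M₀ ≤ N)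
    (ζ : Ω) (σ : K →ₐ[Ω] K)
    (hσ : (∀ k ∈ M₀, σ k = k) ∧ σ w = algebraMap Ω K ζ * w) (τ : K →ₐ[N] K) (j : ℕ)
    (hj : τ w = algebraMap Ω K ζ ^ j * w) : τ.restrictScalars Ω = σ ^ j := by
  apply hom_ext _ hK
  rintro s (hs | rfl)
  · rw [pow_fix75 σ _ (hσ.1 s hs) j]
    exact τ.commutes ⟨_, hM hs⟩
  · rw [pow_scale75 σ _ ζ hσ.2 j]
    exact hj

/-- Classes with `σ^d t = t`, `n = d m`, come from `M₀(w^m)`. -/
theorem eigen_zeroM {Ω L : Type} [Field Ω] [Field L] (T : BaseTheory Ω L) {n d m : ℕ}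
    (hn : 0 < n) (hn' : (n : Ω) ≠ 0) (hdm : n = d * m) {ζ : Ω} (hζ : IsPrimitiveRoot ζ n)
    {K : Type} [Field K] [Algebra Ω K] (M₀ : IntermediateField Ω K) (w : K)
    (hK : adjoin Ω ((M₀ : Set K) ∪ {w}) = ⊤) (hw0 : w ≠ 0)
    (hw : w ^ n ∈ M₀) (σ : K →ₐ[Ω] K)
    (hσ : (∀ k ∈ M₀, σ k = k) ∧ σ w = algebraMap Ω K ζ * w)
    (huni : Uniruled Ω (adjoin Ω ((M₀ : Set K) ∪ {w ^ m}) : IntermediateField Ω K) 2) (t : T.H 2 K)
    (ht : (T.map 2 σ ^ d) t = t) : t = 0 := by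
  have hev : ∀ k : ℕ, (T.map 2 σ ^ (d * k)) t = t := by
    intro k
    induction k with
    | zero => simp
    | succ k ih => rw [Nat.mul_succ, pow_add, Module.End.mul_apply, ht, ih]
  set N0 : IntermediateField Ω K := adjoin Ω ((M₀ : Set K) ∪ {w ^ m}) with hN0
  have hMN : M₀ ≤ N0 := fun k hk => subset_adjoin Ω _ (Or.inl hk)
  have hwm : w ^ m ∈ N0 := subset_adjoin Ω _ (Or.inr rfl)
  obtain ⟨g1, g2, g3⟩ := kummer_gal N0 hn hn' hζ w hw0 (hMN hw) (fun M h1 h2 => by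
    rw [eq_top_iff, ← hK, adjoin_le_iff]
    rintro s (hs | rfl)
    · exact h1 (hMN hs)
    · exact h2)
  have hfix : ∀ τ : K →ₐ[N0] K, T.map 2 (τ.restrictScalars Ω) t = t := by
    intro τ
    obtain ⟨j, hj⟩ := g3 τ
    rw [tau_eqM N0 M₀ w hK hMN ζ σ hσ τ j hj, tmap_pow75]
    have h3 : τ (w ^ m) = w ^ m := τ.commutes ⟨_, hwm⟩
    rw [_root_.map_pow, hj, mul_pow, ← pow_mul] at h3
    have h4 : algebraMap Ω K (ζ ^ (j * m)) = 1 := by
      rw [_root_.map_pow]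
      exact mul_right_cancel₀ (pow_ne_zero m hw0) (h3.trans (one_mul _).symm)
    have h5 : ζ ^ (j * m) = 1 := by
      apply (algebraMap Ω K).injective
      rw [h4, _root_.map_one]
    have h6 := hζ.dvd_of_pow_eq_one _ h5
    rw [hdm] at h6
    have hm0 : 0 < m := by
      rcases Nat.eq_zero_or_pos m with h | h
      · rw [hdm, h, mul_zero] at hn
        exact absurd hn (lt_irrefl 0)
      · exact h
    have h7 : d ∣ j := Nat.dvd_of_mul_dvd_mul_right hm0 h6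
    obtain ⟨k, rfl⟩ := h7
    exact hev k
  obtain ⟨s, hs⟩ := T.descent 2 K N0 t hfix
  rw [← hs, T.uniruled 2 N0 huni s, _root_.map_zero]

/-- the eigenclasses for the eigenvalues `ξ` with `ξ ^ k = 1` -/
theorem exc_zeroM {Ω L : Type} [Field Ω] [Field L] (T : BaseTheory Ω L) {n : ℕ}
    (hn : 0 < n) (hn' : (n : Ω) ≠ 0) {ζ : Ω} (hζ : IsPrimitiveRoot ζ n)
    {K : Type} [Field K] [Algebra Ω K] (M₀ : IntermediateField Ω K) (w : K)
    (hK : adjoin Ω ((M₀ : Set K) ∪ {w}) = ⊤) (hw0 : w ≠ 0)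
    (hw : w ^ n ∈ M₀) (σ : K →ₐ[Ω] K)
    (hσ : (∀ k ∈ M₀, σ k = k) ∧ σ w = algebraMap Ω K ζ * w) (k : ℕ)
    (H : ∀ e m : ℕ, n = e * m → e ∣ k →
      Uniruled Ω (adjoin Ω ((M₀ : Set K) ∪ {w ^ m}) : IntermediateField Ω K) 2) (ξ : L)
    (hξn : ξ ^ n = 1) (hξk : ξ ^ k = 1) (t : T.H 2 K) (ht : T.map 2 σ t = ξ • t) : t = 0 := by
  obtain ⟨m, hm⟩ := orderOf_dvd_of_pow_eq_one hξn
  have hk : orderOf ξ ∣ k := orderOf_dvd_of_pow_eq_one hξk
  refine eigen_zeroM T hn hn' hm hζ M₀ w hK hw0 hw σ hσ (H _ m hm hk) t ?_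
  have h1 : ∀ j : ℕ, (T.map 2 σ ^ j : Module.End L (T.H 2 K)) t = ξ ^ j • t := by
    intro j
    induction j with
    | zero => simp
    | succ j ih =>
      rw [pow_succ, Module.End.mul_apply, ht, map_smul, ih, smul_smul, pow_succ, mul_comm]
  have h2 := h1 (orderOf ξ)
  rw [pow_orderOf_eq_one, one_smul] at h2
  exact h2

end Pool.Agent.Helper35.TD
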