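import Pool.Agent.Helper35.TD.Comm

/-! Project TD: every finitely generated field `K` over `Ω` (algebraic over `F`) has an action of an
open subgroup of the Galois group which fixes given generators, and every homomorphism of fields
with such actions is equivariant for an open subgroup. -/

set_option autoImplicit false

namespace Pool.Agent.Helper35.TD

open IntermediateField Module Pool.Agent.Helper75.QC

/-- an open subgroup fixes finitely many algebraic elements -/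
theorem exists_open_set {F Ω : Type} [Field F] [Field Ω] [Algebra F Ω] [Algebra.IsAlgebraic F Ω]
    (C : Set Ω) (hC : C.Finite) :
    ∃ V : Subgroup (Ω ≃ₐ[F] Ω), IsOpen (V : Set (Ω ≃ₐ[F] Ω)) ∧ ∀ τ ∈ V, ∀ c ∈ C, τ c = c := by
  have := hC.to_subtype
  have : FiniteDimensional F (adjoin F C) :=
    finiteDimensional_adjoin fun x _ => Algebra.IsIntegral.isIntegral x
  refine ⟨(adjoin F C).fixingSubgroup, fixingSubgroup_isOpen _, fun τ hτ c hc => ?_⟩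
  exact (mem_fixingSubgroup_iff _ _).1 hτ c (subset_adjoin F C hc)

section

open scoped IntermediateField.algebraAdjoinAdjoin

/-- extension from the subalgebra to the field -/
theorem extend_hom {Ω K K' : Type} [Field Ω] [Field K] [Algebra Ω K] [Field K'] (S : Set K)
    (hs : adjoin Ω S = ⊤) (g : Algebra.adjoin Ω S →+* K') (hg : Function.Injective g) :
    ∃ ψ : K →+* K', ∀ a : Algebra.adjoin Ω S, ψ a = g a := by
  let l : adjoin Ω S →+* K' := IsFractionRing.lift hg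
  let e : K →+* adjoin Ω S :=
    { toFun := fun k => ⟨k, by rw [hs]; exact mem_top⟩
      map_one' := rfl
      map_mul' := fun _ _ => rfl
      map_zero' := rfl
      map_add' := fun _ _ => rfl }
  refine ⟨l.comp e, fun a => ?_⟩
  have h1 : l (algebraMap (Algebra.adjoin Ω S) (adjoin Ω S) a) = g a :=
    IsFractionRing.lift_algebraMap hg a
  rw [← h1]
  rfl

end

/-- **Existence of the action.** -/
theorem exists_form {F Ω K : Type} [Field F] [Field Ω] [Algebra F Ω] [Algebra.IsAlgebraic F Ω]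
    [Field K] [Algebra Ω K] {m : ℕ} (s : Fin m → K) (hs : adjoin Ω (Set.range s) = ⊤) :
    ∃ U : Subgroup (Ω ≃ₐ[F] Ω), IsOpen (U : Set (Ω ≃ₐ[F] Ω)) ∧
      ∃ γ : (Ω ≃ₐ[F] Ω) → (K →+* K), ∀ τ ∈ U,
        IsOver (τ : Ω ≃+* Ω) (γ τ) ∧ ∀ i, γ τ (s i) = s i := by
  classical
  let R := MvPolynomial (Fin m) Ω
  let φ : R →ₐ[Ω] K := MvPolynomial.aeval s
  have hfg : (RingHom.ker φ).FG := (isNoetherianRing_iff_ideal_fg R).1 inferInstance _
  obtain ⟨G, hG⟩ := hfg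
  obtain ⟨U, hU, hfix⟩ := exists_open_set (F := F)
    (⋃ p ∈ G, (p.coeff '' (p.support : Set (Fin m →₀ ℕ)))) (by
      refine Set.Finite.biUnion G.finite_toSet fun p _ => ?_
      exact p.support.finite_toSet.image _)
  let μ : (Ω ≃ₐ[F] Ω) → (R →+* R) := fun τ => MvPolynomial.map ((τ : Ω ≃+* Ω) : Ω →+* Ω)
  have hμG : ∀ τ ∈ U, ∀ p ∈ G, μ τ p = p := by
    intro τ hτ p hp
    ext d
    rw [MvPolynomial.coeff_map]
    by_cases hd : d ∈ p.support
    · exact hfix τ hτ _ (Set.mem_biUnion hp ⟨d, hd, rfl⟩)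
    · rw [MvPolynomial.notMem_support_iff.1 hd, map_zero]
  have hμI : ∀ τ ∈ U, ∀ p : R, φ p = 0 → φ (μ τ p) = 0 := by
    intro τ hτ p hp
    have h1 : RingHom.ker φ ≤ (RingHom.ker φ).comap (μ τ) := by
      conv_lhs => rw [← hG]
      rw [Ideal.span_le]
      intro g hg
      show μ τ g ∈ RingHom.ker φ
      rw [hμG τ hτ g hg, ← hG]
      exact Ideal.subset_span hg
    exact h1 hp
  have hμμ : ∀ (τ : Ω ≃ₐ[F] Ω) (p : R), μ τ⁻¹ (μ τ p) = p := by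
    intro τ p
    show MvPolynomial.map _ (MvPolynomial.map _ p) = p
    rw [MvPolynomial.map_map]
    have h1 : (((τ⁻¹ : Ω ≃ₐ[F] Ω) : Ω ≃+* Ω) : Ω →+* Ω).comp ((τ : Ω ≃+* Ω) : Ω →+* Ω) =
        RingHom.id Ω := by
      ext a
      show τ⁻¹ (τ a) = a
      rw [← AlgEquiv.mul_apply, inv_mul_cancel]
      rfl
    rw [h1, MvPolynomial.map_id]
  have hμI' : ∀ τ ∈ U, ∀ p : R, φ (μ τ p) = 0 → φ p = 0 := by
    intro τ hτ p hp
    have h1 := hμI τ⁻¹ (U.inv_mem hτ) _ hp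
    rwa [hμμ] at h1
  let A := Algebra.adjoin Ω (Set.range s)
  have hmem : ∀ p : R, φ p ∈ A := by
    intro p
    show φ p ∈ Algebra.adjoin Ω (Set.range s)
    rw [Algebra.adjoin_range_eq_range_aeval]
    exact ⟨p, rfl⟩
  let f : R →+* A :=
    { toFun := fun p => ⟨φ p, hmem p⟩
      map_one' := Subtype.ext (map_one φ)
      map_mul' := fun a b => Subtype.ext (map_mul φ a b)
      map_zero' := Subtype.ext (map_zero φ)
      map_add' := fun a b => Subtype.ext (map_add φ a b) }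
  have hf : Function.Surjective f := by
    rintro ⟨a, ha⟩
    have ha' : a ∈ (MvPolynomial.aeval s : MvPolynomial (Fin m) Ω →ₐ[Ω] K).range := by
      rw [← Algebra.adjoin_range_eq_range_aeval]
      exact ha
    obtain ⟨p, hp⟩ := ha'
    exact ⟨p, Subtype.ext hp⟩
  have key : ∀ τ : Ω ≃ₐ[F] Ω, ∃ ψ : K →+* K, τ ∈ U →
      IsOver (τ : Ω ≃+* Ω) ψ ∧ ∀ i, ψ (s i) = s i := by
    intro τ
    by_cases hτ : τ ∈ U
    swap
    · exact ⟨RingHom.id K, fun h => absurd h hτ⟩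
    have hker : RingHom.ker f ≤ RingHom.ker ((φ : R →+* K).comp (μ τ)) := by
      intro p hp
      exact hμI τ hτ p (congrArg Subtype.val hp)
    let g : A →+* K := RingHom.liftOfSurjective f hf ⟨(φ : R →+* K).comp (μ τ), hker⟩
    have hg : ∀ p : R, g (f p) = φ (μ τ p) := fun p =>
      RingHom.liftOfRightInverse_comp_apply f _ _ ⟨(φ : R →+* K).comp (μ τ), hker⟩ p
    have hginj : Function.Injective g := by
      rw [injective_iff_map_eq_zero]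
      intro a ha
      obtain ⟨p, rfl⟩ := hf a
      rw [hg] at ha
      exact Subtype.ext (hμI' τ hτ p ha)
    obtain ⟨ψ, hψ⟩ := extend_hom (Set.range s) hs g hginj
    have hl : ∀ p : R, ψ (φ p) = φ (μ τ p) := by
      intro p
      rw [← hg, ← hψ]
      rfl
    refine ⟨ψ, fun _ => ⟨fun a => ?_, fun i => ?_⟩⟩
    · have h1 := hl (MvPolynomial.C a)
      have h2 : φ (MvPolynomial.C a) = algebraMap Ω K a := MvPolynomial.aeval_C _ _
      have h3 : μ τ (MvPolynomial.C a) = MvPolynomial.C (τ a) := MvPolynomial.map_C _ _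
      have h4 : φ (MvPolynomial.C (τ a)) = algebraMap Ω K (τ a) := MvPolynomial.aeval_C _ _
      rw [h3, h2, h4] at h1
      exact h1
    · have h1 := hl (MvPolynomial.X i)
      have h2 : φ (MvPolynomial.X i) = s i := MvPolynomial.aeval_X _ _
      have h3 : μ τ (MvPolynomial.X i) = MvPolynomial.X i := MvPolynomial.map_X _ _
      rw [h3, h2] at h1
      exact h1
  choose γ hγ using key
  exact ⟨U, hU, γ, fun τ hτ => hγ τ hτ⟩

/-- an element is fixed by an open subgroup -/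
theorem fixed_open {F Ω K : Type} [Field F] [Field Ω] [Algebra F Ω] [Algebra.IsAlgebraic F Ω]
    [Field K] [Algebra Ω K] (S : Set K) (U : Subgroup (Ω ≃ₐ[F] Ω))
    (hU : IsOpen (U : Set (Ω ≃ₐ[F] Ω))) (γ : (Ω ≃ₐ[F] Ω) → (K →+* K))
    (hγ : ∀ τ ∈ U, IsOver (τ : Ω ≃+* Ω) (γ τ)) (hS : ∀ τ ∈ U, ∀ s ∈ S, γ τ s = s) (k : K)
    (hk : k ∈ adjoin Ω S) :
    ∃ V ≤ U, IsOpen (V : Set (Ω ≃ₐ[F] Ω)) ∧ ∀ τ ∈ V, γ τ k = k := by
  induction hk using adjoin_induction with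
  | mem k hk => exact ⟨U, le_rfl, hU, fun τ hτ => hS τ hτ k hk⟩
  | algebraMap c =>
    obtain ⟨V, hVU, hV, h⟩ := exists_open U hU c (Algebra.IsIntegral.isIntegral c)
    refine ⟨V, hVU, hV, fun τ hτ => ?_⟩
    rw [hγ τ (hVU hτ)]
    exact congrArg _ (h τ hτ)
  | add a b _ _ ha hb =>
    obtain ⟨V, hVU, hV, h⟩ := ha
    obtain ⟨W, hWU, hW, h'⟩ := hb
    refine ⟨V ⊓ W, inf_le_left.trans hVU, hV.inter hW, fun τ hτ => ?_⟩
    rw [map_add, h τ hτ.1, h' τ hτ.2]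
  | inv a _ ha =>
    obtain ⟨V, hVU, hV, h⟩ := ha
    refine ⟨V, hVU, hV, fun τ hτ => ?_⟩
    rw [map_inv₀, h τ hτ]
  | mul a b _ _ ha hb =>
    obtain ⟨V, hVU, hV, h⟩ := ha
    obtain ⟨W, hWU, hW, h'⟩ := hb
    refine ⟨V ⊓ W, inf_le_left.trans hVU, hV.inter hW, fun τ hτ => ?_⟩
    rw [map_mul, h τ hτ.1, h' τ hτ.2]

/-- finitely many elements are fixed by an open subgroup -/
theorem fixed_open_set {F Ω K : Type} [Field F] [Field Ω] [Algebra F Ω] [Algebra.IsAlgebraic F Ω]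
    [Field K] [Algebra Ω K] (S : Set K) (U : Subgroup (Ω ≃ₐ[F] Ω))
    (hU : IsOpen (U : Set (Ω ≃ₐ[F] Ω))) (γ : (Ω ≃ₐ[F] Ω) → (K →+* K))
    (hγ : ∀ τ ∈ U, IsOver (τ : Ω ≃+* Ω) (γ τ)) (hS : ∀ τ ∈ U, ∀ s ∈ S, γ τ s = s)
    (Q : Finset K) (hQ : ∀ k ∈ Q, k ∈ adjoin Ω S) :
    ∃ V ≤ U, IsOpen (V : Set (Ω ≃ₐ[F] Ω)) ∧ ∀ τ ∈ V, ∀ k ∈ Q, γ τ k = k := by
  classical
  induction Q using Finset.induction_on with
  | empty => exact ⟨U, le_rfl, hU, fun τ _ k hk => absurd hk (Finset.notMem_empty k)⟩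
  | insert a Q _ ih =>
    obtain ⟨V, hVU, hV, h⟩ := ih fun k hk => hQ k (Finset.mem_insert_of_mem hk)
    obtain ⟨W, hWU, hW, h'⟩ := fixed_open S U hU γ hγ hS a (hQ a (Finset.mem_insert_self a Q))
    refine ⟨V ⊓ W, inf_le_left.trans hVU, hV.inter hW, fun τ hτ k hk => ?_⟩
    rcases Finset.mem_insert.1 hk with rfl | hk
    · exact h' τ hτ.2
    · exact h τ hτ.1 k hk

/-- **Equivariance.** A homomorphism between fields with actions is equivariant for an open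
subgroup. -/
theorem exists_equivariant {F Ω K K₀ : Type} [Field F] [Field Ω] [Algebra F Ω]
    [Algebra.IsAlgebraic F Ω] [Field K] [Algebra Ω K] [Field K₀] [Algebra Ω K₀]
    (hfin : (⊤ : IntermediateField Ω K₀).FG) (h : K₀ →ₐ[Ω] K)
    (U : Subgroup (Ω ≃ₐ[F] Ω)) (hU : IsOpen (U : Set (Ω ≃ₐ[F] Ω)))
    (γ : (Ω ≃ₐ[F] Ω) → (K →+* K)) (hγ : IsForm U γ)
    (U₀ : Subgroup (Ω ≃ₐ[F] Ω)) (hU₀ : IsOpen (U₀ : Set (Ω ≃ₐ[F] Ω)))
    (γ₀ : (Ω ≃ₐ[F] Ω) → (K₀ →+* K₀)) (hγ₀ : IsForm U₀ γ₀) :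
    ∃ V : Subgroup (Ω ≃ₐ[F] Ω), V ≤ U ∧ V ≤ U₀ ∧ IsOpen (V : Set (Ω ≃ₐ[F] Ω)) ∧
      ∀ τ ∈ V, ∀ k, h (γ₀ τ k) = γ τ (h k) := by
  classical
  obtain ⟨Q, hQ⟩ := hfin
  obtain ⟨V, hVU, hV, h1⟩ := fixed_open_set {a : K | ∀ τ ∈ U, γ τ a = a} U hU γ hγ.1
    (fun τ hτ s hs => hs τ hτ) (Q.image h)
    (fun k _ => by rw [hγ.2]; exact mem_top)
  obtain ⟨W, hWU, hW, h2⟩ := fixed_open_set {a : K₀ | ∀ τ ∈ U₀, γ₀ τ a = a} U₀ hU₀ γ₀ hγ₀.1
    (fun τ hτ s hs => hs τ hτ) Q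
    (fun k _ => by rw [hγ₀.2]; exact mem_top)
  refine ⟨V ⊓ W, inf_le_left.trans hVU, inf_le_right.trans hWU, hV.inter hW, fun τ hτ k => ?_⟩
  have h3 : (h : K₀ →+* K).comp (γ₀ τ) = (γ τ).comp (h : K₀ →+* K) := by
    refine ringHom_ext (Q : Set K₀) hQ _ _ (fun a => ?_) fun s hs => ?_
    · change h (γ₀ τ (algebraMap Ω K₀ a)) = γ τ (h (algebraMap Ω K₀ a))
      rw [hγ₀.1 τ (hWU hτ.2), h.commutes, h.commutes, hγ.1 τ (hVU hτ.1)]
    · change h (γ₀ τ s) = γ τ (h s)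
      rw [h2 τ hτ.2 s hs, h1 τ hτ.1 (h s) (Finset.mem_image_of_mem _ hs)]
  exact RingHom.congr_fun h3 k

end Pool.Agent.Helper35.TD
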