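import Pool.Agent.Helper35.TD.Main
import Pool.Agent.Helper35.TD.Target
import Pool.Agent.Helper35.TD.Form

/-! Project TD, final form: the Tate conjecture for divisors on every surface which is dominated,
over an algebraic closure, by a cyclic cover of the plane branched along two curves of total degree
at most five or along three conics. -/

set_option autoImplicit false

namespace Pool.Agent.Helper35.TD

open IntermediateField Pool.Agent.Helper75.QC Pool.Agent.Helper75.TC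

theorem Branch.map {Ω : Type} [Field Ω] {n : ℕ} {f g h : MvPolynomial (Fin 2) Ω} {a b c : ℕ}
    (H : Branch n f g h a b c) (φ : Ω →+* Ω) : Branch n (f.map φ) (g.map φ) (h.map φ) a b c := by
  have hd : ∀ f : MvPolynomial (Fin 2) Ω, (f.map φ).totalDegree ≤ f.totalDegree := by
    intro f
    rw [MvPolynomial.totalDegree, MvPolynomial.totalDegree]
    exact Finset.sup_mono (MvPolynomial.support_map_subset _ _)
  rcases H with ⟨h1, d, d', h2, h3, h4, h5⟩ | ⟨h1, h2, h3, h4⟩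
  · exact Or.inl ⟨by rw [h1, map_one], d, d', (hd f).trans h2, (hd g).trans h3, h4, h5⟩
  · exact Or.inr ⟨(hd f).trans h1, (hd g).trans h2, (hd h).trans h3, h4⟩

/-- `K` is the function field of a cyclic cover of the plane branched along two curves of total
degree at most five, or along three conics. -/
def IsCyclicCover (Ω K : Type) [Field Ω] [Field K] [Algebra Ω K] : Prop :=
  ∃ (n : ℕ) (f g h : MvPolynomial (Fin 2) Ω) (a b c : ℕ) (x y w : K), 0 < n ∧
    Branch n f g h a b c ∧ adjoin Ω {x, y, w} = ⊤ ∧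
    Module.finrank (adjoin Ω {x, y}) K = n ∧
    w ^ n = MvPolynomial.aeval ![x, y] f ^ a * MvPolynomial.aeval ![x, y] g ^ b *
      MvPolynomial.aeval ![x, y] h ^ c

theorem IsCyclicCover.fg {Ω K : Type} [Field Ω] [Field K] [Algebra Ω K] (h : IsCyclicCover Ω K) :
    (⊤ : IntermediateField Ω K).FG := by
  obtain ⟨n, f, g, h, a, b, c, x, y, w, -, -, hK, -⟩ := h
  rw [← hK]
  exact fg_adjoin_of_finite (Set.toFinite _)

/-- **No Tate classes at the generic point.** -/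
theorem no_tate_cover {F Ω L : Type} [Field F] [Field Ω] [Algebra F Ω] [Algebra.IsAlgebraic F Ω]
    [IsAlgClosed Ω] [Field L] [CharZero L] [IsAlgClosed L] (T : GaloisTheory F Ω L) {K : Type}
    [Field K] [Algebra Ω K] (hc : IsCyclicCover Ω K) (U : Subgroup (Ω ≃ₐ[F] Ω))
    (hU : IsOpen (U : Set (Ω ≃ₐ[F] Ω))) (γ : (Ω ≃ₐ[F] Ω) → (K →+* K)) (hγ : IsForm U γ)
    (t : T.H 2 K) (ht : ∀ τ ∈ U, T.act 2 (γ τ) t = ((T.cyc τ)⁻¹ : Lˣ) • t) : t = 0 := by
  classical
  obtain ⟨n, f, g, h, a, b, c, x, y, w, hn, H, hK, hdeg, hw⟩ := hc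
  obtain ⟨V, hVU, hV, hfix⟩ := fixed_open_set {a : K | ∀ τ ∈ U, γ τ a = a} U hU γ hγ.1
    (fun τ hτ s hs => hs τ hτ) {x, y, w, val f x y, val g x y} (fun k _ => by
      rw [hγ.2]; exact mem_top)
  simp only [Finset.mem_insert, Finset.mem_singleton, forall_eq_or_imp, forall_eq] at hfix
  have hx : x ∈ adjoin Ω {x, y} := subset_adjoin _ _ (by simp)
  have hy : y ∈ adjoin Ω {x, y} := subset_adjoin _ _ (by simp)
  have hw' : w ^ n = val f x y ^ a * val g x y ^ b * val h x y ^ c := hw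
  have hwF : w ^ n ∈ adjoin Ω {x, y} := by
    rw [hw']
    exact mul_mem (mul_mem (pow_mem (val_mem f _ hx hy) _) (pow_mem (val_mem g _ hx hy) _))
      (pow_mem (val_mem h _ hx hy) _)
  refine insep_gen T hn x y w hK hwF hdeg V γ (fun τ hτ => hγ.1 τ (hVU hτ))
    (fun τ hτ => ⟨(hfix τ hτ).1, (hfix τ hτ).2.1, (hfix τ hτ).2.2.1⟩) t
    (fun τ hτ => ht τ (hVU hτ)) ?_
  intro φ q n' hnn hn0 hcast K1 _ _ j hj x1 y1 w1 hx1 hy1 hw1 htop hdeg1 γ1 hover hcomp t1 ht1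
  have hval : ∀ f : MvPolynomial (Fin 2) Ω,
      j (val (f.map (φ.symm : Ω →+* Ω)) x1 y1) = val f x y := by
    intro f
    show j (MvPolynomial.aeval ![x1, y1] _) = MvPolynomial.aeval ![x, y] f
    rw [MvPolynomial.aeval_def, MvPolynomial.aeval_def, MvPolynomial.eval₂_map,
      MvPolynomial.hom_eval₂]
    have h1 : j.comp ((algebraMap Ω K1).comp (φ.symm : Ω →+* Ω)) = algebraMap Ω K := by
      ext a
      show j (algebraMap Ω K1 (φ.symm a)) = algebraMap Ω K a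
      rw [hj, φ.apply_symm_apply]
    have h2 : (fun i => j (![x1, y1] i)) = ![x, y] := by
      funext i
      fin_cases i
      · exact hx1
      · exact hy1
    rw [h1, h2]
  have hw2 : w1 ^ n' = val (f.map (φ.symm : Ω →+* Ω)) x1 y1 ^ a *
      val (g.map (φ.symm : Ω →+* Ω)) x1 y1 ^ b * val (h.map (φ.symm : Ω →+* Ω)) x1 y1 ^ c := by
    apply j.injective
    rw [map_mul, map_mul, map_pow, map_pow, map_pow, map_pow, hval, hval, hval, hw1, ← pow_mul,
      ← hnn, hw']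
  obtain ⟨x', hx', y', hy', w', hw'', hI⟩ := target T.toBaseTheory hn0 hcast x1 y1 w1 htop hdeg1
    (f.map (φ.symm : Ω →+* Ω)) (g.map (φ.symm : Ω →+* Ω)) (h.map (φ.symm : Ω →+* Ω)) a b c
    ((H.of_dvd (Dvd.intro_left q hnn.symm)).map (φ.symm : Ω →+* Ω)) hw2
    {x1, y1, w1, val (f.map (φ.symm : Ω →+* Ω)) x1 y1, val (g.map (φ.symm : Ω →+* Ω)) x1 y1}
    (by simp) (by simp) (by simp) (by simp) (by simp)
  have hfix1 : ∀ τ ∈ V, ∀ s ∈ Subfield.closure ({x1, y1, w1, val (f.map (φ.symm : Ω →+* Ω)) x1 y1,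
      val (g.map (φ.symm : Ω →+* Ω)) x1 y1} : Set K1), γ1 τ s = s := by
    intro τ hτ
    refine fix_closure (γ1 τ) _ ?_
    obtain ⟨e1, e2, e3, e4, e5⟩ := hfix τ hτ
    intro s hs
    apply j.injective
    rw [hcomp τ hτ s]
    simp only [Set.mem_insert_iff, Set.mem_singleton_iff] at hs
    rcases hs with rfl | rfl | rfl | rfl | rfl
    · rw [hx1, e1]
    · rw [hy1, e2]
    · rw [hw1, map_pow, e3]
    · rw [hval, e4]
    · rw [hval, e5]
  exact hI.tate hn0 hcast V hV γ1 hover (fun τ hτ => ⟨hfix1 τ hτ x' hx', hfix1 τ hτ y' hy',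
    hfix1 τ hτ w' hw''⟩) t1 ht1

/-- **Main theorem, final form.** -/
theorem final {F Ω L : Type} [Field F] [Field Ω] [Algebra F Ω] [Algebra.IsAlgebraic F Ω]
    [IsAlgClosed Ω] [Field L] [CharZero L] [IsAlgClosed L] (T : GaloisTheory F Ω L) {K₀ : Type}
    [Field K₀] [Algebra Ω K₀] (hfin : (⊤ : IntermediateField Ω K₀).FG)
    (U : Subgroup (Ω ≃ₐ[F] Ω)) (hU : IsOpen (U : Set (Ω ≃ₐ[F] Ω)))
    (γ₀ : (Ω ≃ₐ[F] Ω) → (K₀ →+* K₀)) (hγ₀ : IsForm U γ₀)
    {K : Type} [Field K] [Algebra Ω K] (hc : IsCyclicCover Ω K) (h : K₀ →ₐ[Ω] K)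
    (halg : ∀ a : K, IsAlgebraic h.fieldRange a)
    {V : Type} [AddCommGroup V] [Module L V] (ρ : (Ω ≃ₐ[F] Ω) → Module.End L V)
    (r : V →ₗ[L] T.H 2 K₀) (NS : Submodule L V) (hV : IsH2 T U γ₀ ρ r NS) (v : V)
    (hv : IsTateClass T ρ v) : v ∈ NS := by
  obtain ⟨Q, hQ⟩ := hc.fg
  obtain ⟨m, s, hs⟩ : ∃ (m : ℕ) (s : Fin m → K), adjoin Ω (Set.range s) = ⊤ := by
    refine ⟨Q.card, fun i => (Q.equivFin.symm i : K), ?_⟩
    rw [← hQ]
    congr 1
    ext k
    constructor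
    · rintro ⟨i, rfl⟩
      exact (Q.equivFin.symm i).2
    · intro hk
      exact ⟨Q.equivFin ⟨k, hk⟩, by simp⟩
  obtain ⟨W, hW, γ, hγ⟩ := exists_form (F := F) s hs
  have hform : IsForm W γ := isForm_of_gens (fun τ hτ => (hγ τ hτ).1) _ hs (by
    rintro τ hτ _ ⟨i, rfl⟩
    exact (hγ τ hτ).2 i)
  obtain ⟨V', hV'W, hV'U, hV', hcomp⟩ := exists_equivariant hfin h W hW γ hform U hU γ₀ hγ₀
  refine dominated T h halg V' hV' γ (fun τ hτ => (hγ τ (hV'W hτ)).1) γ₀ hcomp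
    (fun U' hle hU' t ht => no_tate_cover T hc U' hU' γ (hform.mono (hle.trans hV'W)) t ht)
    ρ r NS ⟨fun τ hτ => hV.comm τ (hV'U hτ), hV.ker⟩ v hv

end Pool.Agent.Helper35.TD
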