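import Pool.Agent.Helper35.TD.EigenM
import Pool.Agent.Helper35.TD.Input
import Pool.Agent.Helper40.SD.Tower
import Pool.Agent.Helper40.SD.Inp

/-! The interface for a general cyclic covering `w ^ n ∈ M₀`, `M₀` the function field of a surface,
with the consumer for Tate classes, and the input for the elliptic towers `y ^ 2 = h(x, w ^ n)`. -/

set_option autoImplicit false

namespace Pool.Agent.Helper35.TD

open IntermediateField Pool.Agent.Helper75.QC Pool.Agent.Helper75.TC Pool.Agent.Helper40.SD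

/-- The geometric input of the criterion for a cyclic covering `w ^ n ∈ M₀`. -/
structure InputM {Ω L : Type} [Field Ω] [Field L] (T : BaseTheory Ω L) (n : ℕ) {K : Type}
    [Field K] [Algebra Ω K] (M₀ : IntermediateField Ω K) (w : K) : Prop where
  gen : adjoin Ω ((M₀ : Set K) ∪ {w}) = ⊤
  deg : Module.finrank M₀ K = n
  mem : w ^ n ∈ M₀
  tr : ∃ x y : K, ∀ k : K, k ∈ Acl Ω {x, y}
  main : Uniruled Ω K 2 ∨ (w ≠ 0 ∧ ∃ α β : ℕ, (α.gcd β).Coprime n ∧
    (∀ (N : Type) [Field N] [Algebra Ω N] (g : K →ₐ[Ω] N) (v s : N),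
      Transcendental g.fieldRange v → v ^ α * (1 - v) ^ β = s ^ n * g w ^ n →
      Uniruled Ω (adjoin Ω (g '' (M₀ : Set K) ∪ {v, s}) : IntermediateField Ω N) 3) ∧
    (∀ (ζ : Ω) (σ : K →ₐ[Ω] K), IsPrimitiveRoot ζ n → (∀ k ∈ M₀, σ k = k) →
      σ w = algebraMap Ω K ζ * w → ∀ (ξ : L) (t : T.H 2 K), ξ ^ n = 1 →
      (ξ ^ α = 1 ∨ ξ ^ β = 1 ∨ ξ ^ (α + β) = 1) → T.map 2 σ t = ξ • t → t = 0))

/-- **Consumer for the Tate classes** (exponent prime to the characteristic) -/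
theorem InputM.tate {F Ω L : Type} [Field F] [Field Ω] [Algebra F Ω] [IsAlgClosed Ω] [Field L]
    [CharZero L] [IsAlgClosed L] {T : GaloisTheory F Ω L} {n : ℕ} {K : Type} [Field K]
    [Algebra Ω K] {M₀ : IntermediateField Ω K} {w : K} (h : InputM T.toBaseTheory n M₀ w)
    (hn : 0 < n) (hn' : (n : Ω) ≠ 0) (S : Set K) (hfin : S.Finite) (hS : M₀ = adjoin Ω S)
    (U : Subgroup (Ω ≃ₐ[F] Ω)) (hU : IsOpen (U : Set (Ω ≃ₐ[F] Ω)))
    (γ : (Ω ≃ₐ[F] Ω) → (K →+* K)) (hγ : ∀ τ ∈ U, IsOver (τ : Ω ≃+* Ω) (γ τ))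
    (hfix : ∀ τ ∈ U, (∀ s ∈ S, γ τ s = s) ∧ γ τ w = w) (t : T.H 2 K)
    (ht : ∀ τ ∈ U, T.act 2 (γ τ) t = ((T.cyc τ)⁻¹ : Lˣ) • t) : t = 0 := by
  classical
  rcases h.main with h1 | ⟨hw0, α, β, hab, huni, hexc⟩
  · exact T.uniruled 2 K h1 t
  by_contra h0
  have hgenS : adjoin Ω (S ∪ {w}) = ⊤ := by
    rw [eq_top_iff, ← h.gen, adjoin_le_iff]
    rintro k (hk | rfl)
    · have h1 : M₀ ≤ adjoin Ω (S ∪ {w}) := by
        rw [hS]
        exact adjoin.mono _ _ _ Set.subset_union_left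
      exact h1 hk
    · exact subset_adjoin _ _ (Or.inr rfl)
  have hfg : (⊤ : IntermediateField Ω K).FG := by
    rw [← hgenS]
    exact fg_adjoin_of_finite (hfin.union (Set.finite_singleton w))
  have : FiniteDimensional L (T.H 2 K) := T.fin 2 K hfg
  obtain ⟨x, y, hxy⟩ := h.tr
  obtain ⟨ζ, σ, hζ, hσM, hσw, hσn, hcurve⟩ := Helper15.QM.kummer_gen T.toBaseTheory α β hn hn' hab
    M₀ w h.gen hw0 h.mem h.deg huni hexc
  have hζF : IsIntegral F ζ := by
    refine ⟨Polynomial.X ^ n - Polynomial.C 1, Polynomial.monic_X_pow_sub_C _ hn.ne', ?_⟩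
    rw [Polynomial.eval₂_sub, Polynomial.eval₂_pow, Polynomial.eval₂_X, Polynomial.eval₂_C,
      hζ.pow_eq_one, map_one, sub_self]
  obtain ⟨V, hVU, hV, hVζ⟩ := exists_open U hU ζ hζF
  have hcomm : ∀ (τ : V) (r : T.H 2 K),
      T.act 2 (γ τ) (T.map 2 σ r) = T.map 2 σ (T.act 2 (γ τ) r) := by
    intro τ r
    have hτ := hVU τ.2
    refine T.act_comm 2 (S ∪ {w}) hgenS (τ : Ω ≃+* Ω) (γ τ) (hγ τ hτ) σ ?_ r
    obtain ⟨h1, h2⟩ := hfix τ hτ
    rintro s (hs | rfl)
    · have hsM : s ∈ M₀ := by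
        rw [hS]
        exact subset_adjoin _ _ hs
      rw [hσM s hsM, h1 s hs, hσM s hsM]
    · rw [hσw, map_mul, hγ τ hτ, h2, hσw]
      congr 2
      exact hVζ τ τ.2
  obtain ⟨s, ξ, hs0, hs, hξs⟩ := exists_eigen (fun τ : V => T.act 2 (γ τ))
    (fun τ : V => (((T.cyc τ)⁻¹ : Lˣ) : L)) (T.map 2 σ) hcomm t
    (fun τ => ht τ (hVU τ.2)) h0
  obtain ⟨C, N, iC, jC, iN, jN, v, a, b, z, hC, hCv, hbv, ⟨S', hS', hgal⟩, hz0, hz⟩ :=
    hcurve ξ s hξs hs0
  choose γ' hγ' using fun τ : Ω ≃ₐ[F] Ω => hgal (τ : Ω ≃+* Ω)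
  refine hs0 (T.eq_zero_of_cup a b x y v V γ γ' hfg hC hxy hCv hbv hV ?_ ?_ s
    (fun τ hτ => hs ⟨τ, hτ⟩) z hz0 hz)
  · refine isForm_of_gens (fun τ hτ => hγ τ (hVU hτ)) (S ∪ {w}) hgenS fun τ hτ k hk => ?_
    obtain ⟨h1, h2⟩ := hfix τ (hVU hτ)
    rcases hk with hk | rfl
    · exact h1 k hk
    · exact h2
  · exact isForm_of_gens (fun τ _ => (hγ' τ).1) S' hS' fun τ _ k hk => (hγ' τ).2 k hk

/-- a subfield of a uniruled field -/
theorem uniruled_le {Ω N : Type} [Field Ω] [Field N] [Algebra Ω N] {S T : Set N}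
    (h : ∀ a ∈ S, a ∈ adjoin Ω T) {i : ℕ}
    (hU : Uniruled Ω (adjoin Ω T : IntermediateField Ω N) i) :
    Uniruled Ω (adjoin Ω S : IntermediateField Ω N) i :=
  uniruled_adjoin (AlgHom.id Ω N) S T h hU

/-- **Elliptic towers** `y ^ 2 = h(x, w ^ n)`, `deg h ≤ 3`. -/
theorem input_tower {Ω L : Type} [Field Ω] [IsAlgClosed Ω] [Field L] (T : BaseTheory Ω L)
    (h2 : (2 : Ω) ≠ 0) (h : MvPolynomial (Fin 2) Ω) (hh : h.totalDegree ≤ 3) {n : ℕ} (hn : 0 < n)
    (hn' : (n : Ω) ≠ 0) {K : Type} [Field K] [Algebra Ω K] (x y w : K)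
    (hK : adjoin Ω {x, y, w} = ⊤)
    (hdeg : Module.finrank (adjoin Ω {x, y, w ^ n}) K = n)
    (hy : y ^ 2 = MvPolynomial.aeval ![x, w ^ n] h) :
    InputM T n (adjoin Ω {x, y, w ^ n}) w := by
  have mx : x ∈ adjoin Ω {x, y, w ^ n} := subset_adjoin _ _ (by simp)
  have my : y ∈ adjoin Ω {x, y, w ^ n} := subset_adjoin _ _ (by simp)
  have mt : w ^ n ∈ adjoin Ω {x, y, w ^ n} := subset_adjoin _ _ (by simp)
  have hgen : adjoin Ω (((adjoin Ω {x, y, w ^ n} : IntermediateField Ω K) : Set K) ∪ {w}) = ⊤ := by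
    rw [eq_top_iff, ← hK, adjoin_le_iff]
    rintro k (rfl | rfl | rfl)
    · exact subset_adjoin _ _ (Or.inl mx)
    · exact subset_adjoin _ _ (Or.inl my)
    · exact subset_adjoin _ _ (Or.inr rfl)
  have htr : ∃ x y : K, ∀ k : K, k ∈ Acl Ω {x, y} := by
    refine ⟨x, w, fun k => ?_⟩
    rw [← mem_AF]
    have hx : x ∈ AF Ω {x, w} := subset_AF _ (by simp)
    have hw : w ∈ AF Ω {x, w} := subset_AF _ (by simp)
    have h1 : adjoin Ω {x, y, w} ≤ AF Ω {x, w} := by
      rw [adjoin_le_iff]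
      rintro k (rfl | rfl | rfl)
      · exact hx
      · apply AF_root (n := 2) (by norm_num)
        rw [hy]
        have h3 : adjoin Ω {x, w ^ n} ≤ AF Ω {x, w} := by
          rw [adjoin_le_iff]
          rintro s (rfl | rfl)
          · exact hx
          · exact pow_mem hw n
        exact h3 (aeval_mem75 x (w ^ n) h)
      · exact hw
    apply h1
    rw [hK]
    exact mem_top
  refine ⟨hgen, hdeg, mt, htr, ?_⟩
  by_cases hw0 : w = 0
  · left
    refine uniruled_of_gen hK (uni_plane75 x y w ?_)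
    rw [hw0]
    exact zero_mem _
  refine Or.inr ⟨hw0, 1, 1, by simp, ?_, ?_⟩
  · intro N _ _ g v s hv hs
    rw [pow_one, pow_one] at hs
    obtain ⟨hv0, hv1⟩ := sub_ne_of_not_mem _ v (not_mem_of_trans g x y v hv)
    have hs0 : s ^ n ≠ 0 := by
      intro h0
      rw [h0, zero_mul] at hs
      exact mul_ne_zero hv0 hv1 hs
    have hgt : g (w ^ n) = v * (1 - v) / s ^ n := by
      rw [map_pow, hs]
      field_simp
    refine uniruled_le ?_ (uni_tower h2 h hh n (g x) (g y) v s ?_)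
    · have e1 : g x ∈ adjoin Ω {g x, g y, v, s} := subset_adjoin _ _ (by simp)
      have e2 : g y ∈ adjoin Ω {g x, g y, v, s} := subset_adjoin _ _ (by simp)
      have e3 : v ∈ adjoin Ω {g x, g y, v, s} := subset_adjoin _ _ (by simp)
      have e4 : s ∈ adjoin Ω {g x, g y, v, s} := subset_adjoin _ _ (by simp)
      rintro a (ha | ha | ha)
      · obtain ⟨k, hk, rfl⟩ := ha
        have h3 : adjoin Ω {x, y, w ^ n} ≤ (adjoin Ω {g x, g y, v, s}).comap g := by
          rw [adjoin_le_iff]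
          rintro k (rfl | rfl | rfl)
          · exact e1
          · exact e2
          · show g (w ^ n) ∈ adjoin Ω {g x, g y, v, s}
            rw [hgt]
            exact div_mem (mul_mem e3 (sub_mem (one_mem _) e3)) (pow_mem e4 _)
        exact h3 hk
      · rw [ha]
        exact e3
      · rw [Set.mem_singleton_iff.1 ha]
        exact e4
    · rw [← map_pow, hy, map_aeval75, hgt]
  · intro ζ σ hζ hσ hσw ξ t hξn hξ ht
    have hξ2 : ξ ^ 2 = 1 := by
      rcases hξ with h | h | h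
      · rw [pow_one] at h
        rw [h, one_pow]
      · rw [pow_one] at h
        rw [h, one_pow]
      · exact h
    refine exc_zeroM T hn hn' hζ _ w hgen hw0 mt σ ⟨hσ, hσw⟩ 2 (fun e m hem he => ?_) ξ hξn hξ2 t
      ht
    have hsub : ∀ (T' : Set K), x ∈ adjoin Ω T' → y ∈ adjoin Ω T' → w ^ m ∈ adjoin Ω T' →
        ∀ a ∈ ((adjoin Ω {x, y, w ^ n} : IntermediateField Ω K) : Set K) ∪ {w ^ m},
          a ∈ adjoin Ω T' := by
      intro T' h1 h3 h4 a ha
      rcases ha with ha | ha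
      · have h5 : adjoin Ω {x, y, w ^ n} ≤ adjoin Ω T' := by
          rw [adjoin_le_iff]
          rintro k (rfl | rfl | rfl)
          · exact h1
          · exact h3
          · rw [hem, mul_comm, pow_mul]
            exact pow_mem h4 _
        exact h5 ha
      · rw [Set.mem_singleton_iff.1 ha]
        exact h4
    rcases (Nat.dvd_prime Nat.prime_two).1 he with rfl | rfl
    · -- the cubic surface
      rw [one_mul] at hem
      subst hem
      refine uniruled_le (hsub {x, w ^ n, y} (subset_adjoin _ _ (by simp))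
        (subset_adjoin _ _ (by simp)) (subset_adjoin _ _ (by simp))) ?_
      exact uni_double75 h2 h (hh.trans (by norm_num)) x (w ^ n) y hy
    · refine uniruled_le (hsub {w ^ m, x, y} (subset_adjoin _ _ (by simp))
        (subset_adjoin _ _ (by simp)) (subset_adjoin _ _ (by simp))) ?_
      refine uni_tower_two h2 h hh x y (w ^ m) ?_
      rw [hy, ← pow_mul, mul_comm m 2, ← hem]

end Pool.Agent.Helper35.TD
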