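import Pool.Agent.Helper15.TD.Insep

/-! Project TD: from the exponents prime to the characteristic to all exponents, for every cyclic
cover `w ^ n ∈ Ω(s)` (after helper15, Helper15/TD/Insep.lean). -/

set_option autoImplicit false

namespace Pool.Agent.Helper35.TD

open IntermediateField Pool.Agent.Helper15.TD

private theorem deg_le35 {Ω M : Type} [Field Ω] [Field M] [Algebra Ω M] (F : IntermediateField Ω M)
    (z : M) {d : ℕ} (hd : 0 < d) (hz : z ^ d ∈ F)
    (htop : ∀ N : IntermediateField Ω M, F ≤ N → z ∈ N → N = ⊤) : Module.finrank F M ≤ d := by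
  have hint : IsIntegral F z := by
    refine IsIntegral.of_pow hd ?_
    exact isIntegral_algebraMap (x := (⟨z ^ d, hz⟩ : F))
  have h1 : IntermediateField.adjoin F {z} = ⊤ := by
    apply IntermediateField.restrictScalars_injective Ω
    rw [restrictScalars_top]
    refine htop _ ?_ ?_
    · intro a ha
      exact (adjoin F {z}).algebraMap_mem ⟨a, ha⟩
    · exact mem_adjoin_simple_self F z
  have h0 : Module.finrank F (IntermediateField.adjoin F {z}) = Module.finrank F M := by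
    rw [h1, IntermediateField.finrank_top']
  rw [← h0, adjoin.finrank hint]
  have h2 : minpoly F z ∣ Polynomial.X ^ d - Polynomial.C (⟨z ^ d, hz⟩ : F) := by
    refine minpoly.dvd _ _ ?_
    rw [map_sub, map_pow, Polynomial.aeval_X, Polynomial.aeval_C]
    exact sub_self _
  have h3 := Polynomial.natDegree_le_of_dvd h2 (Polynomial.X_pow_sub_C_ne_zero hd _)
  rwa [Polynomial.natDegree_X_pow_sub_C] at h3

/-- the subfield generated by `s i`, `w^q` -/
theorem reduceS {Ω K : Type} [Field Ω] [Field K] [Algebra Ω K] {q n' m : ℕ} (hq : 0 < q)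
    (hn' : 0 < n') (s : Fin m → K) (w : K) (hK : adjoin Ω (Set.range s ∪ {w}) = ⊤)
    (hw : w ^ (q * n') ∈ adjoin Ω (Set.range s))
    (hdeg : Module.finrank (adjoin Ω (Set.range s)) K = q * n') (K1 : IntermediateField Ω K)
    (hK1 : K1 = adjoin Ω (Set.range s ∪ {w ^ q})) (s1 : Fin m → K1) (hs1 : ∀ i, (s1 i : K) = s i)
    (hw1 : w ^ q ∈ K1) :
    adjoin Ω (Set.range s1 ∪ {(⟨w ^ q, hw1⟩ : K1)}) = ⊤ ∧
      Module.finrank (adjoin Ω (Set.range s1)) K1 = n' := by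
  have himg : ((fun k : K1 => (k : K)) '' Set.range s1) = Set.range s := by
    rw [← Set.range_comp]
    congr 1
    funext i
    exact hs1 i
  have htop1 : adjoin Ω (Set.range s1 ∪ {(⟨w ^ q, hw1⟩ : K1)}) = ⊤ := by
    apply lift_injective K1
    rw [lift_top, lift_adjoin, Set.image_union, Set.image_singleton]
    have h1 : (Subtype.val '' Set.range s1 : Set K) = Set.range s := himg
    rw [h1]
    exact hK1.symm
  refine ⟨htop1, ?_⟩
  obtain ⟨F1, hF1⟩ : ∃ F1 : IntermediateField Ω K1, F1 = adjoin Ω (Set.range s1) := ⟨_, rfl⟩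
  have hlift : lift F1 = adjoin Ω (Set.range s) := by
    rw [hF1, lift_adjoin]
    have h1 : (Subtype.val '' Set.range s1 : Set K) = Set.range s := himg
    rw [h1]
  have h5 : Module.finrank F1 K = Module.finrank (lift F1) K :=
    Algebra.finrank_eq_of_equiv_equiv (liftAlgEquiv F1).toRingEquiv (RingEquiv.refl K) (by ext a; rfl)
  rw [hlift, hdeg] at h5
  have h6 : Module.finrank F1 K1 * Module.finrank K1 K = Module.finrank F1 K :=
    Module.finrank_mul_finrank F1 K1 K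
  have h7 : Module.finrank F1 K1 ≤ n' := by
    refine deg_le35 F1 ⟨w ^ q, hw1⟩ hn' ?_ ?_
    · have h1 : (((⟨w ^ q, hw1⟩ : K1) ^ n' : K1) : K) ∈ lift F1 := by
        rw [hlift]
        show (w ^ q) ^ n' ∈ _
        rw [← pow_mul]
        exact hw
      rw [lift, mem_map] at h1
      obtain ⟨a, ha, hab⟩ := h1
      have h2 : a = (⟨w ^ q, hw1⟩ : K1) ^ n' := Subtype.ext hab
      rw [← h2]
      exact ha
    · intro N hN hz
      rw [← top_le_iff, ← htop1, adjoin_le_iff]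
      rintro a (ha | ha)
      · apply hN
        rw [hF1]
        exact subset_adjoin _ _ ha
      · rw [Set.mem_singleton_iff.1 ha]
        exact hz
  have h8 : Module.finrank K1 K ≤ q := by
    refine deg_le35 K1 w hq hw1 ?_
    intro N hN hz
    rw [← top_le_iff, ← hK, adjoin_le_iff]
    rintro a (ha | ha)
    · obtain ⟨i, rfl⟩ := ha
      apply hN
      rw [← hs1 i]
      exact (s1 i).2
    · rw [Set.mem_singleton_iff.1 ha]
      exact hz
  rw [← hF1]
  by_contra hne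
  have hlt : Module.finrank F1 K1 < n' := lt_of_le_of_ne h7 hne
  have h10 : Module.finrank F1 K1 * Module.finrank K1 K ≤ Module.finrank F1 K1 * q :=
    Nat.mul_le_mul_left _ h8
  have h11 : Module.finrank F1 K1 * q < n' * q :=
    Nat.mul_lt_mul_of_pos_right hlt hq
  have h12 : Module.finrank F1 K1 * Module.finrank K1 K = q * n' := by
    rw [h6, h5]
  rw [mul_comm q] at h12
  omega

/-- **From the exponents prime to the characteristic to all exponents.** `K1` is the field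
`Ω(s, w^q)` with the constants embedded by `a ↦ φ a = a ^ q`, `j` its inclusion in `K`. -/
theorem insep_genS {F Ω L : Type} [Field F] [Field Ω]
    [IsAlgClosed Ω] [Algebra F Ω] [Field L] (T : GaloisTheory F Ω L) {n m : ℕ} (hn : 0 < n) {K : Type}
    [Field K] [Algebra Ω K] (s : Fin m → K) (w : K) (hK : adjoin Ω (Set.range s ∪ {w}) = ⊤)
    (hw : w ^ n ∈ adjoin Ω (Set.range s))
    (hdeg : Module.finrank (adjoin Ω (Set.range s)) K = n) (U : Subgroup (Ω ≃ₐ[F] Ω))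
    (γ : (Ω ≃ₐ[F] Ω) → (K →+* K))
    (hγ : ∀ τ ∈ U, IsOver (τ : Ω ≃+* Ω) (γ τ))
    (hfix : ∀ τ ∈ U, (∀ i, γ τ (s i) = s i) ∧ γ τ w = w) (t : T.H 2 K)
    (ht : ∀ τ ∈ U, T.act 2 (γ τ) t = ((T.cyc τ)⁻¹ : Lˣ) • t)
    (H : ∀ (φ : Ω ≃+* Ω) (q n' : ℕ), n = q * n' → 0 < n' → (n' : Ω) ≠ 0 →
      ∀ (K1 : Type) [Field K1] [Algebra Ω K1] (j : K1 →+* K),
        (∀ a : Ω, j (algebraMap Ω K1 a) = algebraMap Ω K (φ a)) →
        ∀ (s1 : Fin m → K1) (w1 : K1), (∀ i, j (s1 i) = s i) → j w1 = w ^ q →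
        adjoin Ω (Set.range s1 ∪ {w1}) = ⊤ →
        Module.finrank (adjoin Ω (Set.range s1)) K1 = n' →
        ∀ γ1 : (Ω ≃ₐ[F] Ω) → (K1 →+* K1), (∀ τ ∈ U, IsOver (τ : Ω ≃+* Ω) (γ1 τ)) →
        (∀ τ ∈ U, ∀ k : K1, j (γ1 τ k) = γ τ (j k)) →
        ∀ t : T.H 2 K1, (∀ τ ∈ U, T.act 2 (γ1 τ) t = ((T.cyc τ)⁻¹ : Lˣ) • t) → t = 0) :
    t = 0 := by
  classical
  obtain ⟨p, hpc⟩ := CharP.exists Ω
  rcases CharP.char_is_prime_or_zero Ω p with hp | hp
  swap
  · subst hp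
    have : CharZero Ω := CharP.charP_to_charZero Ω
    exact H (RingEquiv.refl Ω) 1 n (one_mul n).symm hn (by exact_mod_cast hn.ne') K
      (RingHom.id K) (fun _ => rfl) s w (fun _ => rfl) (pow_one w).symm hK hdeg γ hγ
      (fun _ _ _ => rfl) t ht
  have : Fact p.Prime := ⟨hp⟩
  obtain ⟨r, n', hpn, hnn⟩ := Nat.exists_eq_pow_mul_and_not_dvd hn.ne' p hp.ne_one
  have hn0 : 0 < n' := by
    rcases Nat.eq_zero_or_pos n' with h | h
    · subst h
      exact absurd (dvd_zero p) hpn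
    · exact h
  have hcast : (n' : Ω) ≠ 0 := by
    rw [Ne, CharP.cast_eq_zero_iff Ω p]
    exact hpn
  obtain ⟨q, hq⟩ : ∃ q, q = p ^ r := ⟨_, rfl⟩
  have hq0 : 0 < q := by rw [hq]; exact pow_pos hp.pos r
  rw [← hq] at hnn
  obtain ⟨φ, hφ⟩ : ∃ φ : Ω ≃+* Ω, ∀ a, φ a = a ^ q :=
    ⟨iterateFrobeniusEquiv Ω p r, fun a => by rw [iterateFrobeniusEquiv_def, hq]⟩
  have hKp : CharP K p := charP_of_injective_algebraMap (algebraMap Ω K).injective p
  let al : Algebra Ω (Tw K) := twAlg φ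
  have halg : ∀ a : Ω, algebraMap Ω (Tw K) a = algebraMap Ω K (φ a) := fun _ => rfl
  -- the homomorphism `k ↦ k ^ q`
  obtain ⟨ψ, hψ⟩ : ∃ ψ : K →ₐ[Ω] Tw K, ∀ k : K, ψ k = (k ^ q : K) :=
    ⟨{ (iterateFrobenius K p r : K →+* K) with
        commutes' := fun a => by
          show iterateFrobenius K p r (algebraMap Ω K a) = algebraMap Ω K (φ a)
          rw [iterateFrobenius_def, hφ, map_pow, hq] },
      fun k => by
        show iterateFrobenius K p r k = _
        rw [iterateFrobenius_def, hq]⟩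
  -- generators of the field with the other embedding of the constants
  obtain ⟨s', hs'⟩ : ∃ s' : Fin m → Tw K, s' = s := ⟨s, rfl⟩
  obtain ⟨w', hw'⟩ : ∃ w' : Tw K, w' = w := ⟨w, rfl⟩
  have hK' : adjoin Ω (Set.range s' ∪ {w'}) = ⊤ := by
    rw [hs', hw']
    refine le_antisymm le_top fun k _ => ?_
    refine (tw_mem φ (Set.range s ∪ {w}) k).2 ?_
    rw [hK]
    exact mem_top
  have hdeg' : Module.finrank (adjoin Ω (Set.range s')) (Tw K) = q * n' := by
    rw [hs', ← hnn, ← hdeg]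
    exact tw_finrank φ (Set.range s)
  have hwn' : w' ^ (q * n') ∈ adjoin Ω (Set.range s') := by
    rw [← hnn, hw', hs']
    exact (tw_mem φ (Set.range s) _).2 hw
  obtain ⟨K1, hK1⟩ : ∃ K1 : IntermediateField Ω (Tw K),
      K1 = adjoin Ω (Set.range s' ∪ {w' ^ q}) := ⟨_, rfl⟩
  have hx : ∀ i, s' i ∈ K1 := by
    intro i
    rw [hK1]
    exact subset_adjoin _ _ (Or.inl ⟨i, rfl⟩)
  have hw1 : w' ^ q ∈ K1 := by
    rw [hK1]
    exact subset_adjoin _ _ (Or.inr rfl)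
  obtain ⟨s1, hs1⟩ : ∃ s1 : Fin m → K1, ∀ i, (s1 i : Tw K) = s' i :=
    ⟨fun i => ⟨s' i, hx i⟩, fun _ => rfl⟩
  obtain ⟨htop1, hdeg1⟩ := reduceS hq0 hn0 s' w' hK' hwn' hdeg' K1 hK1 s1 hs1 hw1
  -- the range of `ψ`
  have hψK : ∀ k : K, ψ k ∈ K1 := by
    intro k
    have h1 : (⊤ : IntermediateField Ω K) ≤ K1.comap ψ := by
      rw [← hK, adjoin_le_iff]
      intro a ha
      show ψ a ∈ K1
      rcases ha with ha | ha
      · obtain ⟨i, rfl⟩ := ha
        rw [hψ]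
        have h2 : (s i ^ q : K) = (s' i ^ q : Tw K) := by rw [hs']; rfl
        rw [h2]
        exact pow_mem (hx i) q
      · rw [Set.mem_singleton_iff.1 ha, hψ]
        have h2 : (w ^ q : K) = (w' ^ q : Tw K) := by rw [hw']; rfl
        rw [h2]
        exact hw1
    exact h1 (mem_top (x := k))
  let ψ1 : K →ₐ[Ω] K1 :=
    { toFun := fun k => ⟨ψ k, hψK k⟩
      map_one' := Subtype.ext (map_one ψ)
      map_mul' := fun a b => Subtype.ext (map_mul ψ a b)
      map_zero' := Subtype.ext (map_zero ψ)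
      map_add' := fun a b => Subtype.ext (map_add ψ a b)
      commutes' := fun r => Subtype.ext (ψ.commutes r) }
  -- the Galois action
  have hτφ : ∀ (τ : Ω ≃ₐ[F] Ω) (a : Ω), τ (φ a) = φ (τ a) := by
    intro τ a
    rw [hφ, hφ, map_pow]
  obtain ⟨γ', hγ'⟩ : ∃ γ' : (Ω ≃ₐ[F] Ω) → (Tw K →+* Tw K), ∀ τ (k : K), γ' τ k = γ τ k :=
    ⟨fun τ => γ τ, fun _ _ => rfl⟩
  have hover : ∀ τ ∈ U, ∀ a : Ω, γ' τ (algebraMap Ω (Tw K) a) = algebraMap Ω (Tw K) (τ a) := by
    intro τ hτ a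
    rw [halg, halg, hγ']
    have h1 := hγ τ hτ (φ a)
    rw [h1]
    exact congrArg (algebraMap Ω K) (hτφ τ a)
  have hfix' : ∀ τ ∈ U, (∀ i, γ' τ (s' i) = s' i) ∧ γ' τ w' = w' := by
    intro τ hτ
    rw [hs', hw']
    obtain ⟨e1, e3⟩ := hfix τ hτ
    exact ⟨fun i => (hγ' τ (s i)).trans (e1 i), (hγ' τ w).trans e3⟩
  have hstab : ∀ τ ∈ U, ∀ k ∈ K1, γ' τ k ∈ K1 := by
    intro τ hτ k hk
    let N : IntermediateField Ω (Tw K) :=
      { K1.toSubfield.comap (γ' τ) with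
        algebraMap_mem' := fun a => by
          show γ' τ (algebraMap Ω (Tw K) a) ∈ K1
          rw [hover τ hτ]
          exact K1.algebraMap_mem _ }
    have h1 : K1 ≤ N := by
      conv_lhs => rw [hK1]
      rw [adjoin_le_iff]
      intro a ha
      show γ' τ a ∈ K1
      obtain ⟨e1, e3⟩ := hfix' τ hτ
      rcases ha with ha | ha
      · obtain ⟨i, rfl⟩ := ha
        rw [e1]
        exact hx i
      · rw [Set.mem_singleton_iff.1 ha, map_pow, e3]
        exact hw1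
    exact h1 hk
  let γ1 : (Ω ≃ₐ[F] Ω) → (K1 →+* K1) := fun τ =>
    if h : τ ∈ U then
      { toFun := fun k => ⟨γ' τ k, hstab τ h _ k.2⟩
        map_one' := Subtype.ext (map_one (γ' τ))
        map_mul' := fun a b => Subtype.ext (map_mul (γ' τ) (a : Tw K) b)
        map_zero' := Subtype.ext (map_zero (γ' τ))
        map_add' := fun a b => Subtype.ext (map_add (γ' τ) (a : Tw K) b) }
    else RingHom.id K1
  have hγ1 : ∀ τ ∈ U, ∀ k : K1, (γ1 τ k : Tw K) = γ' τ k := by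
    intro τ hτ k
    simp only [γ1, dif_pos hτ]
    rfl
  have hover1 : ∀ τ ∈ U, IsOver (τ : Ω ≃+* Ω) (γ1 τ) := by
    intro τ hτ a
    apply Subtype.ext
    rw [hγ1 τ hτ]
    exact hover τ hτ a
  -- the class
  have ht1 : ∀ τ ∈ U, T.act 2 (γ1 τ) (T.map 2 ψ1 t) = ((T.cyc τ)⁻¹ : Lˣ) • T.map 2 ψ1 t := by
    intro τ hτ
    have hid : IsOver (RingEquiv.refl Ω) (ψ1 : K →+* K1) := fun a => ψ1.commutes a
    have h1 : (γ1 τ).comp (ψ1 : K →+* K1) = (ψ1 : K →+* K1).comp (γ τ) := by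
      refine RingHom.ext fun k => Subtype.ext ?_
      show (γ1 τ (ψ1 k) : Tw K) = ψ (γ τ k)
      rw [hγ1 τ hτ, hψ]
      show γ' τ (ψ k) = _
      rw [hψ, hγ', map_pow]
    have h2 := LinearMap.congr_fun (T.act_comp 2 (τ : Ω ≃+* Ω) (RingEquiv.refl Ω) (γ1 τ)
      (ψ1 : K →+* K1) (hover1 τ hτ) hid) t
    have h3 := LinearMap.congr_fun (T.act_comp 2 (RingEquiv.refl Ω) (τ : Ω ≃+* Ω)
      (ψ1 : K →+* K1) (γ τ) hid (hγ τ hτ)) t
    rw [h1, h3, LinearMap.comp_apply, LinearMap.comp_apply, T.act_map, ht τ hτ, Units.smul_def,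
      map_smul, ← Units.smul_def] at h2
    exact h2.symm
  have hzero := H φ q n' hnn hn0 hcast K1 (K1.val : K1 →+* Tw K) (fun a => halg a) s1
    ⟨w' ^ q, hw1⟩ (fun i => (hs1 i).trans (congrFun hs' i)) (by
      show w' ^ q = (w ^ q : K)
      rw [hw']
      rfl) htop1 hdeg1 γ1 hover1 (fun τ hτ k => (hγ1 τ hτ k).trans (hγ' τ _)) (T.map 2 ψ1 t) ht1
  have hinj : Function.Injective (T.map 2 ψ1) := by
    refine T.inj 2 ψ1 fun a => ?_
    refine IsAlgebraic.of_pow (n := q) hq0 ?_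
    obtain ⟨k, hk⟩ : ∃ k : K, k = (a : Tw K) := ⟨(a : Tw K), rfl⟩
    have h1 : a ^ q = ψ1 k := by
      apply Subtype.ext
      have h2 : ((a : Tw K)) ^ q = (k ^ q : K) := by
        rw [hk]
        rfl
      exact h2.trans (hψ k).symm
    rw [h1]
    exact isAlgebraic_algebraMap (⟨ψ1 k, ⟨k, rfl⟩⟩ : ψ1.fieldRange)
  apply hinj
  rw [hzero, map_zero]

end Pool.Agent.Helper35.TD
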