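import Pool.Agent.Helper35.TD.Main
import Pool.Agent.Helper35.TD.InputM
import Pool.Agent.Helper35.TD.InsepS
import Pool.Agent.Helper35.TD.Form
import Pool.Agent.Helper15.QM.Pencil
import Pool.Agent.Helper48.ET.Deg

/-! Project TD: the Tate conjecture for divisors on the surfaces `y ^ 2 = h(x, w ^ n)`, `deg h ≤ 3`,
and `w ^ n q(x, y) ^ 2 = f(x, y)`. -/

set_option autoImplicit false

namespace Pool.Agent.Helper35.TD

open IntermediateField Pool.Agent.Helper75.QC Pool.Agent.Helper75.TC Pool.Agent.Helper40.SD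
  Pool.Agent.Helper15.QM

/-- the values of a polynomial for another embedding of the constants -/
theorem hom_aeval {Ω K K1 : Type} [Field Ω] [Field K] [Algebra Ω K] [Field K1] [Algebra Ω K1]
    (φ : Ω ≃+* Ω) (j : K1 →+* K) (hj : ∀ a : Ω, j (algebraMap Ω K1 a) = algebraMap Ω K (φ a))
    (x1 y1 : K1) (f : MvPolynomial (Fin 2) Ω) :
    j (MvPolynomial.aeval ![x1, y1] (f.map (φ.symm : Ω →+* Ω))) =
      MvPolynomial.aeval ![j x1, j y1] f := by
  rw [MvPolynomial.aeval_def, MvPolynomial.aeval_def, MvPolynomial.eval₂_map,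
    MvPolynomial.hom_eval₂]
  have h1 : j.comp ((algebraMap Ω K1).comp (φ.symm : Ω →+* Ω)) = algebraMap Ω K := by
    ext a
    show j (algebraMap Ω K1 (φ.symm a)) = algebraMap Ω K a
    rw [hj, φ.apply_symm_apply]
  have h2 : (fun i => j (![x1, y1] i)) = ![j x1, j y1] := by
    funext i
    fin_cases i <;> rfl
  rw [h1, h2]

/-- `K` is the function field of `y ^ 2 = h(x, w ^ n)`, `deg h ≤ 3`. -/
def IsTower (Ω K : Type) [Field Ω] [Field K] [Algebra Ω K] : Prop :=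
  ∃ (n : ℕ) (h : MvPolynomial (Fin 2) Ω) (x y w : K), 0 < n ∧ h.totalDegree ≤ 3 ∧
    adjoin Ω {x, y, w} = ⊤ ∧ y ^ 2 = MvPolynomial.aeval ![x, w ^ n] h

theorem range_three {K : Type} (x y z : K) : Set.range ![x, y, z] = {x, y, z} := by
  ext k
  simp only [Set.mem_range, Set.mem_insert_iff, Set.mem_singleton_iff]
  constructor
  · rintro ⟨i, rfl⟩
    fin_cases i
    · exact Or.inl rfl
    · exact Or.inr (Or.inl rfl)
    · exact Or.inr (Or.inr rfl)
  · rintro (rfl | rfl | rfl)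
    · exact ⟨0, rfl⟩
    · exact ⟨1, rfl⟩
    · exact ⟨2, rfl⟩

/-- **Towers.** -/
theorem no_tate_tower {F Ω L : Type} [Field F] [Field Ω] [Algebra F Ω] [Algebra.IsAlgebraic F Ω]
    [IsAlgClosed Ω] [Field L] [CharZero L] [IsAlgClosed L] (T : GaloisTheory F Ω L)
    (h2 : (2 : Ω) ≠ 0) {K : Type}
    [Field K] [Algebra Ω K] (hc : IsTower Ω K) (U : Subgroup (Ω ≃ₐ[F] Ω))
    (hU : IsOpen (U : Set (Ω ≃ₐ[F] Ω))) (γ : (Ω ≃ₐ[F] Ω) → (K →+* K)) (hγ : IsForm U γ)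
    (t : T.H 2 K) (ht : ∀ τ ∈ U, T.act 2 (γ τ) t = ((T.cyc τ)⁻¹ : Lˣ) • t) : t = 0 := by
  classical
  obtain ⟨n, h, x, y, w, hn, hh, hK, hy⟩ := hc
  rcases Helper48.ET.tower_deg hn x y w hK (by rw [hy]; exact aeval_mem75 x (w ^ n) h) with
    huni | hdeg
  · exact T.uniruled 2 K huni t
  obtain ⟨V, hVU, hV, hfix⟩ := fixed_open_set {a : K | ∀ τ ∈ U, γ τ a = a} U hU γ hγ.1
    (fun τ hτ s hs => hs τ hτ) {x, y, w} (fun k _ => by
      rw [hγ.2]; exact mem_top)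
  simp only [Finset.mem_insert, Finset.mem_singleton, forall_eq_or_imp, forall_eq] at hfix
  have hgen : adjoin Ω (Set.range ![x, y, w ^ n] ∪ {w}) = ⊤ := by
    rw [range_three, eq_top_iff, ← hK, adjoin_le_iff]
    rintro k (rfl | rfl | rfl)
    · exact subset_adjoin _ _ (by simp)
    · exact subset_adjoin _ _ (by simp)
    · exact subset_adjoin _ _ (by simp)
  refine insep_genS T hn ![x, y, w ^ n] w hgen ?_ ?_ V γ (fun τ hτ => hγ.1 τ (hVU hτ))
    (fun τ hτ => ⟨fun i => ?_, (hfix τ hτ).2.2⟩) t (fun τ hτ => ht τ (hVU hτ)) ?_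
  · rw [range_three]
    exact subset_adjoin _ _ (by simp)
  · rw [range_three]
    exact hdeg
  · fin_cases i
    · exact (hfix τ hτ).1
    · exact (hfix τ hτ).2.1
    · show γ τ (w ^ n) = w ^ n
      rw [map_pow, (hfix τ hτ).2.2]
  intro φ q n' hnn hn0 hcast K1 _ _ j hj s1 w1 hs1 hw1 htop hdeg1 γ1 hover hcomp t1 ht1
  have h0 : j (s1 0) = x := hs1 0
  have h1 : j (s1 1) = y := hs1 1
  have h3 : j (s1 2) = w ^ n := hs1 2
  have hs2 : s1 2 = w1 ^ n' := by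
    apply j.injective
    rw [h3, map_pow, hw1, ← pow_mul, ← hnn]
  have hrange : Set.range s1 = {s1 0, s1 1, w1 ^ n'} := by
    have h4 : s1 = ![s1 0, s1 1, w1 ^ n'] := by
      funext i
      fin_cases i
      · rfl
      · rfl
      · exact hs2
    rw [h4]
    exact range_three _ _ _
  rw [hrange] at htop hdeg1
  have hy1 : s1 1 ^ 2 = MvPolynomial.aeval ![s1 0, w1 ^ n'] (h.map (φ.symm : Ω →+* Ω)) := by
    apply j.injective
    rw [hom_aeval φ j hj, map_pow, h1, h0, hy, map_pow, hw1, ← pow_mul, ← hnn]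
  have hK1 : adjoin Ω {s1 0, s1 1, w1} = ⊤ := by
    rw [eq_top_iff, ← htop, adjoin_le_iff]
    have m3 : w1 ∈ adjoin Ω {s1 0, s1 1, w1} := subset_adjoin _ _ (by simp)
    rintro k (hk | rfl)
    · simp only [Set.mem_insert_iff, Set.mem_singleton_iff] at hk
      rcases hk with rfl | rfl | rfl
      · exact subset_adjoin _ _ (by simp)
      · exact subset_adjoin _ _ (by simp)
      · exact pow_mem m3 _
    · exact m3
  have hI := input_tower T.toBaseTheory h2 (h.map (φ.symm : Ω →+* Ω))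
    ((totalDegree_map_le' _ _).trans hh) hn0 hcast (s1 0) (s1 1) w1 hK1 hdeg1 hy1
  refine hI.tate hn0 hcast {s1 0, s1 1, w1 ^ n'} (Set.toFinite _) rfl V hV γ1 hover
    (fun τ hτ => ?_) t1 ht1
  obtain ⟨e1, e2, e3⟩ := hfix τ hτ
  have f3 : γ1 τ w1 = w1 := by
    apply j.injective
    rw [hcomp τ hτ, hw1, map_pow, e3]
  refine ⟨?_, f3⟩
  rintro k (rfl | rfl | rfl)
  · apply j.injective
    rw [hcomp τ hτ, h0, e1]
  · apply j.injective
    rw [hcomp τ hτ, h1, e2]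
  · rw [map_pow, f3]

/-- `K` is the function field of `w ^ n q(x, y) ^ 2 = f(x, y)`, `deg f ≤ 4` and `deg q ≤ 2`, or of
weighted degrees `≤ 6` and `≤ 3` for the weights `(1, 2)`. -/
def IsPairCover (Ω K : Type) [Field Ω] [Field K] [Algebra Ω K] : Prop :=
  ∃ (n : ℕ) (f q : MvPolynomial (Fin 2) Ω) (x y w : K), 0 < n ∧ Pair f q ∧
    adjoin Ω {x, y, w} = ⊤ ∧ Module.finrank (adjoin Ω {x, y}) K = n ∧
    MvPolynomial.aeval ![x, y] q ≠ 0 ∧
    w ^ n * MvPolynomial.aeval ![x, y] q ^ 2 = MvPolynomial.aeval ![x, y] f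

theorem pair_map {R R' : Type} [CommRing R] [CommRing R'] {f q : MvPolynomial (Fin 2) R}
    (h : Pair f q) (φ : R →+* R') : Pair (f.map φ) (q.map φ) := by
  rcases h with ⟨h1, h2⟩ | ⟨h1, h2⟩
  · exact Or.inl ⟨(totalDegree_map_le' φ f).trans h1, (totalDegree_map_le' φ q).trans h2⟩
  · exact Or.inr ⟨h1.map φ, h2.map φ⟩

/-- **Pairs.** -/
theorem no_tate_pair {F Ω L : Type} [Field F] [Field Ω] [Algebra F Ω] [Algebra.IsAlgebraic F Ω]
    [IsAlgClosed Ω] [Field L] [CharZero L] [IsAlgClosed L] (T : GaloisTheory F Ω L)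
    (h2 : (2 : Ω) ≠ 0) {K : Type}
    [Field K] [Algebra Ω K] (hc : IsPairCover Ω K) (U : Subgroup (Ω ≃ₐ[F] Ω))
    (hU : IsOpen (U : Set (Ω ≃ₐ[F] Ω))) (γ : (Ω ≃ₐ[F] Ω) → (K →+* K)) (hγ : IsForm U γ)
    (t : T.H 2 K) (ht : ∀ τ ∈ U, T.act 2 (γ τ) t = ((T.cyc τ)⁻¹ : Lˣ) • t) : t = 0 := by
  classical
  obtain ⟨n, f, q, x, y, w, hn, hp, hK, hdeg, hq, hw⟩ := hc
  obtain ⟨V, hVU, hV, hfix⟩ := fixed_open_set {a : K | ∀ τ ∈ U, γ τ a = a} U hU γ hγ.1
    (fun τ hτ s hs => hs τ hτ) {x, y, w} (fun k _ => by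
      rw [hγ.2]; exact mem_top)
  simp only [Finset.mem_insert, Finset.mem_singleton, forall_eq_or_imp, forall_eq] at hfix
  have hwF : w ^ n ∈ adjoin Ω {x, y} := by
    have h1 : w ^ n = MvPolynomial.aeval ![x, y] f * (MvPolynomial.aeval ![x, y] q ^ 2)⁻¹ := by
      rw [← hw]
      field_simp
    rw [h1]
    exact mul_mem (aeval_mem75 x y f) (inv_mem (pow_mem (aeval_mem75 x y q) _))
  refine insep_gen T hn x y w hK hwF hdeg V γ (fun τ hτ => hγ.1 τ (hVU hτ)) hfix t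
    (fun τ hτ => ht τ (hVU hτ)) ?_
  intro φ r n' hnn hn0 hcast K1 _ _ j hj x1 y1 w1 hx1 hy1 hw1 htop hdeg1 γ1 hover hcomp t1 ht1
  have hq1 : MvPolynomial.aeval ![x1, y1] (q.map (φ.symm : Ω →+* Ω)) ≠ 0 := by
    intro h0
    apply hq
    rw [← hx1, ← hy1, ← hom_aeval φ j hj, h0, map_zero]
  have hw2 : w1 ^ n' * MvPolynomial.aeval ![x1, y1] (q.map (φ.symm : Ω →+* Ω)) ^ 2 =
      MvPolynomial.aeval ![x1, y1] (f.map (φ.symm : Ω →+* Ω)) := by
    apply j.injective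
    rw [map_mul, map_pow, map_pow, hom_aeval φ j hj, hom_aeval φ j hj, hx1, hy1, hw1, ← pow_mul,
      ← hnn, hw]
  refine (input_pair T.toBaseTheory h2 (f.map (φ.symm : Ω →+* Ω)) (q.map (φ.symm : Ω →+* Ω))
    (pair_map hp _) hn0 hcast x1 y1 w1 htop hdeg1 hq1 hw2).tate hn0 hcast V hV γ1 hover
    (fun τ hτ => ?_) t1 ht1
  obtain ⟨e1, e2, e3⟩ := hfix τ hτ
  refine ⟨?_, ?_, ?_⟩
  · apply j.injective
    rw [hcomp τ hτ, hx1, e1]
  · apply j.injective
    rw [hcomp τ hτ, hy1, e2]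
  · apply j.injective
    rw [hcomp τ hτ, hw1, map_pow, e3]

end Pool.Agent.Helper35.TD
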