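import Pool.Agent.Helper35.TD.Final
import Pool.Agent.Helper35.TD.Towers

/-! Project TD: the final step, for every class of surfaces without Tate classes at the generic
point. -/

set_option autoImplicit false

namespace Pool.Agent.Helper35.TD

open IntermediateField Pool.Agent.Helper75.QC

/-- There are no Tate classes at the generic point, for every form. -/
def NoTate {F Ω L : Type} [Field F] [Field Ω] [Algebra F Ω] [Field L] (T : GaloisTheory F Ω L)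
    (K : Type) [Field K] [Algebra Ω K] : Prop :=
  ∀ U : Subgroup (Ω ≃ₐ[F] Ω), IsOpen (U : Set (Ω ≃ₐ[F] Ω)) →
    ∀ γ : (Ω ≃ₐ[F] Ω) → (K →+* K), IsForm U γ →
      ∀ t : T.H 2 K, (∀ τ ∈ U, T.act 2 (γ τ) t = ((T.cyc τ)⁻¹ : Lˣ) • t) → t = 0

section

variable {F Ω L : Type} [Field F] [Field Ω] [Algebra F Ω] [Algebra.IsAlgebraic F Ω]
  [Field L] (T : GaloisTheory F Ω L)

theorem noTate_cover [IsAlgClosed Ω] [CharZero L] [IsAlgClosed L] {K : Type} [Field K]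
    [Algebra Ω K] (hc : IsCyclicCover Ω K) : NoTate T K :=
  fun U hU γ hγ t ht => no_tate_cover T hc U hU γ hγ t ht

theorem noTate_tower [IsAlgClosed Ω] [CharZero L] [IsAlgClosed L] (h2 : (2 : Ω) ≠ 0) {K : Type}
    [Field K] [Algebra Ω K] (hc : IsTower Ω K) : NoTate T K :=
  fun U hU γ hγ t ht => no_tate_tower T h2 hc U hU γ hγ t ht

theorem noTate_pair [IsAlgClosed Ω] [CharZero L] [IsAlgClosed L] (h2 : (2 : Ω) ≠ 0) {K : Type}
    [Field K] [Algebra Ω K] (hc : IsPairCover Ω K) : NoTate T K :=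
  fun U hU γ hγ t ht => no_tate_pair T h2 hc U hU γ hγ t ht

theorem exists_form_fg {K : Type} [Field K] [Algebra Ω K] (hK : (⊤ : IntermediateField Ω K).FG) :
    ∃ W : Subgroup (Ω ≃ₐ[F] Ω), IsOpen (W : Set (Ω ≃ₐ[F] Ω)) ∧
      ∃ γ : (Ω ≃ₐ[F] Ω) → (K →+* K), IsForm W γ := by
  obtain ⟨Q, hQ⟩ := hK
  obtain ⟨m, s, hs⟩ : ∃ (m : ℕ) (s : Fin m → K), adjoin Ω (Set.range s) = ⊤ := by
    refine ⟨Q.card, fun i => (Q.equivFin.symm i : K), ?_⟩
    rw [← hQ]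
    congr 1
    ext k
    constructor
    · rintro ⟨i, rfl⟩
      exact (Q.equivFin.symm i).2
    · intro hk
      exact ⟨Q.equivFin ⟨k, hk⟩, by simp⟩
  obtain ⟨W, hW, γ, hγ⟩ := exists_form (F := F) s hs
  exact ⟨W, hW, γ, isForm_of_gens (fun τ hτ => (hγ τ hτ).1) _ hs (by
    rintro τ hτ _ ⟨i, rfl⟩
    exact (hγ τ hτ).2 i)⟩

/-- **Domination.** -/
theorem NoTate.of_hom {K K₀ : Type} [Field K] [Algebra Ω K] [Field K₀] [Algebra Ω K₀]
    (H : NoTate T K) (hK : (⊤ : IntermediateField Ω K).FG)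
    (hfin : (⊤ : IntermediateField Ω K₀).FG) (h : K₀ →ₐ[Ω] K)
    (halg : ∀ a : K, IsAlgebraic h.fieldRange a) : NoTate T K₀ := by
  intro U hU γ₀ hγ₀ t ht
  obtain ⟨W, hW, γ, hform⟩ := exists_form_fg (F := F) hK
  obtain ⟨V, hVW, hVU, hV, hcomp⟩ := exists_equivariant hfin h W hW γ hform U hU γ₀ hγ₀
  apply T.inj 2 h halg
  rw [map_zero]
  refine H V hV γ (hform.mono hVW) _ fun τ hτ => ?_
  have hid : IsOver (RingEquiv.refl Ω) (h : K₀ →+* K) := fun a => h.commutes a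
  have h1 : (γ τ).comp (h : K₀ →+* K) = (h : K₀ →+* K).comp (γ₀ τ) :=
    RingHom.ext fun k => (hcomp τ hτ k).symm
  have h2 := LinearMap.congr_fun (T.act_comp 2 (τ : Ω ≃+* Ω) (RingEquiv.refl Ω) (γ τ)
    (h : K₀ →+* K) (hform.1 τ (hVW hτ)) hid) t
  have h3 := LinearMap.congr_fun (T.act_comp 2 (RingEquiv.refl Ω) (τ : Ω ≃+* Ω)
    (h : K₀ →+* K) (γ₀ τ) hid (hγ₀.1 τ (hVU hτ))) t
  rw [h1, h3, LinearMap.comp_apply, LinearMap.comp_apply, T.act_map, ht τ (hVU hτ),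
    Units.smul_def, map_smul] at h2
  exact h2.symm

omit [Algebra.IsAlgebraic F Ω] in
/-- **The Tate conjecture for divisors** for a surface without Tate classes at the generic point -/
theorem NoTate.tate {K₀ : Type} [Field K₀] [Algebra Ω K₀] (H : NoTate T K₀)
    (U : Subgroup (Ω ≃ₐ[F] Ω)) (hU : IsOpen (U : Set (Ω ≃ₐ[F] Ω)))
    (γ₀ : (Ω ≃ₐ[F] Ω) → (K₀ →+* K₀)) (hγ₀ : IsForm U γ₀)
    {V : Type} [AddCommGroup V] [Module L V] (ρ : (Ω ≃ₐ[F] Ω) → Module.End L V)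
    (r : V →ₗ[L] T.H 2 K₀) (NS : Submodule L V) (hV : IsH2 T U γ₀ ρ r NS) (v : V)
    (hv : IsTateClass T ρ v) : v ∈ NS := by
  obtain ⟨U', hU', hv'⟩ := hv
  rw [← hV.ker, LinearMap.mem_ker]
  refine H (U ⊓ U') (hU.inter hU') γ₀ (hγ₀.mono inf_le_left) _ fun τ hτ => ?_
  rw [← hV.comm τ hτ.1 v, hv' τ hτ.2, Units.smul_def, Units.smul_def, map_smul]

end

end Pool.Agent.Helper35.TD
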