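import Mathlib

/-! Project TD. The contraction argument, linear algebra: a class `t` with `t ⊗ z` in the image of a
space `D`, `z ≠ 0`, is zero if equivariant homomorphisms have vanishing contractions. -/

set_option autoImplicit false

namespace Pool.Agent.Helper35.TD

open TensorProduct Module

theorem contraction_zero {L I V W D : Type} [Field L] [CharZero L] [AddCommGroup V] [Module L V]
    [AddCommGroup W] [Module L W] [FiniteDimensional L W] [AddCommGroup D] [Module L D]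
    (aV : I → V →ₗ[L] V) (aW : I → W →ₗ[L] W) (aD : I → D →ₗ[L] D) (c : I → Lˣ)
    (g : D →ₗ[L] V ⊗[L] W)
    (heq : ∀ i s, TensorProduct.map (aV i) (aW i) (g s) = ((c i)⁻¹ : Lˣ) • g (aD i s))
    (hW : ∀ P : Submodule L W, (∀ i, ∀ x ∈ P, aW i x ∈ P) →
      ∃ Q : Submodule L W, (∀ i, ∀ x ∈ Q, aW i x ∈ Q) ∧ IsCompl P Q)
    (hD : ∀ P : Submodule L D, (∀ i, ∀ x ∈ P, aD i x ∈ P) →
      ∃ Q : Submodule L D, (∀ i, ∀ x ∈ Q, aD i x ∈ Q) ∧ IsCompl P Q)
    (htr : ∀ A : W →ₗ[L] D, (∀ i x, A (aW i x) = aD i (A x)) → ∀ ξ : V →ₗ[L] L,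
      LinearMap.trace L W (TensorProduct.lid L W ∘ₗ ξ.rTensor W ∘ₗ g ∘ₗ A) = 0)
    (t : V) (ht : ∀ i, aV i t = ((c i)⁻¹ : Lˣ) • t) (z : W) (hz : z ≠ 0)
    (hzt : t ⊗ₜ[L] z ∈ LinearMap.range g) : t = 0 := by
  classical
  -- the `x` with `t ⊗ x` in the image of `g`
  set m : W →ₗ[L] V ⊗[L] W := TensorProduct.mk L V W t with hm
  set E : Submodule L W := (LinearMap.range g).comap m with hE
  have hmi : ∀ i x, TensorProduct.map (aV i) (aW i) (m x) = ((c i)⁻¹ : Lˣ) • m (aW i x) := by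
    intro i x
    rw [hm, TensorProduct.mk_apply, TensorProduct.map_tmul, ht, TensorProduct.mk_apply]
    rfl
  have hEs : ∀ i, ∀ x ∈ E, aW i x ∈ E := by
    rintro i x ⟨s, hs⟩
    refine ⟨aD i s, ?_⟩
    have h1 := heq i s
    rw [hs, hmi] at h1
    have h2 := congrArg (fun y => (c i) • y) h1
    simp only [smul_inv_smul] at h2
    exact h2.symm
  obtain ⟨Q, hQ, hEQ⟩ := hW E hEs
  -- the kernel of `g` and a complement
  have hKs : ∀ i, ∀ s ∈ LinearMap.ker g, aD i s ∈ LinearMap.ker g := by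
    intro i s hs
    rw [LinearMap.mem_ker] at hs ⊢
    have h1 := heq i s
    rw [hs, map_zero] at h1
    have h2 := congrArg (fun y => (c i) • y) h1
    simp only [smul_inv_smul, smul_zero] at h2
    exact h2.symm
  obtain ⟨R, hR, hKR⟩ := hD _ hKs
  set gR : R →ₗ[L] LinearMap.range g := g.rangeRestrict ∘ₗ R.subtype with hgR
  have hgRi : Function.Injective gR := by
    rw [← LinearMap.ker_eq_bot, LinearMap.ker_eq_bot']
    intro r hr
    have h1 : g (r : D) = 0 := congrArg Subtype.val hr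
    have h2 : (r : D) ∈ LinearMap.ker g ⊓ R := ⟨h1, r.2⟩
    rw [hKR.inf_eq_bot, Submodule.mem_bot] at h2
    exact Subtype.ext h2
  have hgRs : Function.Surjective gR := by
    rintro ⟨_, s, rfl⟩
    have h1 : s ∈ LinearMap.ker g ⊔ R := by rw [hKR.sup_eq_top]; trivial
    obtain ⟨k, hk, r, hr, rfl⟩ := Submodule.mem_sup.1 h1
    refine ⟨⟨r, hr⟩, Subtype.ext ?_⟩
    change g r = g (k + r)
    rw [map_add, LinearMap.mem_ker.1 hk, zero_add]
  set e : R ≃ₗ[L] LinearMap.range g := LinearEquiv.ofBijective gR ⟨hgRi, hgRs⟩ with he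
  -- the lift
  set pr : W →ₗ[L] E := Submodule.projectionOnto E Q hEQ with hpr
  set mE : E →ₗ[L] LinearMap.range g := (m ∘ₗ E.subtype).codRestrict (LinearMap.range g)
    (fun x => x.2) with hmE
  set A : W →ₗ[L] D := R.subtype ∘ₗ (e.symm : LinearMap.range g →ₗ[L] R) ∘ₗ mE ∘ₗ pr with hA
  have hgA : ∀ x, g (A x) = m (pr x : W) := by
    intro x
    have h1 : gR (e.symm (mE (pr x))) = mE (pr x) := e.apply_symm_apply _
    exact congrArg Subtype.val h1
  have hpr0 : ∀ u ∈ E, ∀ q ∈ Q, (pr (u + q) : W) = u := by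
    intro u hu q hq
    rw [map_add, hpr, Submodule.projectionOnto_apply_of_mem_left hEQ hu,
      Submodule.projectionOnto_apply_of_mem_right hEQ hq, add_zero]
  have hprs : ∀ i x, (pr (aW i x) : W) = aW i (pr x : W) := by
    intro i x
    obtain ⟨u, hu, q, hq, rfl⟩ := Submodule.mem_sup.1
      (show x ∈ E ⊔ Q by rw [hEQ.sup_eq_top]; trivial)
    rw [hpr0 u hu q hq, map_add, hpr0 _ (hEs i u hu) _ (hQ i q hq)]
  have hAe : ∀ i x, A (aW i x) = aD i (A x) := by
    intro i x
    have h1 : A (aW i x) ∈ R := (e.symm (mE (pr (aW i x)))).2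
    have h2 : aD i (A x) ∈ R := hR i _ (e.symm (mE (pr x))).2
    have h3 : g (A (aW i x)) = g (aD i (A x)) := by
      rw [hgA, hprs]
      have h4 := heq i (A x)
      rw [hgA, hmi] at h4
      have h5 := congrArg (fun y => (c i) • y) h4
      simp only [smul_inv_smul] at h5
      exact h5
    have h4 : gR ⟨_, h1⟩ = gR ⟨_, h2⟩ := Subtype.ext h3
    exact congrArg Subtype.val (hgRi h4)
  -- the trace
  rw [← Module.forall_dual_apply_eq_zero_iff L t]
  intro ξ
  have h1 := htr A hAe ξ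
  have h2 : TensorProduct.lid L W ∘ₗ ξ.rTensor W ∘ₗ g ∘ₗ A = ξ t • E.projection Q hEQ := by
    refine LinearMap.ext fun x => ?_
    change TensorProduct.lid L W (ξ.rTensor W (g (A x))) = ξ t • (pr x : W)
    rw [hgA, hm, TensorProduct.mk_apply, LinearMap.rTensor_tmul, TensorProduct.lid_tmul]
  have h3 : LinearMap.trace L W (E.projection Q hEQ) = (finrank L E : L) := by
    refine LinearMap.IsProj.trace (p := E) ⟨fun x => ?_, fun x hx => ?_⟩
    · exact Submodule.projection_apply_mem hEQ x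
    · exact Submodule.projection_apply_of_mem_left hEQ hx
  rw [h2, map_smul, h3, smul_eq_mul] at h1
  have h4 : (finrank L E : L) ≠ 0 := by
    rw [Nat.cast_ne_zero]
    have : Nontrivial E := ⟨⟨⟨z, hzt⟩, 0, fun h => hz (congrArg Subtype.val h)⟩⟩
    exact (Module.finrank_pos).ne'
  exact (mul_eq_zero.1 h1).resolve_right h4

end Pool.Agent.Helper35.TD
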