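import Pool.Agent.Helper35.TD.Defs
import Pool.Agent.Helper35.TD.Lin

/-! Project TD, lemma (L): a Tate class of a surface whose product with a nonzero class of degree
one of a curve vanishes at the generic point of the product is zero. -/

set_option autoImplicit false

namespace Pool.Agent.Helper35.TD

open IntermediateField TensorProduct Module Pool.Agent.Helper75.QC

theorem IsForm.mono {F Ω K : Type} [Field F] [Field Ω] [Algebra F Ω] [Field K] [Algebra Ω K]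
    {U V : Subgroup (Ω ≃ₐ[F] Ω)} (h : V ≤ U) {γ : (Ω ≃ₐ[F] Ω) → (K →+* K)} (hU : IsForm U γ) :
    IsForm V γ := by
  refine ⟨fun τ hτ => hU.1 τ (h hτ), ?_⟩
  rw [eq_top_iff, ← hU.2]
  exact adjoin.mono _ _ _ fun a ha τ hτ => ha τ (h hτ)

/-- **(L)** -/
theorem GaloisTheory.eq_zero_of_cup {F Ω L : Type} [Field F] [Field Ω] [Algebra F Ω] [Field L]
    [CharZero L] (T : GaloisTheory F Ω L) {K C N : Type} [Field K] [Algebra Ω K] [Field C]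
    [Algebra Ω C] [Field N] [Algebra Ω N] (a : K →ₐ[Ω] N) (b : C →ₐ[Ω] N) (x y : K) (v : C)
    (U : Subgroup (Ω ≃ₐ[F] Ω)) (γ : (Ω ≃ₐ[F] Ω) → (K →+* K)) (γ' : (Ω ≃ₐ[F] Ω) → (C →+* C))
    (hK : (⊤ : IntermediateField Ω K).FG) (hC : (⊤ : IntermediateField Ω C).FG)
    (hxy : ∀ k : K, k ∈ Acl Ω {x, y}) (hv : ∀ k : C, k ∈ Acl Ω {v})
    (htr : Transcendental a.fieldRange (b v)) (hU : IsOpen (U : Set (Ω ≃ₐ[F] Ω)))
    (hγ : IsForm U γ) (hγ' : IsForm U γ') (t : T.H 2 K)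
    (ht : ∀ τ ∈ U, T.act 2 (γ τ) t = ((T.cyc τ)⁻¹ : Lˣ) • t) (z : T.H 1 C) (hz : z ≠ 0)
    (h0 : T.cup N (T.map 2 a t) (T.map 1 b z) = 0) : t = 0 := by
  obtain ⟨V, D, _, _, δ, g, hVU, hV, hD, hδ, heq, hker, hA⟩ :=
    T.gysin a b x y v U γ γ' hK hC hxy hv htr hU hγ hγ'
  have hCf : FiniteDimensional L (T.H 1 C) := T.fin 1 C hC
  refine contraction_zero (I := V) (fun τ => T.act 2 (γ τ)) (fun τ => T.act 1 (γ' τ))
    (fun τ => T.act 1 (δ τ)) (fun τ => T.cyc τ) g (fun τ s => heq τ τ.2 s) ?_ ?_ ?_ t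
    (fun τ => ht τ (hVU τ.2)) z hz ((hker _).1 ?_)
  · intro P hP
    obtain ⟨Q, hQ, h⟩ := T.semisimple C V γ' hC hV (hγ'.mono hVU) P fun τ hτ => hP ⟨τ, hτ⟩
    exact ⟨Q, fun τ => hQ τ τ.2, h⟩
  · intro P hP
    obtain ⟨Q, hQ, h⟩ := T.semisimple D V δ hD hV hδ P fun τ hτ => hP ⟨τ, hτ⟩
    exact ⟨Q, fun τ => hQ τ τ.2, h⟩
  · intro A hAe ξ
    exact hA A (T.tate C D V γ' δ hC hD hV (hγ'.mono hVU) hδ A fun τ hτ => hAe ⟨τ, hτ⟩) ξ
  · rw [TensorProduct.lift.tmul]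
    exact h0

end Pool.Agent.Helper35.TD
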