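import Pool.Agent.Helper35.TD.Comm
import Pool.Agent.Helper35.TD.CurveAB
import Pool.Agent.Helper15.TD.Insep
import Pool.Agent.Helper75.QC.Cross
import Pool.Agent.Helper75.QC.Quad
import Pool.Agent.Helper75.QC.Zf

/-! Project TD: the case of an exponent prime to the characteristic.

`tame_gen`: the criterion. `w ^ n ∈ Ω(x, y)`, `C : u ^ n = v ^ α (1 - v) ^ β`: if the threefolds
`v ^ α (1 - v) ^ β = s ^ n w ^ n` are uniruled and the eigenspaces for `ξ ^ α = 1`, `ξ ^ β = 1` and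
`ξ ^ (α + β) = 1` vanish, then there are no Tate classes at the generic point. -/

set_option autoImplicit false

namespace Pool.Agent.Helper35.TD

open IntermediateField Pool.Agent.Helper75.QC

/-- **The criterion.** -/
theorem tame_gen {F Ω L : Type} [Field F] [Field Ω] [Algebra F Ω] [IsAlgClosed Ω] [Field L]
    [CharZero L] [IsAlgClosed L] (T : GaloisTheory F Ω L) (α β : ℕ) {n : ℕ} (hn : 0 < n)
    (hn' : (n : Ω) ≠ 0) (hαβ : (α.gcd β).Coprime n) {K : Type} [Field K] [Algebra Ω K] (x y w : K)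
    (hK : adjoin Ω {x, y, w} = ⊤) (hw0 : w ≠ 0) (hw : w ^ n ∈ adjoin Ω {x, y})
    (hdeg : Module.finrank (adjoin Ω {x, y}) K = n)
    (huni : ∀ (N : Type) [Field N] [Algebra Ω N] (g : K →ₐ[Ω] N) (v s : N),
      Transcendental g.fieldRange v → v ^ α * (1 - v) ^ β = s ^ n * g w ^ n →
      Uniruled Ω (adjoin Ω {g x, g y, v, s} : IntermediateField Ω N) 3)
    (hexc : ∀ (ζ : Ω) (σ : K →ₐ[Ω] K), IsPrimitiveRoot ζ n → σ x = x → σ y = y →
      σ w = algebraMap Ω K ζ * w → ∀ (ξ : L) (t : T.H 2 K), ξ ^ n = 1 →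
      (ξ ^ α = 1 ∨ ξ ^ β = 1 ∨ ξ ^ (α + β) = 1) → T.map 2 σ t = ξ • t → t = 0)
    (U : Subgroup (Ω ≃ₐ[F] Ω)) (hU : IsOpen (U : Set (Ω ≃ₐ[F] Ω)))
    (γ : (Ω ≃ₐ[F] Ω) → (K →+* K)) (hγ : ∀ τ ∈ U, IsOver (τ : Ω ≃+* Ω) (γ τ))
    (hfix : ∀ τ ∈ U, γ τ x = x ∧ γ τ y = y ∧ γ τ w = w) (t : T.H 2 K)
    (ht : ∀ τ ∈ U, T.act 2 (γ τ) t = ((T.cyc τ)⁻¹ : Lˣ) • t) : t = 0 := by
  classical
  by_contra h0
  have hfin : (⊤ : IntermediateField Ω K).FG := by
    rw [← hK]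
    exact fg_adjoin_of_finite (Set.toFinite _)
  have : FiniteDimensional L (T.H 2 K) := T.fin 2 K hfin
  have : NeZero (n : Ω) := ⟨hn'⟩
  obtain ⟨ζ, hζ⟩ : ∃ ζ : Ω, IsPrimitiveRoot ζ n :=
    HasEnoughRootsOfUnity.exists_primitiveRoot Ω n
  obtain ⟨σ, hσ⟩ := kummer_sigma hn hn' hζ.pow_eq_one x y w hK hw hdeg
  have hζF : IsIntegral F ζ := by
    refine ⟨Polynomial.X ^ n - Polynomial.C 1, Polynomial.monic_X_pow_sub_C _ hn.ne', ?_⟩
    rw [Polynomial.eval₂_sub, Polynomial.eval₂_pow, Polynomial.eval₂_X, Polynomial.eval₂_C,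
      hζ.pow_eq_one, map_one, sub_self]
  obtain ⟨V, hVU, hV, hVζ⟩ := exists_open U hU ζ hζF
  -- a common eigenvector
  have hcomm : ∀ (τ : V) (r : T.H 2 K),
      T.act 2 (γ τ) (T.map 2 σ r) = T.map 2 σ (T.act 2 (γ τ) r) := by
    intro τ r
    have hτ := hVU τ.2
    refine T.act_comm 2 {x, y, w} hK (τ : Ω ≃+* Ω) (γ τ) (hγ τ hτ) σ ?_ r
    obtain ⟨h1, h2, h3⟩ := hfix τ hτ
    rintro s (rfl | rfl | rfl)
    · rw [hσ.1, h1, hσ.1]
    · rw [hσ.2.1, h2, hσ.2.1]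
    · rw [hσ.2.2, map_mul, hγ τ hτ, h3, hσ.2.2]
      congr 2
      exact hVζ τ τ.2
  obtain ⟨s, ξ, hs0, hs, hξs⟩ := exists_eigen (fun τ : V => T.act 2 (γ τ))
    (fun τ : V => (((T.cyc τ)⁻¹ : Lˣ) : L)) (T.map 2 σ) hcomm t
    (fun τ => ht τ (hVU τ.2)) h0
  have hξn : ξ ^ n = 1 := by
    have h1 : ∀ j : ℕ, (T.map 2 σ ^ j : Module.End L (T.H 2 K)) s = ξ ^ j • s := by
      intro j
      induction j with
      | zero => simp
      | succ j ih =>
        rw [pow_succ, Module.End.mul_apply, hξs, map_smul, ih, smul_smul, pow_succ, mul_comm]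
    have h2 := h1 n
    rw [← tmap_pow75, sigma_order75 hζ.pow_eq_one x y w hK σ hσ] at h2
    have h3 : T.map 2 (1 : K →ₐ[Ω] K) s = s := LinearMap.congr_fun (T.map_id 2 K) s
    rw [h3] at h2
    have h4 : (ξ ^ n - 1) • s = 0 := by
      rw [sub_smul, ← h2, one_smul, sub_self]
    exact sub_eq_zero.1 ((smul_eq_zero.1 h4).resolve_right hs0)
  by_cases hξ2 : ξ ^ α = 1 ∨ ξ ^ β = 1 ∨ ξ ^ (α + β) = 1
  · exact hs0 (hexc ζ σ hζ hσ.1 hσ.2.1 hσ.2.2 ξ s hξn hξ2 hξs)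
  rw [not_or, not_or] at hξ2
  have hξ0 : ξ ≠ 0 := by
    rintro rfl
    rw [zero_pow hn.ne'] at hξn
    exact zero_ne_one hξn
  obtain ⟨C, N, iC, jC, iN, jN, v, u, a, b, hv, hu, hC, hbv, hN, hsig, -, hpsi⟩ :=
    exists_curve_ab (Ω := Ω) hn hαβ K
  obtain ⟨σ', hσ'⟩ := hsig ζ hζ.pow_eq_one
  choose γ' hγ' using fun τ : Ω ≃ₐ[F] Ω => hpsi (τ : Ω ≃+* Ω)
  have hfinC : (⊤ : IntermediateField Ω C).FG := by
    rw [← hC]
    exact fg_adjoin_of_finite (Set.toFinite _)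
  obtain ⟨z, hz0, hz⟩ := T.curve C n α β ζ v u σ' hn' hζ hv hu hC hσ'.1 hσ'.2 ξ⁻¹
    (by rw [inv_pow, hξn, inv_one]) (by
      intro h
      rw [inv_pow, inv_eq_one] at h
      exact hξ2.1 h) (by
      intro h
      rw [inv_pow, inv_eq_one] at h
      exact hξ2.2.1 h) (by
      intro h
      rw [inv_pow, inv_eq_one] at h
      exact hξ2.2.2 h)
  have huni' : ∀ z : T.H 3 (adjoin Ω {a x, a y, b v, b u / a w} : IntermediateField Ω N), z = 0 := by
    apply T.uniruled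
    refine huni N a (b v) (b u / a w) hbv ?_
    have h2 : b u ^ n = b v ^ α * (1 - b v) ^ β := by
      rw [← map_pow, hu, map_mul, map_pow, map_pow, map_sub, map_one]
    have h3 : a w ≠ 0 := fun h => hw0 (a.injective (h.trans (map_zero a).symm))
    rw [div_pow, h2, div_mul_cancel₀ _ (pow_ne_zero _ h3)]
  refine hs0 (T.eq_zero_of_cup a b x y v V γ γ' hfin hfinC ?_ ?_ hbv hV ?_ ?_ s
    (fun τ hτ => hs ⟨τ, hτ⟩) z hz0 ?_)
  · intro k
    have : FiniteDimensional (adjoin Ω {x, y}) K :=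
      Module.finite_of_finrank_pos (by rw [hdeg]; exact hn)
    exact Algebra.IsAlgebraic.isAlgebraic k
  · intro k
    rw [← mem_AF]
    have h1 : adjoin Ω {v, u} ≤ AF Ω {v} := by
      rw [adjoin_le_iff]
      have hvm : v ∈ AF Ω {v} := subset_AF _ (by simp)
      rintro k (rfl | rfl)
      · exact hvm
      · apply AF_root hn
        rw [hu]
        exact mul_mem (pow_mem hvm _) (pow_mem (sub_mem (one_mem _) hvm) _)
    apply h1
    rw [hC]
    exact mem_top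
  · refine isForm_of_gens (fun τ hτ => hγ τ (hVU hτ)) {x, y, w} hK fun τ hτ k hk => ?_
    obtain ⟨h1, h2, h3⟩ := hfix τ (hVU hτ)
    rcases hk with rfl | rfl | rfl
    · exact h1
    · exact h2
    · exact h3
  · refine isForm_of_gens (fun τ _ => (hγ' τ).1) {v, u} hC fun τ _ k hk => ?_
    rcases hk with rfl | rfl
    · exact (hγ' τ).2.1
    · exact (hγ' τ).2.2
  · exact cross_zero T.toBaseTheory hn hn' hζ a b x y w v u hK hC hN hw0 hw σ hσ σ' hσ' huni'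
      ξ hξ0 s hξs z hz

private theorem fv_map {Ω K N : Type} [Field Ω] [Field K] [Algebra Ω K] [Field N] [Algebra Ω N]
    (a : K →ₐ[Ω] N) (c : ℕ → ℕ → Ω) (x y : K) : a (Fv c x y) = Fv c (a x) (a y) := by
  unfold Fv
  simp only [map_sum, map_mul, map_pow, AlgHom.commutes]

private theorem fv_mem {Ω K : Type} [Field Ω] [Field K] [Algebra Ω K] (c : ℕ → ℕ → Ω) (x y : K) :
    Fv c x y ∈ adjoin Ω {x, y} := by
  unfold Fv
  refine sum_mem fun i _ => sum_mem fun j _ => mul_mem (mul_mem ?_ (pow_mem ?_ i)) (pow_mem ?_ j)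
  · exact IntermediateField.algebraMap_mem _ _
  · exact subset_adjoin _ _ (by simp)
  · exact subset_adjoin _ _ (by simp)

/-- `w = 0`: the plane -/
theorem plane_zero {Ω L : Type} [Field Ω] [Field L] (T : BaseTheory Ω L) {K : Type}
    [Field K] [Algebra Ω K] (x y w : K) (hK : adjoin Ω {x, y, w} = ⊤) (hw0 : w = 0)
    (t : T.H 2 K) : t = 0 := by
  refine T.uniruled 2 K ?_ t
  refine ⟨K, inferInstance, inferInstance, AlgHom.id Ω K, {x}, y, by simp, fun k => ?_⟩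
  have h1 : adjoin Ω {x, y, w} ≤ adjoin Ω (Acl Ω (({x} : Finset K) : Set K) ∪ {y}) := by
    rw [adjoin_le_iff]
    rintro s (rfl | rfl | rfl)
    · refine subset_adjoin _ _ (Or.inl ?_)
      rw [← coe_AF]
      exact subset_AF _ (by simp)
    · exact subset_adjoin _ _ (Or.inr rfl)
    · rw [hw0]
      exact zero_mem _
  apply h1
  rw [hK]
  exact mem_top

/-- **The quartic case**, exponent prime to the characteristic -/
theorem tame {F Ω L : Type} [Field F] [Field Ω] [Algebra F Ω] [IsAlgClosed Ω] [Field L]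
    [CharZero L] [IsAlgClosed L] (T : GaloisTheory F Ω L) : Helper15.TD.Tame T := by
  intro f hf n hn hn' K _ _ x y w hK hw hdeg U hU γ hγ hfix t ht
  by_cases hw0 : w = 0
  · exact plane_zero T.toBaseTheory x y w hK hw0 t
  obtain ⟨c, hc⟩ := exists_Fv f hf
  refine tame_gen T 1 1 hn hn' (by simp) x y w hK hw0
    (by rw [hw, hc K x y]; exact fv_mem c x y) hdeg
    ?_ ?_ U hU γ hγ hfix t ht
  · intro N _ _ g v s hv hs
    refine uni_field c hn (g x) (g y) v s ?_ ?_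
    · intro h
      exact hv (h.tower_top _)
    · rw [pow_one, pow_one, ← map_pow, hw, hc K x y, fv_map] at hs
      exact hs
  · intro ζ σ hζ h1 h2 h3 ξ t _ hξ ht
    have hξ2 : ξ ^ 2 = 1 := by
      rcases hξ with h | h | h
      · rw [pow_one] at h
        rw [h, one_pow]
      · rw [pow_one] at h
        rw [h, one_pow]
      · exact h
    refine eigen_zero T.toBaseTheory f hf hn hn' hζ x y w hK hw0 hw σ ⟨h1, h2, h3⟩ t ?_
    rw [ht, map_smul, ht, smul_smul, ← pow_two, hξ2, one_smul]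

/-- **No Tate classes at the generic point** of the surface `w ^ n = f(x, y)`, `deg f ≤ 4` -/
theorem no_tate {F Ω L : Type} [Field F] [Field Ω] [Algebra F Ω] [IsAlgClosed Ω] [Field L]
    [CharZero L] [IsAlgClosed L] (T : GaloisTheory F Ω L) (f : MvPolynomial (Fin 2) Ω)
    (hf : f.totalDegree ≤ 4) {n : ℕ} (hn : 0 < n) {K : Type}
    [Field K] [Algebra Ω K] (x y w : K) (hK : adjoin Ω {x, y, w} = ⊤)
    (hw : w ^ n = MvPolynomial.aeval ![x, y] f)
    (hdeg : Module.finrank (adjoin Ω {x, y}) K = n) (U : Subgroup (Ω ≃ₐ[F] Ω))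
    (hU : IsOpen (U : Set (Ω ≃ₐ[F] Ω))) (γ : (Ω ≃ₐ[F] Ω) → (K →+* K))
    (hγ : ∀ τ ∈ U, IsOver (τ : Ω ≃+* Ω) (γ τ))
    (hfix : ∀ τ ∈ U, γ τ x = x ∧ γ τ y = y ∧ γ τ w = w) (t : T.H 2 K)
    (ht : ∀ τ ∈ U, T.act 2 (γ τ) t = ((T.cyc τ)⁻¹ : Lˣ) • t) : t = 0 := by
  obtain ⟨p, hp⟩ := CharP.exists Ω
  rcases CharP.char_is_prime_or_zero Ω p with h | h
  · have : Fact p.Prime := ⟨h⟩
    exact Helper15.TD.all_of_tame T (tame T) f hf hn x y w hK hw hdeg U hU γ hγ hfix t ht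
  · subst h
    have : CharZero Ω := CharP.charP_to_charZero Ω
    exact tame T f hf n hn (by exact_mod_cast hn.ne') K x y w hK hw hdeg U hU γ hγ hfix t ht

end Pool.Agent.Helper35.TD
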